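import Pool.Agent.Lib.MP_dbb03c_co.Op

/-! # Numerical intervals for the eigenvectors

`lam = 28.39324611898588...`, `mu = 28.385982837011431...`, `ph = (90.18902172..., 6.17642517..., lam, 1)`,
`ps = (-78.45947035..., 5.76402162..., -mu, 1)`, `NN = 1950805.0610...`. -/

set_option autoImplicit false

namespace Pool.Agent.Lib.MP_dbb03c_co

theorem ph0_bd : 90.18902 < ph 0 ∧ ph 0 < 90.18903 := by
  have h1 := lam_lo
  have h2 := lam_hi
  have e : ph 0 = lam ^ 3 - 803 * lam := rfl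
  rw [e]
  constructor
  · have : 0 < (lam - 28.3932461189) * (lam ^ 2 + lam * 28.3932461189 + 28.3932461189 ^ 2 - 803) :=
      mul_pos (by linarith) (by nlinarith)
    nlinarith [this]
  · have : 0 < (28.393246119 - lam) * (lam ^ 2 + lam * 28.393246119 + 28.393246119 ^ 2 - 803) :=
      mul_pos (by linarith) (by nlinarith)
    nlinarith [this]

theorem ph1_bd : 6.1764251 < ph 1 ∧ ph 1 < 6.1764252 := by
  have h1 := lam_lo
  have h2 := lam_hi
  have e : ph 1 = lam ^ 2 - 800 := rfl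
  rw [e]
  constructor
  · nlinarith [mul_pos (sub_pos.mpr h1) lam_pos]
  · nlinarith [mul_pos (sub_pos.mpr h2) lam_pos]

theorem ph2_eq : ph 2 = lam := rfl

theorem ph3_eq : ph 3 = 1 := rfl

theorem ph_pos (i : Fin 4) : 0 < ph i := by
  fin_cases i
  · exact lt_trans (by norm_num) ph0_bd.1
  · exact lt_trans (by norm_num) ph1_bd.1
  · exact lam_pos
  · exact one_pos

theorem ps0_bd : -78.45948 < ps 0 ∧ ps 0 < -78.45947 := by
  have h1 := mu_lo
  have h2 := mu_hi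
  have e : ps 0 = -(mu ^ 3 - 803 * mu) := rfl
  rw [e]
  constructor
  · have : 0 < (28.38598283702 - mu) * (mu ^ 2 + mu * 28.38598283702 + 28.38598283702 ^ 2 - 803) :=
      mul_pos (by linarith) (by nlinarith)
    nlinarith [this]
  · have : 0 < (mu - 28.38598283701) * (mu ^ 2 + mu * 28.38598283701 + 28.38598283701 ^ 2 - 803) :=
      mul_pos (by linarith) (by nlinarith)
    nlinarith [this]

theorem ps1_bd : 5.7640216 < ps 1 ∧ ps 1 < 5.7640217 := by
  have h1 := mu_lo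
  have h2 := mu_hi
  have e : ps 1 = mu ^ 2 - 800 := rfl
  rw [e]
  constructor
  · nlinarith [mul_pos (sub_pos.mpr h1) mu_pos]
  · nlinarith [mul_pos (sub_pos.mpr h2) mu_pos]

theorem ps2_eq : ps 2 = -mu := rfl

theorem ps3_eq : ps 3 = 1 := rfl

theorem NN_bd : 1950805.06 < NN ∧ NN < 1950805.07 := by
  obtain ⟨a1, a2⟩ := ph0_bd
  obtain ⟨b1, b2⟩ := ph1_bd
  have h1 := lam_lo
  have h2 := lam_hi
  have e : NN = ph 0 * ph 0 + 400 * (ph 1 * ph 1) + 1200 * (lam * lam) + 960000 * (1 * 1) := rfl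
  have h0 : (28.3932461189 : ℝ) * 28.3932461189 ≤ lam * lam :=
    mul_le_mul h1.le h1.le (by norm_num) lam_pos.le
  have h0' : lam * lam ≤ (28.393246119 : ℝ) * 28.393246119 :=
    mul_le_mul h2.le h2.le lam_pos.le (by norm_num)
  have k0 : (90.189021 : ℝ) * 90.189021 ≤ ph 0 * ph 0 := by
    have : (90.189021 : ℝ) ≤ ph 0 := by
      have e : ph 0 = lam ^ 3 - 803 * lam := rfl
      rw [e]
      have : 0 < (lam - 28.3932461189) *
          (lam ^ 2 + lam * 28.3932461189 + 28.3932461189 ^ 2 - 803) :=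
        mul_pos (by linarith) (by nlinarith)
      nlinarith [this]
    exact mul_le_mul this this (by norm_num) (by linarith)
  have k0' : ph 0 * ph 0 ≤ (90.18903 : ℝ) * 90.18903 :=
    mul_le_mul a2.le a2.le (by linarith) (by norm_num)
  have k1 : (6.1764251 : ℝ) * 6.1764251 ≤ ph 1 * ph 1 :=
    mul_le_mul b1.le b1.le (by norm_num) (by linarith)
  have k1' : ph 1 * ph 1 ≤ (6.1764252 : ℝ) * 6.1764252 :=
    mul_le_mul b2.le b2.le (by linarith) (by norm_num)
  rw [e]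
  constructor
  · norm_num at h0 k0 k1 ⊢
    linarith
  · norm_num at h0' k0' k1' ⊢
    linarith

theorem NN_pos : 0 < NN := lt_trans (by norm_num) NN_bd.1

/-- `log lam = 3.346151303...` -/
theorem log_lam_bd : 3.34615 < Real.log lam ∧ Real.log lam < 3.346152 := by
  have hl : 0 < lam := lam_pos
  have hx : 0 < lam ^ 29 / 2 ^ 140 := by positivity
  have e : Real.log (lam ^ 29 / 2 ^ 140) = 29 * Real.log lam - 140 * Real.log 2 := by
    rw [Real.log_div (by positivity) (by positivity), Real.log_pow, Real.log_pow]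
    norm_num
  have l1 := Real.log_two_gt_d9
  have l2 := Real.log_two_lt_d9
  have hlo : (0.997784 : ℝ) ≤ lam ^ 29 / 2 ^ 140 := by
    have h : (28.3932461189 : ℝ) ^ 29 ≤ lam ^ 29 :=
      pow_le_pow_left₀ (by norm_num) lam_lo.le 29
    rw [le_div_iff₀ (by positivity)]
    refine le_trans ?_ h
    norm_num
  have hhi : lam ^ 29 / 2 ^ 140 ≤ (0.997786 : ℝ) := by
    have h : lam ^ 29 ≤ (28.393246119 : ℝ) ^ 29 :=
      pow_le_pow_left₀ hl.le lam_hi.le 29
    rw [div_le_iff₀ (by positivity)]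
    refine le_trans h ?_
    norm_num
  constructor
  · have h3 : 1 - (lam ^ 29 / 2 ^ 140)⁻¹ ≤ Real.log (lam ^ 29 / 2 ^ 140) :=
      Real.one_sub_inv_le_log_of_pos hx
    have h4 : (lam ^ 29 / 2 ^ 140)⁻¹ ≤ (0.997784 : ℝ)⁻¹ := inv_anti₀ (by norm_num) hlo
    have h5 : (0.997784 : ℝ)⁻¹ ≤ 1.002221 := by norm_num
    rw [e] at h3
    generalize (lam ^ 29 / 2 ^ 140)⁻¹ = w at h3 h4
    linarith
  · have h3 : Real.log (lam ^ 29 / 2 ^ 140) ≤ lam ^ 29 / 2 ^ 140 - 1 :=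
      Real.log_le_sub_one_of_pos hx
    rw [e] at h3
    generalize lam ^ 29 / 2 ^ 140 = w at h3 hhi
    linarith

/-- `log NN = 14.48375269...` -/
theorem log_NN_bd : 14.48375 < Real.log NN ∧ Real.log NN < 14.48376 := by
  have hl : 0 < NN := NN_pos
  have hx : 0 < NN ^ 48 / ((2 ^ 250) ^ 4 * 2 ^ 3) := by positivity
  have e : Real.log (NN ^ 48 / ((2 ^ 250) ^ 4 * 2 ^ 3)) = 48 * Real.log NN - 1003 * Real.log 2 := by
    rw [Real.log_div (by positivity) (by positivity), Real.log_mul (by positivity) (by positivity),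
      Real.log_pow, Real.log_pow, Real.log_pow, Real.log_pow]
    push_cast
    ring
  have l1 := Real.log_two_gt_d9
  have l2 := Real.log_two_lt_d9
  have hlo : (0.993528 : ℝ) ≤ NN ^ 48 / ((2 ^ 250) ^ 4 * 2 ^ 3) := by
    have h : (1950805.06 : ℝ) ^ 48 ≤ NN ^ 48 :=
      pow_le_pow_left₀ (by norm_num) NN_bd.1.le 48
    rw [le_div_iff₀ (by positivity)]
    refine le_trans ?_ h
    norm_num
  have hhi : NN ^ 48 / ((2 ^ 250) ^ 4 * 2 ^ 3) ≤ (0.993529 : ℝ) := by
    have h : NN ^ 48 ≤ (1950805.07 : ℝ) ^ 48 :=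
      pow_le_pow_left₀ hl.le NN_bd.2.le 48
    rw [div_le_iff₀ (by positivity)]
    refine le_trans h ?_
    norm_num
  constructor
  · have h3 : 1 - (NN ^ 48 / ((2 ^ 250) ^ 4 * 2 ^ 3))⁻¹ ≤ Real.log (NN ^ 48 / ((2 ^ 250) ^ 4 * 2 ^ 3)) :=
      Real.one_sub_inv_le_log_of_pos hx
    have h4 : (NN ^ 48 / ((2 ^ 250) ^ 4 * 2 ^ 3))⁻¹ ≤ (0.993528 : ℝ)⁻¹ := inv_anti₀ (by norm_num) hlo
    have h5 : (0.993528 : ℝ)⁻¹ ≤ 1.006515 := by norm_num
    rw [e] at h3
    generalize (NN ^ 48 / ((2 ^ 250) ^ 4 * 2 ^ 3))⁻¹ = w at h3 h4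
    linarith
  · have h3 : Real.log (NN ^ 48 / ((2 ^ 250) ^ 4 * 2 ^ 3)) ≤ NN ^ 48 / ((2 ^ 250) ^ 4 * 2 ^ 3) - 1 :=
      Real.log_le_sub_one_of_pos hx
    rw [e] at h3
    generalize NN ^ 48 / ((2 ^ 250) ^ 4 * 2 ^ 3) = w at h3 hhi
    linarith

theorem ratio_bd : mu / lam < 0.999745 := by
  rw [div_lt_iff₀ lam_pos]
  have h1 := lam_lo
  have h2 := mu_hi
  nlinarith

end Pool.Agent.Lib.MP_dbb03c_co
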