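import Pool.Agent.Lib.MP_dbb03c_co.NumA

/-! # Elementary certificates

`Bs m a x`: for some number `q ≥ m` of ports and some `k ≡ q (mod 2)` (twice the imbalance) the two
functionals satisfy the two bounds, with total loss `a`. -/

set_option autoImplicit false

namespace Pool.Agent.Lib.MP_dbb03c_co

open Real

/-- elementary certificate -/
def Bs (m : ℕ) (a : ℝ) (x : V4) : Prop :=
  (∀ i, 0 < x i) ∧ ∃ (q : ℕ) (k : ℤ), m ≤ q ∧ Even ((q : ℤ) - k) ∧
    -((k : ℝ) / 2 * 3.327377) + 1.005 * q - a ≤ LC x ∧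
    (k : ℝ) / 2 * 3.327377 + 1.005 * q - a ≤ LB x

theorem Bs_weak {m m' : ℕ} {a a' : ℝ} {x : V4} (h : Bs m a x) (hm : m' ≤ m) (ha : a ≤ a') :
    Bs m' a' x := by
  obtain ⟨hx, q, k, hq, he, h1, h2⟩ := h
  exact ⟨hx, q, k, hm.trans hq, he, by linarith, by linarith⟩

theorem Bs_e1 : Bs 0 0 e1 := by
  refine ⟨fun i => by simp [e1], 0, 0, le_refl _, by simp, ?_, ?_⟩
  · simp [LC, e1]
  · simp [LB, e1]

theorem Bs_mul {m m' : ℕ} {a a' : ℝ} {x y : V4} (h : Bs m a x) (h' : Bs m' a' y) :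
    Bs (m + m') (a + a') (x * y) := by
  obtain ⟨hx, q, k, hq, he, h1, h2⟩ := h
  obtain ⟨hy, q', k', hq', he', h1', h2'⟩ := h'
  refine ⟨fun i => mul_pos (hx i) (hy i), q + q', k + k', add_le_add hq hq', ?_, ?_, ?_⟩
  · have : (((q + q' : ℕ) : ℤ) - (k + k')) = ((q : ℤ) - k) + ((q' : ℤ) - k') := by
      push_cast
      ring
    rw [this]
    exact he.add he'
  · rw [LC_mul hx hy]
    push_cast
    linarith
  · rw [LB_mul hx hy]
    push_cast
    linarith

/-- scaling with `1 - η` costs `-log (1 - η)` -/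
theorem Bs_smul {m : ℕ} {a c b : ℝ} {x : V4} (hc : 0 < c) (hb : -log c ≤ b) (h : Bs m a x) :
    Bs m (a + b) (c • x) := by
  obtain ⟨hx, q, k, hq, he, h1, h2⟩ := h
  refine ⟨fun i => mul_pos hc (hx i), q, k, hq, he, ?_, ?_⟩
  · rw [LC_smul hc hx]
    linarith
  · rw [LB_smul hc hx]
    linarith

/-- planting: `k ↦ 2 - k` (`LC_BB`, `LB_BB`, `num_N1`, `num_N2`) -/
theorem Bs_BB {m : ℕ} {a : ℝ} {x : V4} (h : Bs m a x) : Bs m (a + 0.00015) (BB x) := by
  obtain ⟨hx, q, k, hq, he, h1, h2⟩ := h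
  refine ⟨fun i => BB_pos hx i, q, 2 - k, hq, ?_, ?_, ?_⟩
  · obtain ⟨r, hr⟩ := he
    exact ⟨r + k - 1, by linarith⟩
  · have a1 := LC_BB hx
    have a2 := num_N1
    push_cast
    linarith
  · have a1 := LB_BB hx
    have a2 := num_N2
    push_cast
    linarith

/-- a planted leaf (`q = 0`, `k = 2`) -/
theorem Bs_leaf : Bs 0 (-0.0019) (BB e1) := by
  have he : ∀ i, (0 : ℝ) < e1 i := fun i => by simp [e1]
  have b0 : BB e1 0 = 401 / lam := by
    show ((1 : ℝ) + 400 * 1) / lam = 401 / lam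
    norm_num
  have b1 : BB e1 1 = 4 / lam := by
    show ((1 : ℝ) + 3 * 1) / lam = 4 / lam
    norm_num
  have b2 : BB e1 2 = 801 / lam := by
    show ((1 : ℝ) + 800 * 1) / lam = 801 / lam
    norm_num
  have b3 : BB e1 3 = 1 / lam := rfl
  refine ⟨fun i => BB_pos he i, 0, 2, le_refl _, by decide, ?_, ?_⟩
  · have := num_leafC
    unfold LC
    rw [b1, b3]
    push_cast
    linarith
  · have := num_leafB
    unfold LB
    rw [b0, b2]
    push_cast
    linarith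

end Pool.Agent.Lib.MP_dbb03c_co
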