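import Pool.Agent.Lib.MP_dbb03c_co.Jen

/-! # Sums of two exponentials -/

set_option autoImplicit false

namespace Pool.Agent.Lib.MP_dbb03c_co

open Real

/-- numerical upper bound for `exp (n + f)` -/
private theorem exp_ub (n : ℕ) (f : ℝ) (h0 : 0 ≤ f) (h1 : f ≤ 1) :
    exp ((n : ℝ) + f) ≤ 2.7182818286 ^ n *
      (1 + f + f ^ 2 / 2 + f ^ 3 / 6 + f ^ 4 / 24 + f ^ 5 / 100) := by
  have h := Real.exp_bound' h0 h1 (n := 5) (by norm_num)
  have h2 : exp f ≤ 1 + f + f ^ 2 / 2 + f ^ 3 / 6 + f ^ 4 / 24 + f ^ 5 / 100 := by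
    refine h.trans (le_of_eq ?_)
    simp [Finset.sum_range_succ, Nat.factorial]
    ring
  have h3 : exp (n : ℝ) ≤ 2.7182818286 ^ n := by
    have : exp (n : ℝ) = exp 1 ^ n := by rw [← Real.exp_nat_mul]; simp
    rw [this]
    exact pow_le_pow_left₀ (exp_pos 1).le Real.exp_one_lt_d9.le n
  rw [Real.exp_add]
  exact mul_le_mul h3 h2 (exp_pos f).le (by positivity)

/-- `exp a ≤ exp b + exp c` when `a - b ≤ d`, `b - c ≤ e` and `exp d ≤ 1 + exp (-e)` -/
private theorem two_ge {a b c d e : ℝ} (h1 : a - b ≤ d) (h2 : b - c ≤ e)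
    (h3 : exp d ≤ 1 + exp (-e)) : exp a ≤ exp b + exp c := by
  have e1 : exp a = exp b * exp (a - b) := by rw [← exp_add]; congr 1; ring
  have e2 : exp c = exp b * exp (-(b - c)) := by rw [← exp_add]; congr 1; ring
  rw [e1, e2]
  have hb := exp_pos b
  have h4 : exp (a - b) ≤ exp d := exp_le_exp.2 h1
  have h5 : exp (-e) ≤ exp (-(b - c)) := exp_le_exp.2 (by linarith)
  nlinarith [mul_le_mul_of_nonneg_left (h4.trans (h3.trans (add_le_add_right h5 1))) hb.le]

/-- the numerical inequality behind the two-term cases -/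
private theorem num_a : exp (0.0352 : ℝ) ≤ 1 + exp (-3.3275) := by
  have h1 := exp_ub 0 0.0352 (by norm_num) (by norm_num)
  have h2 := exp_ub 3 0.3275 (by norm_num) (by norm_num)
  have h3 : exp (3.3275 : ℝ) ≤ 27.87 := by
    have e : ((3 : ℕ) : ℝ) + 0.3275 = 3.3275 := by norm_num
    rw [e] at h2
    exact h2.trans (by norm_num)
  have h4 : (1 : ℝ) / 27.87 ≤ exp (-3.3275) := by
    rw [Real.exp_neg, ← one_div]
    exact one_div_le_one_div_of_le (exp_pos _) h3
  have h5 : exp (0.0352 : ℝ) ≤ 1.035828 := by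
    have e : ((0 : ℕ) : ℝ) + 0.0352 = 0.0352 := by norm_num
    rw [e] at h1
    exact h1.trans (by norm_num)
  have h6 : (1.035828 : ℝ) ≤ 1 + 1 / 27.87 := by norm_num
  linarith

/-- midpoint: `exp a ≤ exp b + exp c` when `a ≤ (b + c)/2 + 0.6931` -/
private theorem mid_ge {a b c : ℝ} (h : a ≤ (b + c) / 2 + 0.6931471803) :
    exp a ≤ exp b + exp c := by
  have h2 : a ≤ (b + c) / 2 + log 2 := by linarith [Real.log_two_gt_d9]
  have h3 : exp a ≤ 2 * exp ((b + c) / 2) := by
    refine (exp_le_exp.2 h2).trans (le_of_eq ?_)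
    rw [exp_add, exp_log (by norm_num)]; ring
  have hb : exp b = exp (b / 2) ^ 2 := by rw [sq, ← exp_add]; congr 1; ring
  have hc : exp c = exp (c / 2) ^ 2 := by rw [sq, ← exp_add]; congr 1; ring
  have hm : exp ((b + c) / 2) = exp (b / 2) * exp (c / 2) := by rw [← exp_add]; congr 1; ring
  rw [hm] at h3
  rw [hb, hc]
  nlinarith [sq_nonneg (exp (b / 2) - exp (c / 2))]

private theorem left_ge {a b c : ℝ} (h : a ≤ b) : exp a ≤ exp b + exp c := by
  linarith [exp_le_exp.2 h, exp_pos c]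

private theorem right_ge {a b c : ℝ} (h : a ≤ c) : exp a ≤ exp b + exp c := by
  linarith [exp_le_exp.2 h, exp_pos b]

/-- the two-exponential bound, even case: for `k = 0` and `k = 2` the sum is at least `exp 13.79835`
(`log (1 + e^(-3.3274)) > 0.0352`), for the other `k` one term alone suffices -/
theorem two_exp_even (k : ℤ) (hk : Even k) : exp 13.7983 ≤
    exp (13.7631 - (k : ℝ) / 2 * 3.327377) + exp (10.4358 + (k : ℝ) / 2 * 3.327377) := by
  obtain ⟨j, rfl⟩ := hk
  push_cast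
  rcases lt_trichotomy j 0 with hj | hj | hj
  · have : (j : ℝ) ≤ -1 := by exact_mod_cast (by omega : j ≤ -1)
    exact left_ge (by linarith)
  · subst hj
    refine two_ge (d := 0.0352) (e := 3.3275) ?_ ?_ num_a <;> norm_num
  · rcases eq_or_lt_of_le (show (1 : ℤ) ≤ j by omega) with h1 | h1
    · rw [← h1, add_comm (exp _)]
      refine two_ge (d := 0.0352) (e := 3.3275) ?_ ?_ num_a <;> norm_num
    · have : (2 : ℝ) ≤ j := by exact_mod_cast (by omega : 2 ≤ j)
      exact right_ge (by linarith)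

/-- odd case: the minimum is at `k = 1`: `exp 12.09941 + exp 12.09948`, `log 2 = 0.693147` -/
theorem two_exp_odd (k : ℤ) (hk : Odd k) : exp 12.7925 ≤
    exp (13.7631 - (k : ℝ) / 2 * 3.327377) + exp (10.4358 + (k : ℝ) / 2 * 3.327377) := by
  obtain ⟨j, rfl⟩ := hk
  push_cast
  rcases lt_trichotomy j 0 with hj | hj | hj
  · have : (j : ℝ) ≤ -1 := by exact_mod_cast (by omega : j ≤ -1)
    exact left_ge (by linarith)
  · subst hj
    exact mid_ge (by norm_num)
  · have : (1 : ℝ) ≤ j := by exact_mod_cast (by omega : 1 ≤ j)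
    exact right_ge (by linarith)

theorem two_exp_fin_even (k : ℤ) (hk : Even k) : exp 11.101 ≤
    exp (13.7358 - (k : ℝ) / 2 * 3.327377) + exp (7.081 + (k : ℝ) / 2 * 3.327377) := by
  obtain ⟨j, rfl⟩ := hk
  push_cast
  rcases le_or_gt j 0 with hj | hj
  · have : (j : ℝ) ≤ 0 := by exact_mod_cast hj
    exact left_ge (by linarith)
  · rcases eq_or_lt_of_le (show (1 : ℤ) ≤ j by omega) with h1 | h1
    · rw [← h1]
      exact mid_ge (by norm_num)
    · have : (2 : ℝ) ≤ j := by exact_mod_cast (by omega : 2 ≤ j)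
      exact right_ge (by linarith)

theorem two_exp_fin_odd (k : ℤ) (hk : Odd k) : exp 12.107 ≤
    exp (13.7358 - (k : ℝ) / 2 * 3.327377) + exp (7.081 + (k : ℝ) / 2 * 3.327377) := by
  obtain ⟨j, rfl⟩ := hk
  push_cast
  rcases lt_trichotomy j 0 with hj | hj | hj
  · have : (j : ℝ) ≤ -1 := by exact_mod_cast (by omega : j ≤ -1)
    exact left_ge (by linarith)
  · subst hj
    refine two_ge (d := 0.0352) (e := 3.3275) ?_ ?_ num_a <;> norm_num
  · rcases eq_or_lt_of_le (show (1 : ℤ) ≤ j by omega) with h1 | h1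
    · rw [← h1, add_comm (exp _)]
      refine two_ge (d := 0.0352) (e := 3.3275) ?_ ?_ num_a <;> norm_num
    · have : (2 : ℝ) ≤ j := by exact_mod_cast (by omega : 2 ≤ j)
      exact right_ge (by linarith)

end Pool.Agent.Lib.MP_dbb03c_co
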