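import Pool.Agent.Lib.MP_dbb03c_co.Jen

/-! # Numerical facts, part B: the cut

`kC = 13.763133807`, `kB = 10.435888933`, `LC ph = 0.027311094`, `LB ph = 3.354819477`. -/

set_option autoImplicit false

namespace Pool.Agent.Lib.MP_dbb03c_co

open Real

noncomputable def kC : ℝ := 0.015 * log (400 * ph 1 / 0.015) + 0.985 * log (960000 * 1 / 0.985)

noncomputable def kB : ℝ := 0.0075 * log (ph 0 / 0.0075) + 0.9925 * log (1200 * lam / 0.9925)

/-- `log b + 2 t / (2 + t) ≤ log a`, `t = a / b - 1` -/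
private theorem log_step {a b t : ℝ} (hb : 0 < b) (ht : 0 ≤ t) (h : b * (1 + t) ≤ a) :
    log b + 2 * t / (t + 2) ≤ log a := by
  have h1 := Real.le_log_one_add_of_nonneg ht
  have h2 : log (b * (1 + t)) = log b + log (1 + t) := Real.log_mul hb.ne' (by linarith)
  have h3 : log (b * (1 + t)) ≤ log a := Real.log_le_log (by positivity) h
  linarith

private theorem log3_ge : 1.098612 ≤ log 3 := by
  have h := log_step (a := 3 ^ 12) (b := 2 ^ 19) (t := 0.01364326) (by norm_num) (by norm_num)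
    (by norm_num)
  rw [Real.log_pow, Real.log_pow] at h
  have h2 := Real.log_two_gt_d9
  norm_num at h h2 ⊢
  linarith

private theorem log5_ge : 1.609437 ≤ log 5 := by
  have h := log_step (a := 5 ^ 28) (b := 2 ^ 65) (t := 0.0097419) (by norm_num) (by norm_num)
    (by norm_num)
  rw [Real.log_pow, Real.log_pow] at h
  have h2 := Real.log_two_gt_d9
  norm_num at h h2 ⊢
  linarith

private theorem log2_ge : 0.6931471803 ≤ log 2 := Real.log_two_gt_d9.le

/-- `log (2 ^ a * 3 ^ b * 5 ^ c)` -/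
private theorem log_smooth (a b c : ℕ) :
    log (2 ^ a * 3 ^ b * 5 ^ c) = a * log 2 + b * log 3 + c * log 5 := by
  rw [Real.log_mul (by positivity) (by positivity), Real.log_mul (by positivity) (by positivity),
    Real.log_pow, Real.log_pow, Real.log_pow]

theorem kC_ge : 13.7631 ≤ kC := by
  have hb := ph1_bd.1
  have h1 := log_step (a := 400 * ph 1 / 0.015) (b := 2 ^ 15 * 3 ^ 0 * 5 ^ 1) (t := 0.0052775)
    (by norm_num) (by norm_num) (by norm_num; linarith)
  have h2 := log_step (a := 960000 * 1 / 0.985) (b := 2 ^ 9 * 3 ^ 1 * 5 ^ 4) (t := 0.015228)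
    (by norm_num) (by norm_num) (by norm_num)
  rw [log_smooth] at h1 h2
  have l2 := log2_ge
  have l3 := log3_ge
  have l5 := log5_ge
  unfold kC
  norm_num at h1 h2 l2 l3 l5 ⊢
  linarith

theorem kB_ge : 10.4358 ≤ kB := by
  have hb := ph0_bd.1
  have hl := log_lam_bd.1
  have h1 := log_step (a := ph 0 / 0.0075) (b := 2 ^ 5 * 3 ^ 1 * 5 ^ 3) (t := 0.0021)
    (by norm_num) (by norm_num) (by norm_num; linarith)
  have h2 := log_step (a := 1200 / 0.9925) (b := 2 ^ 4 * 3 ^ 1 * 5 ^ 2) (t := 0.007556)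
    (by norm_num) (by norm_num) (by norm_num)
  have e : log (1200 * lam / 0.9925) = log (1200 / 0.9925) + log lam := by
    rw [← Real.log_mul (by norm_num) lam_pos.ne']
    congr 1
    ring
  rw [log_smooth] at h1 h2
  have l2 := log2_ge
  have l3 := log3_ge
  have l5 := log5_ge
  unfold kB
  rw [e]
  norm_num at h1 h2 l2 l3 l5 hl ⊢
  linarith

theorem LC_ph_ge : 0.0273 ≤ LC ph := by
  have hb := ph1_bd.1
  have h1 := log_step (a := ph 1) (b := 2 ^ 1 * 3 ^ 1 * 5 ^ 0) (t := 0.0294)
    (by norm_num) (by norm_num) (by norm_num; linarith)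
  rw [log_smooth] at h1
  have l2 := log2_ge
  have l3 := log3_ge
  unfold LC
  rw [ph3_eq, Real.log_one]
  norm_num at h1 l2 l3 ⊢
  linarith

theorem LB_ph_ge : 3.3548 ≤ LB ph := by
  have hb := ph0_bd.1
  have hl := log_lam_bd.1
  have h1 := log_step (a := ph 0) (b := 2 ^ 1 * 3 ^ 2 * 5 ^ 1) (t := 0.0021)
    (by norm_num) (by norm_num) (by norm_num; linarith)
  rw [log_smooth] at h1
  have l2 := log2_ge
  have l3 := log3_ge
  have l5 := log5_ge
  unfold LB
  rw [ph2_eq]
  norm_num at h1 l2 l3 l5 hl ⊢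
  linarith

end Pool.Agent.Lib.MP_dbb03c_co
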