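import Pool.Agent.Lib.MP_dbb03c_co.Bs1
import Pool.Agent.Lib.MP_dbb03c_co.NumB
import Pool.Agent.Lib.MP_dbb03c_co.Exp2

/-! # Elementary certificates: the cut

`log (ip ph x / NN) ≥ log (exp (kC + LC x) + exp (kB + LB x)) - log NN`. -/

set_option autoImplicit false

namespace Pool.Agent.Lib.MP_dbb03c_co

open Real

private theorem Phi_pos' {x : V4} (hx : ∀ i, 0 < x i) : ∀ i, 0 < Phi x i := by
  intro i
  have h : 0 < ip ph x := by
    unfold ip
    have h0 := mul_pos (ph_pos 0) (hx 0)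
    have h1 := mul_pos (ph_pos 1) (hx 1)
    have h2 := mul_pos (ph_pos 2) (hx 2)
    have h3 := mul_pos (ph_pos 3) (hx 3)
    positivity
  exact mul_pos (div_pos h NN_pos) (ph_pos i)

/-- `ip ph x` is at least the sum of its two phases (`ipC_ge`, `ipB_ge` with the coefficients of `ph`) -/
theorem ip_ph_ge {x : V4} (hx : ∀ i, 0 < x i) :
    exp (kC + LC x) + exp (kB + LB x) ≤ ip ph x := by
  have h1 : 0 < ph 1 := ph_pos 1
  have h0 : 0 < ph 0 := ph_pos 0
  have hC := ipC_ge (A := ph 1) (B := 1) h1 one_pos hx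
  have hB := ipB_ge (A := ph 0) (B := lam) h0 lam_pos hx
  have e2 : ph 2 = lam := rfl
  have e3 : ph 3 = 1 := rfl
  have pC : 0 < 400 * (ph 1 * x 1) + 960000 * (1 * x 3) := by
    have := hx 1
    have := hx 3
    positivity
  have pB : 0 < ph 0 * x 0 + 1200 * (lam * x 2) := by
    have := hx 0
    have := hx 2
    have := lam_pos
    positivity
  have gC : exp (kC + LC x) ≤ 400 * (ph 1 * x 1) + 960000 * (1 * x 3) := by
    rw [← Real.le_log_iff_exp_le pC]
    exact hC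
  have gB : exp (kB + LB x) ≤ ph 0 * x 0 + 1200 * (lam * x 2) := by
    rw [← Real.le_log_iff_exp_le pB]
    exact hB
  unfold ip
  rw [e2, e3]
  linarith

private theorem ip_ph_pos {x : V4} (hx : ∀ i, 0 < x i) : 0 < ip ph x :=
  lt_of_lt_of_le (add_pos (exp_pos _) (exp_pos _)) (ip_ph_ge hx)

private theorem log_ip_ge {x : V4} (hx : ∀ i, 0 < x i) {q : ℕ} {k : ℤ} {a c : ℝ}
    (hc : exp c ≤ exp (13.7631 - (k : ℝ) / 2 * 3.327377) + exp (10.4358 + (k : ℝ) / 2 * 3.327377))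
    (h1 : -((k : ℝ) / 2 * 3.327377) + 1.005 * q - a ≤ LC x)
    (h2 : (k : ℝ) / 2 * 3.327377 + 1.005 * q - a ≤ LB x) :
    c + (1.005 * q - a) ≤ log (ip ph x) := by
  rw [Real.le_log_iff_exp_le (ip_ph_pos hx)]
  refine le_trans ?_ (ip_ph_ge hx)
  have e1 : exp (13.7631 - (k : ℝ) / 2 * 3.327377) * exp (1.005 * q - a) ≤ exp (kC + LC x) := by
    rw [← exp_add]
    apply exp_le_exp.mpr
    have := kC_ge
    linarith
  have e2 : exp (10.4358 + (k : ℝ) / 2 * 3.327377) * exp (1.005 * q - a) ≤ exp (kB + LB x) := by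
    rw [← exp_add]
    apply exp_le_exp.mpr
    have := kB_ge
    linarith
  have e3 := mul_le_mul_of_nonneg_right hc (exp_pos (1.005 * (q : ℝ) - a)).le
  rw [exp_add]
  rw [add_mul] at e3
  linarith

private theorem LC_Phi_ge {x : V4} (hx : ∀ i, 0 < x i) {t : ℝ} (h : t ≤ log (ip ph x)) :
    t - 14.48376 + 0.0273 ≤ LC (Phi x) := by
  unfold Phi
  rw [LC_smul (div_pos (ip_ph_pos hx) NN_pos) ph_pos,
    Real.log_div (ip_ph_pos hx).ne' NN_pos.ne']
  have := log_NN_bd.2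
  have := LC_ph_ge
  linarith

private theorem LB_Phi_ge {x : V4} (hx : ∀ i, 0 < x i) {t : ℝ} (h : t ≤ log (ip ph x)) :
    t - 14.48376 + 3.3548 ≤ LB (Phi x) := by
  unfold Phi
  rw [LB_smul (div_pos (ip_ph_pos hx) NN_pos) ph_pos,
    Real.log_div (ip_ph_pos hx).ne' NN_pos.ne']
  have := log_NN_bd.2
  have := LB_ph_ge
  linarith

/-- the cut, `q` even: one more port, `k ↦ 1`, no loss -/
theorem Bs_cut_even {m : ℕ} {a : ℝ} {x : V4} (hx : ∀ i, 0 < x i) {q : ℕ} {k : ℤ} (hm : m ≤ q)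
    (hq : Even q) (hk : Even ((q : ℤ) - k))
    (h1 : -((k : ℝ) / 2 * 3.327377) + 1.005 * q - a ≤ LC x)
    (h2 : (k : ℝ) / 2 * 3.327377 + 1.005 * q - a ≤ LB x) : Bs (m + 1) a (Phi x) := by
  have hq' : Even (q : ℤ) := by exact_mod_cast hq
  have hk' : Even k := by
    have := hq'.sub hk
    simpa using this
  have key := log_ip_ge hx (c := 13.7983) (two_exp_even k hk') h1 h2
  refine ⟨Phi_pos' hx, q + 1, 1, by omega, ?_, ?_, ?_⟩
  · have : ((q + 1 : ℕ) : ℤ) - 1 = (q : ℤ) := by push_cast; ring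
    rw [this]
    exact hq'
  · have hA := LC_Phi_ge hx key
    push_cast
    linarith
  · have hA := LB_Phi_ge hx key
    push_cast
    linarith

/-- the cut, `q` odd: `q` is kept, `k ↦ 1`, loss `0.0005` -/
theorem Bs_cut_odd {m : ℕ} {a : ℝ} {x : V4} (hx : ∀ i, 0 < x i) {q : ℕ} {k : ℤ} (hm : m ≤ q)
    (hq : Odd q) (hk : Even ((q : ℤ) - k))
    (h1 : -((k : ℝ) / 2 * 3.327377) + 1.005 * q - a ≤ LC x)
    (h2 : (k : ℝ) / 2 * 3.327377 + 1.005 * q - a ≤ LB x) : Bs m (a + 0.0005) (Phi x) := by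
  have hq' : Odd (q : ℤ) := by exact_mod_cast hq
  have hk' : Odd k := by
    have := hq'.sub_even hk
    simpa using this
  have key := log_ip_ge hx (c := 12.7925) (two_exp_odd k hk') h1 h2
  refine ⟨Phi_pos' hx, q, 1, hm, ?_, ?_, ?_⟩
  · exact hq'.sub_odd odd_one
  · have hA := LC_Phi_ge hx key
    push_cast
    linarith
  · have hA := LB_Phi_ge hx key
    push_cast
    linarith

theorem Bs_cut {m : ℕ} {a : ℝ} {x : V4} (h : Bs m a x) : Bs m (a + 0.0005) (Phi x) := by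
  obtain ⟨hx, q, k, hm, hk, h1, h2⟩ := h
  rcases Nat.even_or_odd q with hq | hq
  · exact Bs_weak (Bs_cut_even hx hm hq hk h1 h2) (by omega) (by linarith)
  · exact Bs_cut_odd hx hm hq hk h1 h2

/-- for even `m` the cut adds a port (if `q` is odd then `m < q`) -/
theorem Bs_cut' {m : ℕ} {a : ℝ} {x : V4} (hm : Even m) (h : Bs m a x) :
    Bs (m + 1) (a + 0.0005) (Phi x) := by
  obtain ⟨hx, q, k, hmq, hk, h1, h2⟩ := h
  rcases Nat.even_or_odd q with hq | hq
  · exact Bs_weak (Bs_cut_even hx hmq hq hk h1 h2) le_rfl (by linarith)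
  · refine Bs_cut_odd hx ?_ hq hk h1 h2
    have hne : m ≠ q := by
      rintro rfl
      exact (Nat.not_even_iff_odd.mpr hq) hm
    omega

end Pool.Agent.Lib.MP_dbb03c_co
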