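import Pool.Agent.Lib.MP_dbb03c_co.Jen

/-! # Numerical facts, part C: the phase cut

`u = ph + ps = (11.729551, 11.940446, 0.0072632, 2)`, `v = ph - ps = (168.648492, 0.4124035, 56.779228, 0)`,
`u 1 ∈ (11.9404467, 11.9404469)`, `v 0 ∈ (168.64849, 168.64851)`, `v 2 = lam + mu`.
`kCu = 13.76313..+..`: the four left sides are `-0.00117927`, `-0.00115958`, `-3.32854605`, `3.32620719`. -/

set_option autoImplicit false

namespace Pool.Agent.Lib.MP_dbb03c_co

open Real

noncomputable def kCu : ℝ :=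
  0.015 * log (400 * (ph 1 + ps 1) / 0.015) + 0.985 * log (960000 * 2 / 0.985)

noncomputable def kBv : ℝ :=
  0.0075 * log ((ph 0 - ps 0) / 0.0075) + 0.9925 * log (1200 * (lam + mu) / 0.9925)

noncomputable def lCu : ℝ := 0.015 * log (ph 1 + ps 1) + 0.985 * log 2

noncomputable def lBv : ℝ := 0.0075 * log (ph 0 - ps 0) + 0.9925 * log (lam + mu)

private theorem exp_ub (n : ℕ) (f : ℝ) (h0 : 0 ≤ f) (h1 : f ≤ 1) :
    exp ((n : ℝ) + f) ≤ 2.7182818286 ^ n *
      (1 + f + f ^ 2 / 2 + f ^ 3 / 6 + f ^ 4 / 24 + f ^ 5 / 100) := by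
  have h := Real.exp_bound' h0 h1 (n := 5) (by norm_num)
  have h2 : exp f ≤ 1 + f + f ^ 2 / 2 + f ^ 3 / 6 + f ^ 4 / 24 + f ^ 5 / 100 := by
    refine h.trans (le_of_eq ?_)
    simp [Finset.sum_range_succ, Nat.factorial]
    ring
  have h3 : exp (n : ℝ) ≤ 2.7182818286 ^ n := by
    have : exp (n : ℝ) = exp 1 ^ n := by rw [← Real.exp_nat_mul]; simp
    rw [this]
    exact pow_le_pow_left₀ (exp_pos 1).le Real.exp_one_lt_d9.le n
  rw [Real.exp_add]
  exact mul_le_mul h3 h2 (exp_pos f).le (by positivity)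

/-- numerical lower bound for a logarithm -/
private theorem log_lb (n : ℕ) (f c x : ℝ) (h0 : 0 ≤ f) (h1 : f ≤ 1) (hc : c = (n : ℝ) + f)
    (hx : 2.7182818286 ^ n * (1 + f + f ^ 2 / 2 + f ^ 3 / 6 + f ^ 4 / 24 + f ^ 5 / 100) ≤ x) :
    c ≤ log x := by
  have h := exp_ub n f h0 h1
  rw [← hc] at h
  have h2 := h.trans hx
  have hx0 : 0 < x := lt_of_lt_of_le (exp_pos c) h2
  exact (Real.le_log_iff_exp_le hx0).2 h2

private theorem u_lo : 11.9404466 < ph 1 + ps 1 := by
  have h1 := ph1_bd.1
  have h2 := ps1_bd.1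
  linarith

private theorem v0_lo : 168.64849 < ph 0 - ps 0 := by
  have h1 := ph0_bd.1
  have h2 := ps0_bd.2
  linarith

private theorem v2_lo : 56.779228 < lam + mu := by
  have h1 := lam_lo
  have h2 := mu_lo
  linarith

private theorem log_u : (2.4799 : ℝ) ≤ log (ph 1 + ps 1) :=
  log_lb 2 0.4799 _ _ (by norm_num) (by norm_num) (by norm_num)
    (le_trans (by norm_num) u_lo.le)

private theorem log_v0 : (5.1278 : ℝ) ≤ log (ph 0 - ps 0) :=
  log_lb 5 0.1278 _ _ (by norm_num) (by norm_num) (by norm_num)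
    (le_trans (by norm_num) v0_lo.le)

private theorem log_v2 : (4.03915 : ℝ) ≤ log (lam + mu) :=
  log_lb 4 0.03915 _ _ (by norm_num) (by norm_num) (by norm_num)
    (le_trans (by norm_num) v2_lo.le)

/-- `1 - 1/t ≤ log t`, in the form used here -/
private theorem log_ge_sub {t r : ℝ} (ht : 0 < t) (h : 1 ≤ r * t) : 1 - r ≤ log t := by
  have h1 := Real.one_sub_inv_le_log_of_pos ht
  have h2 : t⁻¹ ≤ r := by
    rw [inv_eq_one_div, div_le_iff₀ ht]
    exact h
  linarith

/-- `log (1920000 / 0.985) - log NN ≥ -0.00081` -/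
private theorem log_c : -0.00081 ≤ log (960000 * 2 / 0.985) - log NN := by
  have hN := NN_bd.2
  have hN0 := NN_pos
  rw [← Real.log_div (by norm_num) hN0.ne']
  have h := log_ge_sub (t := 960000 * 2 / 0.985 / NN) (r := 1.00081) (by positivity) (by
    rw [mul_div_assoc', le_div_iff₀ hN0]
    norm_num
    linarith)
  linarith

theorem num_EC : -0.0013 ≤ kCu + lCu - log (2 * NN) := by
  unfold kCu lCu
  have hu := u_lo
  have hN := NN_bd.2
  have hN0 := NN_pos
  have hu0 : 0 < ph 1 + ps 1 := lt_trans (by norm_num) hu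
  have e1 : log (400 * (ph 1 + ps 1) / 0.015) = log (ph 1 + ps 1) + log (80000 / 3) := by
    rw [← Real.log_mul hu0.ne' (by norm_num)]
    congr 1
    ring
  have e2 : log (2 * NN) = log 2 + log NN := Real.log_mul (by norm_num) hN0.ne'
  have h1 := log_c
  have h2 : -0.0263 ≤ 2 * log (ph 1 + ps 1) + log (80000 / 3) - log 2 - log NN := by
    have e3 : 2 * log (ph 1 + ps 1) + log (80000 / 3) - log 2 - log NN =
        log ((ph 1 + ps 1) ^ 2 * (80000 / 3) / (2 * NN)) := by
      have a1 : log ((ph 1 + ps 1) ^ 2 * (80000 / 3) / (2 * NN)) =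
          log ((ph 1 + ps 1) ^ 2 * (80000 / 3)) - log (2 * NN) :=
        Real.log_div (by positivity) (by positivity)
      have a2 : log ((ph 1 + ps 1) ^ 2 * (80000 / 3)) =
          log ((ph 1 + ps 1) ^ 2) + log (80000 / 3) :=
        Real.log_mul (by positivity) (by norm_num)
      rw [a1, a2, Real.log_pow, e2]
      push_cast
      ring
    rw [e3]
    have h := log_ge_sub (t := (ph 1 + ps 1) ^ 2 * (80000 / 3) / (2 * NN)) (r := 1.0263)
      (by positivity) (by
        rw [mul_div_assoc', le_div_iff₀ (by positivity)]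
        have h3 : (11.9404466 : ℝ) ^ 2 ≤ (ph 1 + ps 1) ^ 2 :=
          pow_le_pow_left₀ (by norm_num) hu.le 2
        norm_num at h3 ⊢
        linarith)
    linarith
  rw [e1, e2]
  linarith

theorem num_EB : -0.0013 ≤ kBv + lBv - log (2 * NN) := by
  unfold kBv lBv
  have h0 := v0_lo
  have h2 := v2_lo
  have hN := NN_bd.2
  have hN0 := NN_pos
  generalize ph 0 - ps 0 = v at *
  generalize lam + mu = w at *
  have hv : 0 < v := lt_trans (by norm_num) h0
  have hw : 0 < w := lt_trans (by norm_num) h2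
  have e2 : log (2 * NN) = log 2 + log NN := Real.log_mul (by norm_num) hN0.ne'
  have e3 : log (v / 0.0075) + log v - log (2 * NN) = log (v ^ 2 / 0.0075 / (2 * NN)) := by
    have a1 : log (v ^ 2 / 0.0075 / (2 * NN)) = log (v ^ 2 / 0.0075) - log (2 * NN) :=
      Real.log_div (by positivity) (by positivity)
    have a2 : log (v ^ 2 / 0.0075) = log (v ^ 2) - log 0.0075 :=
      Real.log_div (by positivity) (by norm_num)
    have a3 : log (v / 0.0075) = log v - log 0.0075 :=
      Real.log_div (by positivity) (by norm_num)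
    rw [a1, a2, a3, Real.log_pow]
    push_cast
    ring
  have e4 : log (1200 * w / 0.9925) + log w - log (2 * NN) =
      log (1200 * w ^ 2 / 0.9925 / (2 * NN)) := by
    have a1 : log (1200 * w ^ 2 / 0.9925 / (2 * NN)) =
        log (1200 * w ^ 2 / 0.9925) - log (2 * NN) :=
      Real.log_div (by positivity) (by positivity)
    have a2 : log (1200 * w ^ 2 / 0.9925) = log (1200 * w ^ 2) - log 0.9925 :=
      Real.log_div (by positivity) (by norm_num)
    have a3 : log (1200 * w / 0.9925) = log (1200 * w) - log 0.9925 :=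
      Real.log_div (by positivity) (by norm_num)
    have a4 : log (1200 * w ^ 2) = log 1200 + log (w ^ 2) :=
      Real.log_mul (by norm_num) (by positivity)
    have a5 : log (1200 * w) = log 1200 + log w :=
      Real.log_mul (by norm_num) (by positivity)
    rw [a1, a2, a3, a4, a5, Real.log_pow]
    push_cast
    ring
  have h3 : (168.64849 : ℝ) ^ 2 ≤ v ^ 2 := pow_le_pow_left₀ (by norm_num) h0.le 2
  have h4 : (56.779228 : ℝ) ^ 2 ≤ w ^ 2 := pow_le_pow_left₀ (by norm_num) h2.le 2
  have k1 := log_ge_sub (t := v ^ 2 / 0.0075 / (2 * NN)) (r := 1.0289) (by positivity) (by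
    rw [mul_div_assoc', le_div_iff₀ (by positivity)]
    norm_num at h3 ⊢
    linarith)
  have k2 := log_ge_sub (t := 1200 * w ^ 2 / 0.9925 / (2 * NN)) (r := 1.00096) (by positivity) (by
    rw [mul_div_assoc', le_div_iff₀ (by positivity)]
    norm_num at h4 ⊢
    linarith)
  rw [← e3] at k1
  rw [← e4] at k2
  linarith

theorem num_OC : -3.327377 - 0.0013 ≤ kBv + lCu - log (2 * NN) := by
  unfold kBv lCu
  have h0 := v0_lo
  have h2 := v2_lo
  have hN0 := NN_pos
  have e2 : log (2 * NN) = log 2 + log NN := Real.log_mul (by norm_num) hN0.ne'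
  have h1 : (10.0206 : ℝ) ≤ log ((ph 0 - ps 0) / 0.0075) :=
    log_lb 10 0.0206 _ _ (by norm_num) (by norm_num) (by norm_num) (by
      rw [le_div_iff₀ (by norm_num)]
      exact le_trans (by norm_num) h0.le)
  have h3 : (11.13675 : ℝ) ≤ log (1200 * (lam + mu) / 0.9925) :=
    log_lb 11 0.13675 _ _ (by norm_num) (by norm_num) (by norm_num) (by
      rw [le_div_iff₀ (by norm_num)]
      have : 1200 * (56.779228 : ℝ) ≤ 1200 * (lam + mu) := by linarith
      exact le_trans (by norm_num) this)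
  have h4 := log_u
  have h5 := Real.log_two_lt_d9
  have h6 := log_NN_bd.2
  rw [e2]
  linarith

theorem num_OB : 3.327377 - 0.0013 ≤ kCu + lBv - log (2 * NN) := by
  unfold kCu lBv
  have hN0 := NN_pos
  have e2 : log (2 * NN) = log 2 + log NN := Real.log_mul (by norm_num) hN0.ne'
  have h1 : (12.6710 : ℝ) ≤ log (400 * (ph 1 + ps 1) / 0.015) :=
    log_lb 12 0.6710 _ _ (by norm_num) (by norm_num) (by norm_num) (by
      rw [le_div_iff₀ (by norm_num)]
      have : 400 * (11.9404466 : ℝ) ≤ 400 * (ph 1 + ps 1) := by linarith [u_lo]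
      exact le_trans (by norm_num) this)
  have h2 := log_c
  have h3 := log_v0
  have h4 := log_v2
  have h5 := Real.log_two_lt_d9
  have h6 := log_NN_bd.2
  rw [e2]
  linarith

end Pool.Agent.Lib.MP_dbb03c_co
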