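import Pool.Agent.Lib.MP_dbb03c_co.Bs1
import Pool.Agent.Lib.MP_dbb03c_co.NumC

/-! # Elementary certificates: the phase cut

`u = ph + ps` has positive components, `v = ph - ps` has positive components except `v 3 = 0`. -/

set_option autoImplicit false

namespace Pool.Agent.Lib.MP_dbb03c_co

open Real

private theorem bs3_lm : mu < lam := by
  have h1 := lam_lo
  have h2 := mu_hi
  linarith

private theorem bs3_l2 : (806.17 : ℝ) < lam ^ 2 := by
  have h1 := lam_lo
  nlinarith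

private theorem bs3_m2 : (805.7 : ℝ) < mu ^ 2 := by
  have h1 := mu_lo
  nlinarith

private theorem bs3_u0 : 0 < (ph + ps) 0 := by
  have h1 := bs3_lm
  have h2 := bs3_l2
  have h3 := bs3_m2
  have hl : 0 < lam := lam_pos
  have hm : 0 < mu := mu_pos
  have h4 : 0 < lam * mu := mul_pos hl hm
  have e : (ph + ps) 0 = (lam - mu) * (lam ^ 2 + lam * mu + mu ^ 2 - 803) := by
    simp [ph, ps]
    ring
  rw [e]
  apply mul_pos <;> linarith

private theorem bs3_u1 : 0 < (ph + ps) 1 := by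
  have h2 := bs3_l2
  have h3 := bs3_m2
  have e : (ph + ps) 1 = lam ^ 2 + mu ^ 2 - 1600 := by
    simp [ph, ps]
    ring
  rw [e]
  linarith

private theorem bs3_u2 : 0 < (ph + ps) 2 := by
  have h1 := bs3_lm
  have e : (ph + ps) 2 = lam - mu := by
    simp [ph, ps]
    ring
  rw [e]
  linarith

private theorem bs3_u3 : (ph + ps) 3 = 2 := by
  simp [ph, ps]
  norm_num

private theorem bs3_v0 : 0 < (ph - ps) 0 := by
  have h2 := bs3_l2
  have h3 := bs3_m2
  have hl : 0 < lam := lam_pos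
  have hm : 0 < mu := mu_pos
  have e : (ph - ps) 0 = lam * (lam ^ 2 - 803) + mu * (mu ^ 2 - 803) := by
    simp [ph, ps]
    ring
  rw [e]
  have h5 : 0 < lam * (lam ^ 2 - 803) := mul_pos hl (by linarith)
  have h6 : 0 < mu * (mu ^ 2 - 803) := mul_pos hm (by linarith)
  linarith

private theorem bs3_v1 : 0 < (ph - ps) 1 := by
  have h1 := bs3_lm
  have hl : 0 < lam := lam_pos
  have hm : 0 < mu := mu_pos
  have e : (ph - ps) 1 = (lam - mu) * (lam + mu) := by
    simp [ph, ps]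
    ring
  rw [e]
  exact mul_pos (by linarith) (by linarith)

private theorem bs3_v2e : (ph - ps) 2 = lam + mu := by
  simp [ph, ps]

private theorem bs3_v2 : 0 < (ph - ps) 2 := by
  have hl : 0 < lam := lam_pos
  have hm : 0 < mu := mu_pos
  rw [bs3_v2e]
  linarith

private theorem bs3_v3 : (ph - ps) 3 = 0 := by
  simp [ph, ps]

private theorem bs3_NN : 0 < NN := by
  have h : NN = ph 0 * ph 0 + 400 * (ph 1 * ph 1) + 1200 * (ph 2 * ph 2) + 960000 * (ph 3 * ph 3) :=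
    rfl
  have h3 : ph 3 = 1 := by simp [ph]
  rw [h, h3]
  have h0 := mul_self_nonneg (ph 0)
  have h1 := mul_self_nonneg (ph 1)
  have h2 := mul_self_nonneg (ph 2)
  linarith

/-- the product with `u` -/
private theorem bs3_ipu {x : V4} (hx : ∀ i, 0 < x i) :
    0 < ip (ph + ps) x ∧ kCu + LC x ≤ log (ip (ph + ps) x) := by
  have h0 := mul_pos bs3_u0 (hx 0)
  have h1 := mul_pos bs3_u1 (hx 1)
  have h2 := mul_pos bs3_u2 (hx 2)
  have h3 := hx 3
  have e : ip (ph + ps) x = (ph + ps) 0 * x 0 + 400 * ((ph + ps) 1 * x 1) +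
      1200 * ((ph + ps) 2 * x 2) + 960000 * ((ph + ps) 3 * x 3) := rfl
  have hp : 0 < 400 * ((ph + ps) 1 * x 1) + 960000 * (2 * x 3) := by linarith
  have hle : 400 * ((ph + ps) 1 * x 1) + 960000 * (2 * x 3) ≤ ip (ph + ps) x := by
    rw [e, bs3_u3]
    linarith
  refine ⟨hp.trans_le hle, ?_⟩
  have h5 := ipC_ge bs3_u1 (by norm_num : (0 : ℝ) < 2) hx
  have h6 := log_le_log hp hle
  have e2 : kCu = 0.015 * log (400 * (ph + ps) 1 / 0.015) + 0.985 * log (960000 * 2 / 0.985) := rfl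
  rw [e2]
  linarith

/-- the product with `v` -/
private theorem bs3_ipv {x : V4} (hx : ∀ i, 0 < x i) :
    0 < ip (ph - ps) x ∧ kBv + LB x ≤ log (ip (ph - ps) x) := by
  have h0 := mul_pos bs3_v0 (hx 0)
  have h1 := mul_pos bs3_v1 (hx 1)
  have h2 := mul_pos bs3_v2 (hx 2)
  have e : ip (ph - ps) x = (ph - ps) 0 * x 0 + 400 * ((ph - ps) 1 * x 1) +
      1200 * ((ph - ps) 2 * x 2) + 960000 * ((ph - ps) 3 * x 3) := rfl
  have hp : 0 < (ph - ps) 0 * x 0 + 1200 * ((ph - ps) 2 * x 2) := by linarith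
  have hle : (ph - ps) 0 * x 0 + 1200 * ((ph - ps) 2 * x 2) ≤ ip (ph - ps) x := by
    rw [e, bs3_v3]
    linarith
  refine ⟨hp.trans_le hle, ?_⟩
  have h5 := ipB_ge bs3_v0 bs3_v2 hx
  have h6 := log_le_log hp hle
  have e2 : kBv = 0.0075 * log ((ph - ps) 0 / 0.0075) +
      0.9925 * log (1200 * (ph - ps) 2 / 0.9925) := by
    rw [bs3_v2e]
    rfl
  rw [e2]
  linarith

/-- lower bound of `LC` of a combination of `u` and `v` -/
private theorem bs3_LC {s t : ℝ} (hs : 0 < s) (ht : 0 < t) {y : V4}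
    (hy : ∀ i, y i = (s * (ph + ps) i + t * (ph - ps) i) / (2 * NN)) :
    log s + lCu - log (2 * NN) ≤ LC y := by
  have hN : 0 < 2 * NN := by linarith [bs3_NN]
  have a1 : log (s * (ph + ps) 1 / (2 * NN)) ≤ log (y 1) := by
    apply log_le_log (div_pos (mul_pos hs bs3_u1) hN)
    rw [hy]
    apply div_le_div_of_nonneg_right _ hN.le
    linarith [mul_pos ht bs3_v1]
  have a3 : log (s * 2 / (2 * NN)) ≤ log (y 3) := by
    apply log_le_log (div_pos (mul_pos hs two_pos) hN)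
    rw [hy, bs3_u3, bs3_v3]
    apply div_le_div_of_nonneg_right _ hN.le
    linarith
  rw [log_div (mul_pos hs bs3_u1).ne' hN.ne', log_mul hs.ne' bs3_u1.ne'] at a1
  rw [log_div (mul_pos hs two_pos).ne' hN.ne', log_mul hs.ne' two_ne_zero] at a3
  have e : lCu = 0.015 * log ((ph + ps) 1) + 0.985 * log 2 := rfl
  rw [e, LC]
  linarith

/-- lower bound of `LB` of a combination of `u` and `v` -/
private theorem bs3_LB {s t : ℝ} (hs : 0 < s) (ht : 0 < t) {y : V4}
    (hy : ∀ i, y i = (s * (ph + ps) i + t * (ph - ps) i) / (2 * NN)) :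
    log t + lBv - log (2 * NN) ≤ LB y := by
  have hN : 0 < 2 * NN := by linarith [bs3_NN]
  have a1 : log (t * (ph - ps) 0 / (2 * NN)) ≤ log (y 0) := by
    apply log_le_log (div_pos (mul_pos ht bs3_v0) hN)
    rw [hy]
    apply div_le_div_of_nonneg_right _ hN.le
    linarith [mul_pos hs bs3_u0]
  have a3 : log (t * (ph - ps) 2 / (2 * NN)) ≤ log (y 2) := by
    apply log_le_log (div_pos (mul_pos ht bs3_v2) hN)
    rw [hy]
    apply div_le_div_of_nonneg_right _ hN.le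
    linarith [mul_pos hs bs3_u2]
  rw [log_div (mul_pos ht bs3_v0).ne' hN.ne', log_mul ht.ne' bs3_v0.ne'] at a1
  rw [log_div (mul_pos ht bs3_v2).ne' hN.ne', log_mul ht.ne' bs3_v2.ne'] at a3
  have e : lBv = 0.0075 * log ((ph - ps) 0) + 0.9925 * log ((ph - ps) 2) := by
    rw [bs3_v2e]
    rfl
  rw [e, LB]
  linarith

private theorem bs3_pos {s t : ℝ} (hs : 0 < s) (ht : 0 < t) {y : V4}
    (hy : ∀ i, y i = (s * (ph + ps) i + t * (ph - ps) i) / (2 * NN)) : ∀ i, 0 < y i := by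
  have hN : 0 < 2 * NN := by linarith [bs3_NN]
  intro i
  rw [hy]
  apply div_pos _ hN
  fin_cases i
  · exact add_pos (mul_pos hs bs3_u0) (mul_pos ht bs3_v0)
  · exact add_pos (mul_pos hs bs3_u1) (mul_pos ht bs3_v1)
  · exact add_pos (mul_pos hs bs3_u2) (mul_pos ht bs3_v2)
  · show 0 < s * (ph + ps) 3 + t * (ph - ps) 3
    rw [bs3_u3, bs3_v3]
    linarith

/-- the phase cut for an even number of steps: `q`, `k` are kept (`num_EC`, `num_EB`, `Dp_one`) -/
theorem Bs_Dp_one {m : ℕ} {a : ℝ} {x : V4} (h : Bs m a x) : Bs m (a + 0.0013) (Dp 1 x) := by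
  obtain ⟨hx, q, k, hm, hk, h1, h2⟩ := h
  obtain ⟨pu, hu⟩ := bs3_ipu hx
  obtain ⟨pv, hv⟩ := bs3_ipv hx
  have hy := Dp_one x
  have hC := bs3_LC pu pv hy
  have hB := bs3_LB pu pv hy
  have n1 := num_EC
  have n2 := num_EB
  refine ⟨bs3_pos pu pv hy, q, k, hm, hk, ?_, ?_⟩
  · linarith
  · linarith

/-- the phase cut for an odd number of steps: `k ↦ 2 - k` (`num_OC`, `num_OB`, `Dp_neg`) -/
theorem Bs_Dp_neg {m : ℕ} {a : ℝ} {x : V4} (h : Bs m a x) : Bs m (a + 0.0013) (Dp (-1) x) := by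
  obtain ⟨hx, q, k, hm, hk, h1, h2⟩ := h
  obtain ⟨pu, hu⟩ := bs3_ipu hx
  obtain ⟨pv, hv⟩ := bs3_ipv hx
  have hy := Dp_neg x
  have hC := bs3_LC pv pu hy
  have hB := bs3_LB pv pu hy
  have n1 := num_OC
  have n2 := num_OB
  refine ⟨bs3_pos pv pu hy, q, 2 - k, hm, ?_, ?_, ?_⟩
  · have e : ((q : ℤ) - (2 - k)) = (q - k) + 2 * (k - 1) := by ring
    rw [e]
    exact hk.add (even_two_mul _)
  · push_cast
    linarith
  · push_cast
    linarith

end Pool.Agent.Lib.MP_dbb03c_co
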