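import Pool.Agent.Lib.MP_dbb03c_co.Jen

/-! # Numerical facts, part D

`zC = 13.7358227`, `zB = 7.0810694`; `(ip ph e1)^2 / NN = 509162.43..`, `exp 13.15 = 514010.8..`;
`ip ph (BB e1 * BB (BB e1)) = 0.99993807 * ip ph e1`. -/

set_option autoImplicit false

namespace Pool.Agent.Lib.MP_dbb03c_co

open Real

noncomputable def zC : ℝ := 0.015 * log (400 * 1 / 0.015) + 0.985 * log (960000 * 1 / 0.985)

noncomputable def zB : ℝ := 0.0075 * log (1 / 0.0075) + 0.9925 * log (1200 * 1 / 0.9925)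

/-- `log b + 2 t / (2 + t) ≤ log a`, `t = a / b - 1` -/
private theorem log_stepD {a b t : ℝ} (hb : 0 < b) (ht : 0 ≤ t) (h : b * (1 + t) ≤ a) :
    log b + 2 * t / (t + 2) ≤ log a := by
  have h1 := Real.le_log_one_add_of_nonneg ht
  have h2 : log (b * (1 + t)) = log b + log (1 + t) := Real.log_mul hb.ne' (by linarith)
  have h3 : log (b * (1 + t)) ≤ log a := Real.log_le_log (by positivity) h
  linarith

private theorem log3D : 1.098612 ≤ log 3 := by
  have h := log_stepD (a := 3 ^ 12) (b := 2 ^ 19) (t := 0.01364326) (by norm_num) (by norm_num)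
    (by norm_num)
  rw [Real.log_pow, Real.log_pow] at h
  have h2 := Real.log_two_gt_d9
  norm_num at h h2 ⊢
  linarith

private theorem log5D : 1.609437 ≤ log 5 := by
  have h := log_stepD (a := 5 ^ 28) (b := 2 ^ 65) (t := 0.0097419) (by norm_num) (by norm_num)
    (by norm_num)
  rw [Real.log_pow, Real.log_pow] at h
  have h2 := Real.log_two_gt_d9
  norm_num at h h2 ⊢
  linarith

/-- `log (2 ^ a * 3 ^ b * 5 ^ c)` -/
private theorem log_smoothD (a b c : ℕ) :
    log (2 ^ a * 3 ^ b * 5 ^ c) = a * log 2 + b * log 3 + c * log 5 := by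
  rw [Real.log_mul (by positivity) (by positivity), Real.log_mul (by positivity) (by positivity),
    Real.log_pow, Real.log_pow, Real.log_pow]

theorem zC_ge : 13.7358 ≤ zC := by
  have h1 := log_stepD (a := 400 * 1 / 0.015) (b := 2 ^ 10 * 3 ^ 0 * 5 ^ 2) (t := 0.0416666)
    (by norm_num) (by norm_num) (by norm_num)
  have h2 := log_stepD (a := 960000 * 1 / 0.985) (b := 2 ^ 9 * 3 ^ 1 * 5 ^ 4) (t := 0.0152284)
    (by norm_num) (by norm_num) (by norm_num)
  rw [log_smoothD] at h1 h2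
  have l2 := Real.log_two_gt_d9
  have l3 := log3D
  have l5 := log5D
  unfold zC
  norm_num at h1 h2 l2 l3 l5 ⊢
  linarith

theorem zB_ge : 7.081 ≤ zB := by
  have h1 := log_stepD (a := 1 / 0.0075) (b := 2 ^ 7 * 3 ^ 0 * 5 ^ 0) (t := 0.0416666)
    (by norm_num) (by norm_num) (by norm_num)
  have h2 := log_stepD (a := 1200 * 1 / 0.9925) (b := 2 ^ 4 * 3 ^ 1 * 5 ^ 2) (t := 0.0075566)
    (by norm_num) (by norm_num) (by norm_num)
  rw [log_smoothD] at h1 h2
  have l2 := Real.log_two_gt_d9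
  have l3 := log3D
  have l5 := log5D
  unfold zB
  norm_num at h1 h2 l2 l3 l5 ⊢
  linarith

theorem num_S : (ip ph e1) ^ 2 / NN < exp 13.15 := by
  have hN := NN_bd.1
  have hN0 : 0 < NN := NN_pos
  have h0 := ph0_bd
  have h1 := ph1_bd
  have hl := lam_hi
  have hl' := lam_lo
  have he : ip ph e1 = ph 0 + 400 * ph 1 + 1200 * lam + 960000 := by
    unfold ip e1
    rw [ph2_eq, ph3_eq]
    ring
  have hub : ip ph e1 < 996632.66 := by
    rw [he]
    linarith [h0.2, h1.2]
  have hpos : 0 < ip ph e1 := by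
    rw [he]
    linarith [h0.1, h1.1]
  have hexp : (513000 : ℝ) ≤ exp 13.15 := by
    have e1' : (13.15 : ℝ) = (13 : ℕ) * 1 + 0.15 := by norm_num
    have e2 : exp 13.15 = exp 1 ^ 13 * exp 0.15 := by
      rw [e1', exp_add, exp_nat_mul]
    have e3 : (2.718281828 : ℝ) ^ 13 ≤ exp 1 ^ 13 :=
      pow_le_pow_left₀ (by norm_num) (by linarith [Real.exp_one_gt_d9]) 13
    have e4 : (1.16125 : ℝ) ≤ exp 0.15 := by
      have := Real.quadratic_le_exp_of_nonneg (x := 0.15) (by norm_num)
      norm_num at this ⊢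
      linarith
    rw [e2]
    calc (513000 : ℝ) ≤ 2.718281828 ^ 13 * 1.16125 := by norm_num
      _ ≤ exp 1 ^ 13 * exp 0.15 := mul_le_mul e3 e4 (by norm_num) (by positivity)
  refine lt_of_lt_of_le ?_ hexp
  rw [div_lt_iff₀ hN0]
  have hsq : (ip ph e1) ^ 2 < 996632.66 ^ 2 := pow_lt_pow_left₀ hub hpos.le (by norm_num)
  refine hsq.trans ?_
  norm_num
  linarith

theorem num_E : ip ph (BB e1 * BB (BB e1)) < ip ph e1 := by
  have h0 := ph0_bd
  have h1 := ph1_bd
  have hl := lam_hi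
  have hl' := lam_lo
  have hlp : 0 < lam := lam_pos
  have he : ip ph e1 = ph 0 + 400 * ph 1 + 1200 * lam + 960000 := by
    unfold ip e1
    rw [ph2_eq, ph3_eq]
    ring
  have hb : ip ph (BB e1 * BB (BB e1)) = (802401 * ph 0 + 4486400 * ph 1 + 772804800 * lam +
      768960000) / lam ^ 3 := by
    have hne := hlp.ne'
    have b0 : BB e1 0 = 401 / lam := by
      simp [BB, AA, e1]
      norm_num
    have b1 : BB e1 1 = 4 / lam := by
      simp [BB, AA, e1]
      norm_num
    have b2 : BB e1 2 = 801 / lam := by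
      simp [BB, AA, e1]
      norm_num
    have b3 : BB e1 3 = 1 / lam := by
      simp [BB, AA, e1]
    have c0 : BB (BB e1) 0 = (BB e1 0 + 400 * BB e1 1) / lam := rfl
    have c1 : BB (BB e1) 1 = (BB e1 0 + 3 * BB e1 2) / lam := rfl
    have c2 : BB (BB e1) 2 = (BB e1 1 + 800 * BB e1 3) / lam := rfl
    have c3 : BB (BB e1) 3 = BB e1 2 / lam := rfl
    unfold ip
    simp only [Pi.mul_apply]
    rw [c0, c1, c2, c3, b0, b1, b2, b3, ph2_eq, ph3_eq]
    field_simp
    ring
  rw [hb, he, div_lt_iff₀ (by positivity)]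
  have h3 : (22889.96 : ℝ) < lam ^ 3 := by
    have := pow_lt_pow_left₀ hl' (by norm_num) (n := 3) (by norm_num)
    refine lt_trans (by norm_num) this
  have hS : (996632.65 : ℝ) < ph 0 + 400 * ph 1 + 1200 * lam + 960000 := by
    linarith [h0.1, h1.1]
  have hT : 802401 * ph 0 + 4486400 * ph 1 + 772804800 * lam + 768960000 < 22811500000 := by
    linarith [h0.2, h1.2]
  refine hT.trans ?_
  calc (22811500000 : ℝ) < 996632.65 * 22889.96 := by norm_num
    _ < _ := mul_lt_mul'' hS h3 (by norm_num) (by norm_num)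

end Pool.Agent.Lib.MP_dbb03c_co
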