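import Pool.Agent.Lib.MP_dbb03c_co.Bs1
import Pool.Agent.Lib.MP_dbb03c_co.NumD
import Pool.Agent.Lib.MP_dbb03c_co.Exp2

/-! # Elementary certificates: the final evaluation -/

set_option autoImplicit false

namespace Pool.Agent.Lib.MP_dbb03c_co

open Real

/-- `ip e1 x ≥ exp (zC + LC x) + exp (zB + LB x)` and the two previous statements; `q = 3` gives
`3.015 + 12.107`, `q = 4` gives `4.02 + 11.101`, larger `q` more -/
theorem Bs_fin {a : ℝ} {x : V4} (h : Bs 3 a x) : exp (15.12 - a) ≤ ip e1 x := by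
  obtain ⟨hx, q, k, hq, hpar, hC, hB⟩ := h
  have h0 := hx 0
  have h1 := hx 1
  have h2 := hx 2
  have h3 := hx 3
  have hc1 := ipC_ge (A := 1) (B := 1) one_pos one_pos hx
  have hb1 := ipB_ge (A := 1) (B := 1) one_pos one_pos hx
  have hc2 := zC_ge
  have hb2 := zB_ge
  unfold zC at hc2
  unfold zB at hb2
  have hpc : 0 < 400 * (1 * x 1) + 960000 * (1 * x 3) := by positivity
  have hpb : 0 < 1 * x 0 + 1200 * (1 * x 2) := by positivity
  have ec : exp ((1.005 * q - a) + (13.7358 - (k : ℝ) / 2 * 3.327377)) ≤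
      400 * (1 * x 1) + 960000 * (1 * x 3) := by
    rw [← Real.le_log_iff_exp_le hpc]
    linarith
  have eb : exp ((1.005 * q - a) + (7.081 + (k : ℝ) / 2 * 3.327377)) ≤
      1 * x 0 + 1200 * (1 * x 2) := by
    rw [← Real.le_log_iff_exp_le hpb]
    linarith
  rw [exp_add] at ec eb
  have hip : ip e1 x = (400 * (1 * x 1) + 960000 * (1 * x 3)) + (1 * x 0 + 1200 * (1 * x 2)) := by
    unfold ip e1
    ring
  rw [hip]
  have hE := exp_pos (1.005 * (q : ℝ) - a)
  rcases Int.even_or_odd k with hk | hk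
  · have hqe : Even ((q : ℤ)) := by
      have := hpar.add hk
      simpa using this
    have hq4 : 4 ≤ q := by
      have : Even q := by exact_mod_cast hqe
      obtain ⟨r, hr⟩ := this
      omega
    have hq4' : (4 : ℝ) ≤ q := by exact_mod_cast hq4
    have h5 := two_exp_fin_even k hk
    have h6 : exp (15.12 - a) ≤ exp (1.005 * (q : ℝ) - a) * exp 11.101 := by
      rw [← exp_add]
      apply exp_le_exp.mpr
      linarith
    nlinarith [mul_le_mul_of_nonneg_left h5 hE.le]
  · have hq3' : (3 : ℝ) ≤ q := by exact_mod_cast hq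
    have h5 := two_exp_fin_odd k hk
    have h6 : exp (15.12 - a) ≤ exp (1.005 * (q : ℝ) - a) * exp 12.107 := by
      rw [← exp_add]
      apply exp_le_exp.mpr
      linarith
    nlinarith [mul_le_mul_of_nonneg_left h5 hE.le]

end Pool.Agent.Lib.MP_dbb03c_co
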