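import Pool.Agent.Lib.MP_dbb03c_co.Gd

/-! # Combinatorics of rooted trees -/

set_option autoImplicit false

namespace Pool.Agent.Lib.MP_dbb03c_co

/-- a tree of small depth is small -/
theorem sz_le (t : RT) : t.sz ≤ 1 + t.dep * t.lv := by
  induction t with
  | one => simp [RT.sz]
  | gr s t ihs iht =>
    simp only [RT.sz, RT.dep, RT.lv]
    have h1 : s.dep ≤ max s.dep (t.dep + 1) := le_max_left _ _
    have h2 : t.dep + 1 ≤ max s.dep (t.dep + 1) := le_max_right _ _
    have h3 : 1 ≤ max 1 t.lv := le_max_left _ _
    have h4 : t.lv ≤ max 1 t.lv := le_max_right _ _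
    generalize max s.dep (t.dep + 1) = d at *
    generalize max 1 t.lv = l at *
    have h5 : s.dep * s.lv ≤ d * s.lv := Nat.mul_le_mul_right _ h1
    have h6 : (t.dep + 1) * l ≤ d * l := Nat.mul_le_mul_right _ h2
    have h7 : t.dep * t.lv ≤ t.dep * l := Nat.mul_le_mul_left _ h4
    rw [mul_add]
    rw [add_mul] at h6
    omega

/-- The vertex dichotomy. Hypothesis: no path inside `t` is longer than the one from the point at
distance `u` above the root to the deepest vertex. Induction on `t`; for `gr s t'` compare
`s.dep` and `t'.dep + 1`: the smaller one is at most `u`; if it is at least `M` then the root is good,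
otherwise the corresponding part is small (`sz_le`) and we use the induction hypothesis for the other
part (`s` with `u`, or `t'` with `u + 1`). -/
theorem sz_or_good (M : ℕ) (t : RT) (u : ℕ) (h : t.rd ≤ u + t.dep) :
    t.sz ≤ t.dep + 1 + M * t.lv ∨ Gd M t u := by
  induction t generalizing u with
  | one =>
    left
    simp only [RT.sz, RT.dep, RT.lv]
    omega
  | gr s t ihs iht =>
    have hzs := sz_le s
    have hzt := sz_le t
    simp only [RT.rd, RT.dep] at h
    have h1 : s.rd ≤ u + max s.dep (t.dep + 1) := le_trans (le_max_left _ _) h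
    have h2 : t.rd ≤ u + max s.dep (t.dep + 1) :=
      le_trans (le_trans (le_max_left _ _) (le_max_right _ _)) h
    have h3 : s.dep + t.dep + 1 ≤ u + max s.dep (t.dep + 1) :=
      le_trans (le_trans (le_max_right _ _) (le_max_right _ _)) h
    have h4 : 1 ≤ max 1 t.lv := le_max_left _ _
    have h5 : t.lv ≤ max 1 t.lv := le_max_right _ _
    simp only [RT.sz, RT.dep, RT.lv, Gd]
    rw [mul_add]
    generalize max 1 t.lv = l at *
    rcases Nat.lt_or_ge s.dep (t.dep + 1) with hc | hc
    · rw [max_eq_right hc.le] at *
      rcases Nat.lt_or_ge s.dep M with hM | hM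
      · rcases iht (u + 1) (by omega) with h6 | h6
        · left
          have h7 : s.dep * s.lv ≤ M * s.lv := Nat.mul_le_mul_right _ hM.le
          have h8 : M * t.lv ≤ M * l := Nat.mul_le_mul_left _ h5
          omega
        · exact Or.inr (Or.inr (Or.inr h6))
      · right
        left
        omega
    · rw [max_eq_left hc] at *
      rcases Nat.lt_or_ge (t.dep + 1) M with hM | hM
      · rcases ihs u h1 with h6 | h6
        · left
          have h7 : (t.dep + 1) * l ≤ M * l := Nat.mul_le_mul_right _ hM.le
          have h8 : t.dep * t.lv ≤ t.dep * l := Nat.mul_le_mul_left _ h5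
          rw [add_mul] at h7
          omega
        · exact Or.inr (Or.inr (Or.inl h6))
      · right
        left
        omega

end Pool.Agent.Lib.MP_dbb03c_co
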