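import Pool.Agent.Lib.MP_dbb03c_co.Ki

/-! # Convergence of the iterates

`Kz` gives `BB^[22] x ≥ κ • Phi x` for `x ≥ 0` with `κ = 0.9989 * (1 - 0.9977)`. If `ip ph f = 0` and
`|f i| ≤ C * ph i` then `|BB^[22] f i| ≤ (1 - κ) * C * ph i` (apply the inequality to `C • ph ± f`), so
`BB^[22 k] f → 0`; the intermediate iterates are bounded by `|BB^[j] f i| ≤ C * ph i`
(`BB_ph`, monotonicity). Apply this to `f = x - (ip ph x / NN) • ph`. -/

set_option autoImplicit false

namespace Pool.Agent.Lib.MP_dbb03c_co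

open Filter Topology

private theorem u_nonneg (i : Fin 4) : 0 ≤ (ph + ps) i := by
  obtain ⟨a1, a2⟩ := ph0_bd
  obtain ⟨b1, b2⟩ := ph1_bd
  obtain ⟨c1, c2⟩ := ps0_bd
  obtain ⟨d1, d2⟩ := ps1_bd
  have l1 := lam_lo
  have m2 := mu_hi
  fin_cases i
  · change 0 ≤ ph 0 + ps 0
    linarith
  · change 0 ≤ ph 1 + ps 1
    linarith
  · change 0 ≤ lam + -mu
    linarith
  · change (0 : ℝ) ≤ 1 + 1
    norm_num

private theorem v_nonneg (i : Fin 4) : 0 ≤ (ph - ps) i := by
  obtain ⟨a1, a2⟩ := ph0_bd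
  obtain ⟨b1, b2⟩ := ph1_bd
  obtain ⟨c1, c2⟩ := ps0_bd
  obtain ⟨d1, d2⟩ := ps1_bd
  have l1 := lam_pos
  have m2 := mu_pos
  fin_cases i
  · change 0 ≤ ph 0 - ps 0
    linarith
  · change 0 ≤ ph 1 - ps 1
    linarith
  · change 0 ≤ lam - -mu
    linarith
  · change (0 : ℝ) ≤ 1 - 1
    norm_num

private theorem ip_zero' (x : V4) : ip x 0 = 0 := by
  simp [ip]

private theorem ip_nonneg' {x y : V4} (hx : ∀ i, 0 ≤ x i) (hy : ∀ i, 0 ≤ y i) : 0 ≤ ip x y := by
  have := ip_mono (x := x) (y := 0) (z := y) hx hy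
  rwa [ip_zero'] at this

private theorem it22_lower (x : V4) (hx : ∀ i, 0 ≤ x i) (i : Fin 4) :
    0.9989 * (1 - 0.9977) * Phi x i ≤ BB^[22] x i := by
  have h1 := Kz x hx i
  have h2 : 0 ≤ Dp 1 x i := by
    rw [Dp_one]
    have hN := NN_pos
    have h3 := ip_nonneg' u_nonneg hx
    have h4 := ip_nonneg' v_nonneg hx
    have h5 := mul_nonneg h3 (u_nonneg i)
    have h6 := mul_nonneg h4 (v_nonneg i)
    apply div_nonneg (by linarith) (by linarith)
  have h3 : Dp 1 x i = Phi x i + Psi x i := by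
    simp [Dp]
  rw [h3] at h2
  linarith

private theorem one_side {f : V4} {C : ℝ} (h0 : ip ph f = 0) (h : ∀ i, |f i| ≤ C * ph i)
    (i : Fin 4) : -((1 - 0.9989 * (1 - 0.9977)) * C * ph i) ≤ BB^[22] f i := by
  have hx : ∀ i, 0 ≤ (C • ph + f) i := by
    intro i
    have := neg_le_of_abs_le (h i)
    simp only [Pi.add_apply, Pi.smul_apply, smul_eq_mul]
    linarith
  have h1 := it22_lower (C • ph + f) hx i
  have h2 : Phi (C • ph + f) i = C * ph i := by
    unfold Phi
    rw [ip_add, ip_smul, h0]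
    have hN := NN_pos.ne'
    simp only [Pi.smul_apply, smul_eq_mul]
    change (C * NN + 0) / NN * ph i = C * ph i
    field_simp
    ring
  rw [h2, it_add, it_smul, it_ph] at h1
  simp only [Pi.add_apply, Pi.smul_apply, smul_eq_mul] at h1
  linarith

theorem it22_contract {f : V4} {C : ℝ} (h0 : ip ph f = 0) (h : ∀ i, |f i| ≤ C * ph i) (i : Fin 4) :
    |BB^[22] f i| ≤ (1 - 0.9989 * (1 - 0.9977)) * C * ph i := by
  rw [abs_le]
  refine ⟨one_side h0 h i, ?_⟩
  have h1 : ip ph ((-1 : ℝ) • f) = 0 := by rw [ip_smul, h0, mul_zero]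
  have h2 : ∀ i, |((-1 : ℝ) • f) i| ≤ C * ph i := by
    intro i
    simp only [Pi.smul_apply, smul_eq_mul, neg_mul, one_mul, abs_neg]
    exact h i
  have h3 := one_side h1 h2 i
  rw [it_smul] at h3
  simp only [Pi.smul_apply, smul_eq_mul, neg_mul, one_mul] at h3
  linarith

private theorem it_bound {f : V4} {C : ℝ} (h : ∀ i, |f i| ≤ C * ph i) (j : ℕ) (i : Fin 4) :
    |BB^[j] f i| ≤ C * ph i := by
  have h1 : ∀ i, f i ≤ (C • ph) i := fun i => le_of_abs_le (h i)
  have h2 : ∀ i, ((-C) • ph) i ≤ f i := by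
    intro i
    have := neg_le_of_abs_le (h i)
    simp only [Pi.smul_apply, smul_eq_mul]
    linarith
  have h3 := it_mono j h1 i
  have h4 := it_mono j h2 i
  rw [it_smul, it_ph] at h3 h4
  simp only [Pi.smul_apply, smul_eq_mul] at h3 h4
  rw [abs_le]
  constructor <;> linarith

private theorem ip_it_zero {f : V4} (h0 : ip ph f = 0) (j : ℕ) : ip ph (BB^[j] f) = 0 := by
  rw [ip_it, it_ph, h0]

private theorem it_pow {f : V4} {C : ℝ} (h0 : ip ph f = 0) (h : ∀ i, |f i| ≤ C * ph i) (k : ℕ) :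
    ∀ i, |BB^[22 * k] f i| ≤ (1 - 0.9989 * (1 - 0.9977)) ^ k * C * ph i := by
  induction k with
  | zero =>
    intro i
    simpa using h i
  | succ k ih =>
    intro i
    have e : 22 * (k + 1) = 22 + 22 * k := by ring
    rw [e, Function.iterate_add_apply]
    have := it22_contract (f := BB^[22 * k] f) (ip_it_zero h0 _) ih i
    refine this.trans (le_of_eq ?_)
    rw [pow_succ]
    ring

private theorem it_zero_tendsto {f : V4} (h0 : ip ph f = 0) (i : Fin 4) :
    Tendsto (fun n : ℕ => BB^[n] f i) atTop (𝓝 0) := by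
  obtain ⟨C, hC0, hC⟩ : ∃ C : ℝ, 0 ≤ C ∧ ∀ i, |f i| ≤ C * ph i := by
    refine ⟨∑ j, |f j| / ph j, Finset.sum_nonneg fun j _ =>
      div_nonneg (abs_nonneg _) (ph_pos j).le, fun i => ?_⟩
    have h1 : |f i| / ph i ≤ ∑ j, |f j| / ph j :=
      Finset.single_le_sum (f := fun j => |f j| / ph j)
        (fun j _ => div_nonneg (abs_nonneg _) (ph_pos j).le) (Finset.mem_univ i)
    rwa [div_le_iff₀ (ph_pos i)] at h1
  have hb : ∀ n : ℕ, |BB^[n] f i| ≤ (1 - 0.9989 * (1 - 0.9977)) ^ (n / 22) * C * ph i := by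
    intro n
    have e : n = n % 22 + 22 * (n / 22) := (Nat.mod_add_div n 22).symm
    conv_lhs => rw [e, Function.iterate_add_apply]
    exact it_bound (it_pow h0 hC (n / 22)) (n % 22) i
  have ht : Tendsto (fun n : ℕ => (1 - 0.9989 * (1 - 0.9977) : ℝ) ^ (n / 22) * C * ph i)
      atTop (𝓝 0) := by
    have h1 : Tendsto (fun n : ℕ => n / 22) atTop atTop :=
      Nat.tendsto_div_const_atTop (by norm_num)
    have h2 : Tendsto (fun k : ℕ => (1 - 0.9989 * (1 - 0.9977) : ℝ) ^ k) atTop (𝓝 0) :=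
      tendsto_pow_atTop_nhds_zero_of_lt_one (by norm_num) (by norm_num)
    have h3 := ((h2.comp h1).mul_const C).mul_const (ph i)
    simpa using h3
  exact squeeze_zero_norm (fun n => by rw [Real.norm_eq_abs]; exact hb n) ht

theorem it_tendsto (x : V4) (i : Fin 4) :
    Tendsto (fun n : ℕ => BB^[n] x i) atTop (𝓝 (Phi x i)) := by
  set f : V4 := x + (-(ip ph x / NN)) • ph with hf
  have hN := NN_pos.ne'
  have h0 : ip ph f = 0 := by
    rw [hf, ip_add, ip_smul]
    change ip ph x + -(ip ph x / NN) * NN = 0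
    field_simp
    ring
  have hx : x = f + Phi x := by
    rw [hf]
    funext i
    simp only [Phi, Pi.add_apply, Pi.smul_apply, smul_eq_mul]
    ring
  have h1 : ∀ n : ℕ, BB^[n] x i = BB^[n] f i + Phi x i := by
    intro n
    conv_lhs => rw [hx]
    rw [it_add]
    have : BB^[n] (Phi x) = Phi x := by
      unfold Phi
      rw [it_smul, it_ph]
    rw [this]
    rfl
  simp only [h1]
  have h2 := (it_zero_tendsto h0 i).add_const (Phi x i)
  simpa using h2

theorem ip_tendsto (x y : V4) :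
    Tendsto (fun n : ℕ => ip x (BB^[n] y)) atTop (𝓝 (ip ph x * ip ph y / NN)) := by
  have e : ip ph x * ip ph y / NN = ip x (Phi y) := by
    unfold Phi
    rw [ip_smul, ip_comm x ph]
    ring
  rw [e]
  unfold ip
  have h := fun i => (it_tendsto y i).const_mul (x i)
  exact (((h 0).add ((h 1).const_mul 400)).add ((h 2).const_mul 1200)).add ((h 3).const_mul 960000)

end Pool.Agent.Lib.MP_dbb03c_co
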