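import Pool.Agent.Lib.MP_dbb03c_co.Bs1
import Pool.Agent.Lib.MP_dbb03c_co.Bs2
import Pool.Agent.Lib.MP_dbb03c_co.Bs3
import Pool.Agent.Lib.MP_dbb03c_co.Bs4

/-! # Certificates

`Ct m a x`: the vector `x` is at least a mixture of vectors with an elementary certificate. All proofs are
inductions on the certificate; mixtures are bilinear (linear) for products (the operator), and
everything is monotone. Note that all components of `x` are positive (`Ct.pos`). -/

set_option autoImplicit false

namespace Pool.Agent.Lib.MP_dbb03c_co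

open Real

inductive Ct (m : ℕ) (a : ℝ) : V4 → Prop
  | base {x : V4} (h : Bs m a x) : Ct m a x
  | mix {x y : V4} {p : ℝ} (hx : Ct m a x) (hy : Ct m a y) (h0 : 0 ≤ p) (h1 : p ≤ 1) :
      Ct m a ((1 - p) • x + p • y)
  | mono {x y : V4} (hx : Ct m a x) (h : ∀ i, x i ≤ y i) : Ct m a y

theorem Ct.pos {m : ℕ} {a : ℝ} {x : V4} (h : Ct m a x) (i : Fin 4) : 0 < x i := by
  induction h with
  | base h => exact h.1 i
  | mix _ _ h0 h1 ihx ihy =>
    simp only [Pi.add_apply, Pi.smul_apply, smul_eq_mul]
    rcases h0.eq_or_lt with h0 | h0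
    · rw [← h0]
      simpa using ihx
    · have := mul_pos h0 ihy
      have := mul_nonneg (sub_nonneg.2 h1) ihx.le
      linarith
  | mono _ h ih => exact ih.trans_le (h i)

theorem Ct.weak {m m' : ℕ} {a a' : ℝ} {x : V4} (h : Ct m a x) (hm : m' ≤ m) (ha : a ≤ a') :
    Ct m' a' x := by
  induction h with
  | base h => exact .base (Bs_weak h hm ha)
  | mix _ _ h0 h1 ihx ihy => exact .mix ihx ihy h0 h1
  | mono _ h ih => exact .mono ih h

theorem Ct.mul {m m' : ℕ} {a a' : ℝ} {x y : V4} (h : Ct m a x) (h' : Ct m' a' y) :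
    Ct (m + m') (a + a') (x * y) := by
  induction h with
  | base h =>
    rename_i x
    induction h' with
    | base h' => exact .base (Bs_mul h h')
    | mix _ _ h0 h1 ihx ihy =>
      rename_i y z p _ _
      have : x * ((1 - p) • y + p • z) = (1 - p) • (x * y) + p • (x * z) := by
        funext i
        simp only [Pi.mul_apply, Pi.add_apply, Pi.smul_apply, smul_eq_mul]
        ring
      rw [this]
      exact .mix ihx ihy h0 h1
    | mono _ hm ih =>
      exact .mono ih fun i => by
        simp only [Pi.mul_apply]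
        exact mul_le_mul_of_nonneg_left (hm i) (h.1 i).le
  | mix _ _ h0 h1 ihx ihy =>
    rename_i x z p _ _
    have : ((1 - p) • x + p • z) * y = (1 - p) • (x * y) + p • (z * y) := by
      funext i
      simp only [Pi.mul_apply, Pi.add_apply, Pi.smul_apply, smul_eq_mul]
      ring
    rw [this]
    exact .mix ihx ihy h0 h1
  | mono _ hm ih =>
    exact .mono ih fun i => by
      simp only [Pi.mul_apply]
      exact mul_le_mul_of_nonneg_right (hm i) (h'.pos i).le

theorem Ct.BB {m : ℕ} {a : ℝ} {x : V4} (h : Ct m a x) :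
    Ct m (a + 0.00015) (Pool.Agent.Lib.MP_dbb03c_co.BB x) := by
  induction h with
  | base h => exact .base (Bs_BB h)
  | mix _ _ h0 h1 ihx ihy =>
    rw [BB_add, BB_smul, BB_smul]
    exact .mix ihx ihy h0 h1
  | mono _ h ih => exact .mono ih fun i => BB_mono h i

/-- at most 21 plantings: iterate `Ct.BB` -/
theorem Ct.short {m : ℕ} {a : ℝ} {x : V4} (h : Ct m a x) {j : ℕ} (hj : j ≤ 21) :
    Ct m (a + 0.0032) (Pool.Agent.Lib.MP_dbb03c_co.BB^[j] x) := by
  have key : ∀ k : ℕ, Ct m (a + 0.00015 * k) (Pool.Agent.Lib.MP_dbb03c_co.BB^[k] x) := by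
    intro k
    induction k with
    | zero => simpa using h
    | succ k ih =>
      rw [Function.iterate_succ_apply']
      exact ih.BB.weak le_rfl (by push_cast; linarith)
  refine (key j).weak le_rfl ?_
  have : (j : ℝ) ≤ 21 := by exact_mod_cast hj
  linarith

end Pool.Agent.Lib.MP_dbb03c_co
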