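import Pool.Agent.Lib.MP_dbb03c_co.Ct1

/-! # Certificates of long iterates -/

set_option autoImplicit false

namespace Pool.Agent.Lib.MP_dbb03c_co

open Real

/-- at least 22 plantings: induction on the certificate; for an elementary one use `Ki`,
`Bs_cut`, `Bs_Dp_one` / `Bs_Dp_neg` and `Bs_smul` with the factor `0.9989`
(`-log 0.9989 ≤ 0.0012`) -/
theorem Ct.long {m : ℕ} {a : ℝ} {x : V4} (h : Ct m a x) (j : ℕ) :
    Ct m (a + 0.0032) (Pool.Agent.Lib.MP_dbb03c_co.BB^[22 + j] x) := by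
  induction h with
  | base h =>
    rename_i x
    have hlog : -log 0.9989 ≤ 0.0012 := by
      have := Real.one_sub_inv_le_log_of_pos (show (0 : ℝ) < 0.9989 by norm_num)
      norm_num at this ⊢
      linarith
    have h1 : Ct m (a + 0.0032) ((0.9989 : ℝ) • Phi x) :=
      .base (Bs_weak (Bs_smul (by norm_num) hlog (Bs_cut h)) le_rfl (by linarith))
    have h2 : Ct m (a + 0.0032) ((0.9989 : ℝ) • Dp ((-1) ^ j) x) := by
      rcases Nat.even_or_odd j with hj | hj
      · rw [hj.neg_one_pow]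
        exact .base (Bs_weak (Bs_smul (by norm_num) hlog (Bs_Dp_one h)) le_rfl (by linarith))
      · rw [hj.neg_one_pow]
        exact .base (Bs_weak (Bs_smul (by norm_num) hlog (Bs_Dp_neg h)) le_rfl (by linarith))
    refine .mono (.mix h1 h2 (pj_nonneg j) (pj_le j)) fun i => ?_
    have := Ki x (fun i => (h.1 i).le) j i
    refine le_trans (le_of_eq ?_) this
    simp only [Pi.add_apply, Pi.smul_apply, smul_eq_mul]
    ring
  | mix _ _ h0 h1 ihx ihy =>
    rw [it_add, it_smul, it_smul]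
    exact .mix ihx ihy h0 h1
  | mono _ h ih => exact .mono ih (it_mono _ h)

theorem Ct.chain {m : ℕ} {a : ℝ} {x : V4} (h : Ct m a x) (j : ℕ) :
    Ct m (a + 0.0032) (Pool.Agent.Lib.MP_dbb03c_co.BB^[j] x) := by
  rcases Nat.lt_or_ge 21 j with hj | hj
  · obtain ⟨k, rfl⟩ := Nat.exists_eq_add_of_le (show 22 ≤ j by omega)
    exact h.long k
  · exact h.short hj

/-- at least 30000 plantings: `Ki` and `pj_small` give
`BB^[j] x ≥ 0.9989 * 0.999 * Phi x` (`Dp` of a positive vector is nonnegative), `Bs_cut'` -/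
theorem Ct.forced {m : ℕ} {a : ℝ} {x : V4} (hm : Even m) (h : Ct m a x) {j : ℕ}
    (hj : 30000 ≤ j) : Ct (m + 1) (a + 0.0032) (Pool.Agent.Lib.MP_dbb03c_co.BB^[j] x) := by
  obtain ⟨k, rfl⟩ := Nat.exists_eq_add_of_le (show 22 ≤ j by omega)
  induction h with
  | base h =>
    rename_i x
    have hlog : -log (0.9989 * 0.999) ≤ 0.0027 := by
      have := Real.one_sub_inv_le_log_of_pos (show (0 : ℝ) < 0.9989 * 0.999 by norm_num)
      norm_num at this ⊢
      linarith
    have h1 : Ct (m + 1) (a + 0.0032) ((0.9989 * 0.999 : ℝ) • Phi x) :=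
      .base (Bs_weak (Bs_smul (by norm_num) hlog (Bs_cut' hm h)) le_rfl (by linarith))
    refine .mono h1 fun i => ?_
    have hD : 0 ≤ Dp ((-1) ^ k) x i := by
      rcases Nat.even_or_odd k with hk | hk
      · rw [hk.neg_one_pow]
        exact ((Bs_Dp_one h).1 i).le
      · rw [hk.neg_one_pow]
        exact ((Bs_Dp_neg h).1 i).le
    have hP : 0 ≤ Phi x i := ((Bs_cut h).1 i).le
    have hK := Ki x (fun i => (h.1 i).le) k i
    have hp := pj_small (show 29978 ≤ k by omega)
    have hp0 := pj_nonneg k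
    refine le_trans ?_ hK
    simp only [Pi.smul_apply, smul_eq_mul]
    have h2 : 0 ≤ pj k * Dp ((-1) ^ k) x i := mul_nonneg hp0 hD
    have h3 : 0.999 * Phi x i ≤ (1 - pj k) * Phi x i :=
      mul_le_mul_of_nonneg_right (by linarith) hP
    nlinarith
  | mix _ _ h0 h1 ihx ihy =>
    rw [it_add, it_smul, it_smul]
    exact .mix ihx ihy h0 h1
  | mono _ h ih => exact .mono ih (it_mono _ h)

theorem Ct.fin {a : ℝ} {x : V4} (h : Ct 3 a x) : exp (15.12 - a) ≤ ip e1 x := by
  induction h with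
  | base h => exact Bs_fin h
  | mix _ _ h0 h1 ihx ihy =>
    rw [ip_add, ip_smul, ip_smul]
    nlinarith [mul_nonneg (sub_nonneg.2 h1) (sub_nonneg.2 ihx),
      mul_nonneg h0 (sub_nonneg.2 ihy)]
  | mono _ h ih => exact ih.trans (ip_mono (fun _ => by simp [e1]) h)

end Pool.Agent.Lib.MP_dbb03c_co
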