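import Pool.Agent.Lib.MP_dbb03c_co.RT

/-! # Good vertices -/

set_option autoImplicit false

namespace Pool.Agent.Lib.MP_dbb03c_co

open Real

/-- `Gd M t u`: there is a vertex `v` in `t` at depth `i` with `u + i ≥ M` which has two
branches (below it) of depth at least `M` -/
def Gd (M : ℕ) : RT → ℕ → Prop
  | .one, _ => False
  | .gr s t, u => (M ≤ u ∧ M ≤ s.dep ∧ M ≤ t.dep + 1) ∨ Gd M s u ∨ Gd M t (u + 1)

/-- the number `M` for at most 399 leaves -/
def MM : ℕ := 30001 * 400

end Pool.Agent.Lib.MP_dbb03c_co
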