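import Pool.Agent.Lib.MP_dbb03c_co.Gr1

/-! # The graphs of rooted trees are trees -/

set_option autoImplicit false

namespace Pool.Agent.Lib.MP_dbb03c_co

open SimpleGraph in
/-- Joining two trees by an edge gives a tree (edge count). -/
private theorem isTree_joinB {V W : Type} [Finite V] [Finite W] {G : SimpleGraph V}
    {H : SimpleGraph W} (hG : G.IsTree) (hH : H.IsTree) (v : V) (w : W) :
    ((SimpleGraph.sum G H) ⊔ SimpleGraph.edge (Sum.inl v) (Sum.inr w)).IsTree := by
  rw [isTree_iff_connected_and_card] at hG hH ⊢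
  refine ⟨hG.1.sum_sup_edge hH.1, ?_⟩
  have hne : (Sum.inl v : V ⊕ W) ≠ Sum.inr w := Sum.inl_ne_inr
  have hn : s((Sum.inl v : V ⊕ W), Sum.inr w) ∉ (SimpleGraph.sum G H).edgeSet := by
    rw [mem_edgeSet]
    exact not_adj_sum_inl_inr v w
  have h1 : ((SimpleGraph.sum G H) ⊔ SimpleGraph.edge (Sum.inl v) (Sum.inr w)).edgeSet =
      insert s((Sum.inl v : V ⊕ W), Sum.inr w) (SimpleGraph.sum G H).edgeSet := by
    rw [edgeSet_sup, edgeSet_edge_of_ne hne, Set.union_comm]
    rfl
  have h2 : Nat.card (SimpleGraph.sum G H).edgeSet = Nat.card G.edgeSet + Nat.card H.edgeSet := by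
    rw [Nat.card_congr (edgeSetSumEquiv (G := G) (H := H)), Nat.card_sum]
  have h3 : Nat.card ((SimpleGraph.sum G H) ⊔
      SimpleGraph.edge (Sum.inl v) (Sum.inr w)).edgeSet =
      Nat.card (SimpleGraph.sum G H).edgeSet + 1 := by
    rw [h1, Nat.card_coe_set_eq, Nat.card_coe_set_eq, Set.ncard_insert_of_notMem hn]
  rw [h3, h2, Nat.card_sum]
  have := hG.2
  have := hH.2
  omega

namespace RT

private theorem G_gr (s t : RT) : (gr s t).G =
    (SimpleGraph.sum s.G t.G) ⊔ SimpleGraph.edge (Sum.inl s.root) (Sum.inr t.root) := by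
  ext a b
  rcases a with a | a <;> rcases b with b | b
  · simp [adj_ll, SimpleGraph.edge_adj]
  · simp [adj_lr, SimpleGraph.edge_adj]
  · simp [adj_rl, SimpleGraph.edge_adj, and_comm]
  · simp [adj_rr, SimpleGraph.edge_adj]

/-- for instance through the number of edges (`isTree_iff_connected_and_card`) -/
theorem isTree (t : RT) : t.G.IsTree := by
  induction t with
  | one =>
    have : Nonempty (RT.V one) := ⟨()⟩
    have : Subsingleton (RT.V one) := inferInstanceAs (Subsingleton Unit)
    exact SimpleGraph.IsTree.of_subsingleton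
  | gr s t ihs iht =>
    rw [G_gr]
    exact isTree_joinB ihs iht s.root t.root

end RT

end Pool.Agent.Lib.MP_dbb03c_co
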