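import Pool.Agent.Lib.MP_dbb03c_co.Gr3

/-! # Depth and diameter (inductions with `dist_ll`, `dist_rr`, `dist_lr`) -/

set_option autoImplicit false

namespace Pool.Agent.Lib.MP_dbb03c_co

namespace RT

theorem dist_root_le (t : RT) (v : t.V) : t.G.dist t.root v ≤ t.dep := by
  induction t with
  | one =>
    have h : (one.root : one.V) = v := rfl
    rw [← h, SimpleGraph.dist_self]
    exact Nat.zero_le _
  | gr s t ihs iht =>
    rcases v with a | b
    · have h := ihs a
      have e : (gr s t).G.dist (gr s t).root (Sum.inl a) = s.G.dist s.root a :=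
        dist_ll s t s.root a
      have hd : (gr s t).dep = max s.dep (t.dep + 1) := rfl
      rw [e, hd]
      omega
    · have h := iht b
      have e : (gr s t).G.dist (gr s t).root (Sum.inr b) =
          s.G.dist s.root s.root + 1 + t.G.dist t.root b :=
        dist_lr s t s.root b
      have hd : (gr s t).dep = max s.dep (t.dep + 1) := rfl
      rw [e, hd, SimpleGraph.dist_self]
      omega

theorem dist_le (t : RT) (u v : t.V) : t.G.dist u v ≤ t.rd := by
  induction t with
  | one =>
    have h : u = v := rfl
    rw [h, SimpleGraph.dist_self]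
    exact Nat.zero_le _
  | gr s t ihs iht =>
    have hd : (gr s t).rd = max s.rd (max t.rd (s.dep + t.dep + 1)) := rfl
    have key : ∀ (a : s.V) (b : t.V), (gr s t).G.dist (Sum.inl a) (Sum.inr b) ≤ (gr s t).rd := by
      intro a b
      have h1 := dist_root_le s a
      have h2 := dist_root_le t b
      have e := dist_lr s t a b
      rw [SimpleGraph.dist_comm] at h1
      rw [e, hd]
      omega
    rcases u with a | b
    · rcases v with a' | b'
      · have h := ihs a a'
        have e := dist_ll s t a a'
        refine e.trans_le ?_
        rw [hd]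
        omega
      · exact key a b'
    · rcases v with a' | b'
      · have h := key a' b
        rw [SimpleGraph.dist_comm] at h
        exact h
      · have h := iht b b'
        have e := dist_rr s t b b'
        refine e.trans_le ?_
        rw [hd]
        omega

theorem exists_dist_dep (t : RT) : ∃ v, t.G.dist t.root v = t.dep := by
  induction t with
  | one => exact ⟨one.root, SimpleGraph.dist_self⟩
  | gr s t ihs iht =>
    obtain ⟨a, ha⟩ := ihs
    obtain ⟨b, hb⟩ := iht
    have hd : (gr s t).dep = max s.dep (t.dep + 1) := rfl
    rcases le_total (t.dep + 1) s.dep with h | h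
    · refine ⟨Sum.inl a, ?_⟩
      have e : (gr s t).G.dist (gr s t).root (Sum.inl a) = s.G.dist s.root a :=
        dist_ll s t s.root a
      rw [e, hd]
      omega
    · refine ⟨Sum.inr b, ?_⟩
      have e : (gr s t).G.dist (gr s t).root (Sum.inr b) =
          s.G.dist s.root s.root + 1 + t.G.dist t.root b :=
        dist_lr s t s.root b
      rw [e, hd, SimpleGraph.dist_self]
      omega

theorem exists_dist_rd (t : RT) : ∃ u v, t.G.dist u v = t.rd := by
  induction t with
  | one => exact ⟨one.root, one.root, SimpleGraph.dist_self⟩
  | gr s t ihs iht =>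
    obtain ⟨a, a', ha⟩ := ihs
    obtain ⟨b, b', hb⟩ := iht
    obtain ⟨c, hc⟩ := exists_dist_dep s
    obtain ⟨d, hd'⟩ := exists_dist_dep t
    have hd : (gr s t).rd = max s.rd (max t.rd (s.dep + t.dep + 1)) := rfl
    rcases le_total (max t.rd (s.dep + t.dep + 1)) s.rd with h | h
    · refine ⟨Sum.inl a, Sum.inl a', ?_⟩
      have e := dist_ll s t a a'
      refine e.trans ?_
      rw [hd]
      omega
    · rcases le_total (s.dep + t.dep + 1) t.rd with h' | h'
      · refine ⟨Sum.inr b, Sum.inr b', ?_⟩
        have e := dist_rr s t b b'
        refine e.trans ?_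
        rw [hd]
        omega
      · refine ⟨Sum.inl c, Sum.inr d, ?_⟩
        have e := dist_lr s t c d
        rw [SimpleGraph.dist_comm] at hc
        refine e.trans ?_
        rw [hd]
        omega

end RT

end Pool.Agent.Lib.MP_dbb03c_co
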