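import Pool.Agent.Lib.MP_dbb03c_co.Stmt

/-! # A second leaf -/

set_option autoImplicit false

namespace Pool.Agent.Lib.MP_dbb03c_co

/-- a finite tree with at least two vertices has a leaf different from a given vertex: the sum of
the degrees is `2 n - 2` -/
theorem exists_leaf_ne {W : Type} [Fintype W] (T : SimpleGraph W) (hT : T.IsTree) (r : W)
    (h : 1 < Fintype.card W) : ∃ l u : W, l ≠ r ∧ ∀ x, T.Adj l x ↔ x = u := by
  classical
  have : Nontrivial W := Fintype.one_lt_card_iff_nontrivial.1 h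
  have key : ∀ l : W, T.degree l = 1 → ∃ u : W, ∀ x, T.Adj l x ↔ x = u := by
    intro l hl
    obtain ⟨u, hu, hu'⟩ := SimpleGraph.degree_eq_one_iff_existsUnique_adj.1 hl
    exact ⟨u, fun x => ⟨fun hx => hu' x hx, fun hx => hx ▸ hu⟩⟩
  obtain ⟨u, v, huv, hu, hv⟩ := hT.exists_ne_and_degree_eq_one
  by_cases hur : u = r
  · obtain ⟨w, hw⟩ := key v hv
    exact ⟨v, w, fun hvr => huv (hur.trans hvr.symm), hw⟩
  · obtain ⟨w, hw⟩ := key u hu
    exact ⟨u, w, hur, hw⟩

end Pool.Agent.Lib.MP_dbb03c_co
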