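import Pool.Agent.Lib.MP_dbb03c_co.Stmt

/-! # Removing a leaf -/

set_option autoImplicit false

namespace Pool.Agent.Lib.MP_dbb03c_co

/-- removing a leaf from a tree leaves a tree
(`SimpleGraph.Connected.induce_compl_singleton_of_degree_eq_one`) -/
theorem isTree_remove {W : Type} [Fintype W] (T : SimpleGraph W) (hT : T.IsTree) {l u : W}
    (h : ∀ x, T.Adj l x ↔ x = u) : (T.induce {x | x ≠ l}).IsTree := by
  classical
  have hd : T.degree l = 1 := by
    rw [SimpleGraph.degree_eq_one_iff_existsUnique_adj]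
    exact ⟨u, (h u).2 rfl, fun y hy => (h y).1 hy⟩
  have hc := hT.connected.induce_compl_singleton_of_degree_eq_one hd
  have hs : ({l}ᶜ : Set W) = {x | x ≠ l} := by
    ext x
    simp
  rw [hs] at hc
  exact ⟨hc, hT.isAcyclic.induce _⟩

end Pool.Agent.Lib.MP_dbb03c_co
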