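import Pool.Agent.Lib.MP_dbb03c_co.Rep1
import Pool.Agent.Lib.MP_dbb03c_co.Rep2
import Pool.Agent.Lib.MP_dbb03c_co.Rep3

/-! # Every finite tree with a root is the graph of some `RT` -/

set_option autoImplicit false

namespace Pool.Agent.Lib.MP_dbb03c_co

/-- induction on the number of vertices -/
theorem exists_rt : ∀ (n : ℕ) {W : Type} [Fintype W] (T : SimpleGraph W), T.IsTree →
    Fintype.card W = n → ∀ r : W, ∃ (t : RT) (e : W ≃ t.V),
      (∀ a b, t.G.Adj (e a) (e b) ↔ T.Adj a b) ∧ e r = t.root := by
  intro n
  induction n with
  | zero =>
    intro W _ T hT hc r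
    exact absurd hc (Fintype.card_pos_iff.2 ⟨r⟩).ne'
  | succ n ih =>
    intro W _ T hT hc r
    rcases Nat.eq_zero_or_pos n with hn | hn
    · subst hn
      have hu : ∀ a : W, a = r := fun a => Fintype.card_le_one_iff.1 (by omega) a r
      refine ⟨RT.one, ⟨fun _ => (), fun _ => r, fun a => (hu a).symm, fun _ => rfl⟩, ?_, rfl⟩
      intro a b
      rw [hu a, hu b]
      exact ⟨fun h => absurd rfl h.ne, fun h => absurd rfl h.ne⟩
    · classical
      obtain ⟨l, u, hlr, hlu⟩ := exists_leaf_ne T hT r (by omega)
      have hul : u ≠ l := fun h => T.loopless.irrefl l ((hlu l).2 h.symm)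
      have hT' := isTree_remove T hT hlu
      have hc' : Fintype.card {x | x ≠ l} = n := by
        have h1 : Fintype.card {x | x ≠ l} = Fintype.card W - 1 := by
          convert Set.card_ne_eq l
        rw [h1, hc, Nat.add_sub_cancel]
      obtain ⟨t, e, he, hr⟩ := ih (T.induce {x | x ≠ l}) hT' hc' ⟨r, hlr.symm⟩
      obtain ⟨f, hf1, hf2, hf3⟩ := RT.add_equiv t (e ⟨u, hul⟩)
      let g : W ≃ Option {x | x ≠ l} :=
        { toFun := fun a => if h : a = l then none else some ⟨a, h⟩
          invFun := fun o => o.elim l (fun a => a.1)
          left_inv := fun a => by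
            by_cases h : a = l
            · simp [h]
            · simp [h]
          right_inv := fun o => by
            cases o with
            | none => simp
            | some a =>
              have : a.1 ≠ l := a.2
              simp [this] }
      have gl : g l = none := by simp [g]
      have gs : ∀ (a : W) (h : a ≠ l), g a = some ⟨a, h⟩ := fun a h => by simp [g, h]
      refine ⟨t.add (e ⟨u, hul⟩), (g.trans (Equiv.optionCongr e)).trans f, ?_, ?_⟩
      · intro a b
        simp only [Equiv.trans_apply]
        by_cases ha : a = l
        · by_cases hb : b = l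
          · subst ha
            rw [hb]
            exact ⟨fun h => absurd rfl h.ne, fun h => absurd rfl h.ne⟩
          · subst ha
            rw [gl, gs b hb]
            simp only [Equiv.optionCongr_apply, Option.map_none, Option.map_some]
            rw [SimpleGraph.adj_comm, hf3, hlu, e.injective.eq_iff]
            simp
        · by_cases hb : b = l
          · subst hb
            rw [gl, gs a ha]
            simp only [Equiv.optionCongr_apply, Option.map_none, Option.map_some]
            rw [hf3, T.adj_comm, hlu, e.injective.eq_iff]
            simp
          · rw [gs a ha, gs b hb]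
            simp only [Equiv.optionCongr_apply, Option.map_some]
            rw [hf2, he]
            rfl
      · simp only [Equiv.trans_apply]
        rw [gs r hlr.symm]
        simp only [Equiv.optionCongr_apply, Option.map_some]
        rw [← hf1]
        exact congrArg (fun x => f (some x)) hr

end Pool.Agent.Lib.MP_dbb03c_co
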