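import Pool.Agent.Lib.MP_dbb03c_co.Gr1

/-! # Numbers of colourings of rooted trees -/

set_option autoImplicit false

namespace Pool.Agent.Lib.MP_dbb03c_co

/-- colourings with a prescribed colour of the root -/
theorem homR_one {V : Type} [Finite V] (A : V → V → Prop) (c : V) :
    Nat.card {f : RT.one.V → V // (∀ a b, RT.one.G.Adj a b → A (f a) (f b)) ∧
      f RT.one.root = c} = 1 := by
  classical
  have hc : ∀ a b, RT.one.G.Adj a b → A (((fun _ => c) : RT.one.V → V) a)
      (((fun _ => c) : RT.one.V → V) b) := fun a b h => (h : False).elim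
  rw [Nat.card_eq_one_iff_unique]
  refine ⟨⟨fun f g => ?_⟩, ⟨⟨fun _ => c, hc, rfl⟩⟩⟩
  apply Subtype.ext
  funext x
  have hx : x = RT.one.root := rfl
  rw [hx, f.2.2, g.2.2]

open Classical in
/-- a colouring of `gr s t` is a pair of colourings with adjacent colours of the roots -/
theorem homR_gr {V : Type} [Fintype V] (A : V → V → Prop) (hA : ∀ a b, A a b → A b a) (s t : RT)
    (c : V) :
    Nat.card {f : (RT.gr s t).V → V // (∀ a b, (RT.gr s t).G.Adj a b → A (f a) (f b)) ∧
      f (RT.gr s t).root = c} =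
    Nat.card {f : s.V → V // (∀ a b, s.G.Adj a b → A (f a) (f b)) ∧ f s.root = c} *
      ∑ d : V, if A c d then
        Nat.card {f : t.V → V // (∀ a b, t.G.Adj a b → A (f a) (f b)) ∧ f t.root = d} else 0 := by
  set PS : (s.V → V) → Prop := fun f => (∀ a b, s.G.Adj a b → A (f a) (f b)) ∧ f s.root = c
    with hPS
  set PT : (t.V → V) → Prop := fun g => (∀ a b, t.G.Adj a b → A (g a) (g b)) ∧ A c (g t.root)
    with hPT
  have e : {f : (RT.gr s t).V → V // (∀ a b, (RT.gr s t).G.Adj a b → A (f a) (f b)) ∧
      f (RT.gr s t).root = c} ≃ {f : s.V → V // PS f} × {g : t.V → V // PT g} :=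
    { toFun := fun f =>
        (⟨fun a => f.1 (Sum.inl a), fun a b h => f.2.1 (Sum.inl a) (Sum.inl b)
            ((RT.adj_ll s t a b).2 h), f.2.2⟩,
         ⟨fun b => f.1 (Sum.inr b), fun a b h => f.2.1 (Sum.inr a) (Sum.inr b)
            ((RT.adj_rr s t a b).2 h), by
            have h := f.2.1 (Sum.inl s.root) (Sum.inr t.root)
              ((RT.adj_lr s t s.root t.root).2 ⟨rfl, rfl⟩)
            have h2 : f.1 (Sum.inl s.root) = c := f.2.2
            rw [h2] at h
            exact h⟩)
      invFun := fun p => ⟨fun x => Sum.elim p.1.1 p.2.1 x, by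
        refine ⟨?_, p.1.2.2⟩
        rintro (a | a) (b | b) h
        · exact p.1.2.1 a b ((RT.adj_ll s t a b).1 h)
        · obtain ⟨h1, h2⟩ := (RT.adj_lr s t a b).1 h
          subst h1 h2
          have h3 := p.1.2.2
          show A (p.1.1 s.root) (p.2.1 t.root)
          rw [h3]
          exact p.2.2.2
        · obtain ⟨h1, h2⟩ := (RT.adj_rl s t a b).1 h
          subst h1 h2
          have h3 := p.1.2.2
          show A (p.2.1 t.root) (p.1.1 s.root)
          rw [h3]
          exact hA _ _ p.2.2.2
        · exact p.2.2.1 a b ((RT.adj_rr s t a b).1 h)⟩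
      left_inv := fun f => by
        apply Subtype.ext
        funext x
        rcases x with a | a <;> rfl
      right_inv := fun p => by
        rfl }
  rw [Nat.card_congr e, Nat.card_prod]
  congr 1
  have : Finite t.V := inferInstance
  let F : {g : t.V → V // PT g} → V := fun g => g.1 t.root
  have e2 := Equiv.sigmaFiberEquiv F
  rw [← Nat.card_congr e2, Nat.card_sigma]
  refine Finset.sum_congr rfl fun d _ => ?_
  split_ifs with h
  · refine Nat.card_congr
      { toFun := fun x => ⟨x.1.1, x.1.2.1, x.2⟩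
        invFun := fun x => ⟨⟨x.1, x.2.1, by rw [x.2.2]; exact h⟩, x.2.2⟩
        left_inv := fun x => rfl
        right_inv := fun x => rfl }
  · have : IsEmpty {x : {g : t.V → V // PT g} // F x = d} :=
      ⟨fun x => h (by have h1 := x.1.2.2; have h2 : x.1.1 t.root = d := x.2; rw [h2] at h1; exact h1)⟩
    exact Nat.card_of_isEmpty

end Pool.Agent.Lib.MP_dbb03c_co
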