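import Pool.Agent.Lib.MP_dbb03c_co.Stmt

/-! # Invariance under isomorphism -/

set_option autoImplicit false

namespace Pool.Agent.Lib.MP_dbb03c_co

theorem hom_congr {W W' V : Type} (A : V → V → Prop) {G : SimpleGraph W} {G' : SimpleGraph W'}
    (e : W ≃ W') (h : ∀ a b, G'.Adj (e a) (e b) ↔ G.Adj a b) : hom G A = hom G' A := by
  unfold hom
  refine Nat.card_congr ⟨fun f => ⟨fun w => f.1 (e.symm w), fun a b hab => f.2 _ _ ?_⟩,
    fun f => ⟨fun w => f.1 (e w), fun a b hab => f.2 _ _ ((h a b).2 hab)⟩, ?_, ?_⟩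
  · rw [← h, e.apply_symm_apply, e.apply_symm_apply]
    exact hab
  · intro f
    apply Subtype.ext
    funext w
    show f.1 (e.symm (e w)) = f.1 w
    rw [e.symm_apply_apply]
  · intro f
    apply Subtype.ext
    funext w
    show f.1 (e (e.symm w)) = f.1 w
    rw [e.apply_symm_apply]

private theorem h4_dist_le {W W' : Type} {G : SimpleGraph W} {G' : SimpleGraph W'}
    (f : G →g G') {a b : W} (hr : G.Reachable a b) : G'.dist (f a) (f b) ≤ G.dist a b := by
  obtain ⟨p, hp⟩ := hr.exists_walk_length_eq_dist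
  rw [← hp, ← SimpleGraph.Walk.length_map f p]
  exact SimpleGraph.dist_le _

theorem dist_congr {W W' : Type} {G : SimpleGraph W} {G' : SimpleGraph W'}
    (e : W ≃ W') (h : ∀ a b, G'.Adj (e a) (e b) ↔ G.Adj a b) (a b : W) :
    G'.dist (e a) (e b) = G.dist a b := by
  let i : G ≃g G' := ⟨e, fun {a b} => h a b⟩
  by_cases hr : G.Reachable a b
  · have hr' : G'.Reachable (e a) (e b) := hr.map i.toHom
    refine le_antisymm (h4_dist_le i.toHom hr) ?_
    have h1 := h4_dist_le i.symm.toHom hr'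
    have h2 : ∀ w, i.symm.toHom (e w) = w := fun w => i.symm_apply_apply w
    rwa [h2, h2] at h1
  · have hr' : ¬ G'.Reachable (e a) (e b) := by
      intro hc
      apply hr
      have h1 := hc.map i.symm.toHom
      have h2 : ∀ w, i.symm.toHom (e w) = w := fun w => i.symm_apply_apply w
      rwa [h2, h2] at h1
    rw [SimpleGraph.dist_eq_zero_of_not_reachable hr,
      SimpleGraph.dist_eq_zero_of_not_reachable hr']

theorem isTree_congr {W W' : Type} {G : SimpleGraph W} {G' : SimpleGraph W'}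
    (e : W ≃ W') (h : ∀ a b, G'.Adj (e a) (e b) ↔ G.Adj a b) : G.IsTree ↔ G'.IsTree := by
  let i : G ≃g G' := ⟨e, fun {a b} => h a b⟩
  rw [SimpleGraph.isTree_iff, SimpleGraph.isTree_iff, i.connected_iff, i.isAcyclic_iff]

end Pool.Agent.Lib.MP_dbb03c_co
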