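import Pool.Agent.Lib.MP_dbb03c_co.Hom3
import Pool.Agent.Lib.MP_dbb03c_co.Hom4

/-! # Paths -/

set_option autoImplicit false

namespace Pool.Agent.Lib.MP_dbb03c_co

/-- the path with `n + 1` vertices as an `RT` -/
def pt : ℕ → RT
  | 0 => RT.one
  | n + 1 => RT.gr RT.one (pt n)

theorem pt_equiv (n : ℕ) : ∃ e : Fin (n + 1) ≃ (pt n).V,
    (∀ a b, (pt n).G.Adj (e a) (e b) ↔ (SimpleGraph.pathGraph (n + 1)).Adj a b) ∧
      e 0 = (pt n).root := by
  induction n with
  | zero =>
    let e : Fin 1 ≃ Unit :=
      { toFun := fun _ => ()
        invFun := fun _ => 0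
        left_inv := fun _ => Subsingleton.elim _ _
        right_inv := fun _ => rfl }
    refine ⟨e, fun a b => ?_, rfl⟩
    have hab : a = b := Fin.ext (by omega)
    subst hab
    exact ⟨fun h => ((SimpleGraph.irrefl _) h).elim, fun h => ((SimpleGraph.irrefl _) h).elim⟩
  | succ n ih =>
    obtain ⟨e, he, h0⟩ := ih
    let e' : Fin (n + 2) ≃ (pt (n + 1)).V :=
      { toFun := fun i => Fin.cases (motive := fun _ => Unit ⊕ (pt n).V) (Sum.inl ())
          (fun i => Sum.inr (e i)) i
        invFun := fun v => Sum.elim (fun _ : Unit => (0 : Fin (n + 2)))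
          (fun v => (e.symm v).succ) v
        left_inv := by
          intro i
          refine Fin.cases ?_ (fun i => ?_) i
          · rfl
          · simp
        right_inv := by
          intro v
          rcases v with v | v
          · rfl
          · exact congrArg Sum.inr (e.apply_symm_apply v) }
    have c0 : e' 0 = (Sum.inl () : Unit ⊕ (pt n).V) := rfl
    have cs : ∀ i : Fin (n + 1), e' i.succ = (Sum.inr (e i) : Unit ⊕ (pt n).V) := fun _ => rfl
    have hr : ∀ i : Fin (n + 1), e i = (pt n).root ↔ i = 0 := by
      intro i
      rw [← h0]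
      exact e.injective.eq_iff
    refine ⟨e', fun a b => ?_, c0⟩
    rw [SimpleGraph.pathGraph_adj]
    refine Fin.cases ?_ (fun a => ?_) a
    · refine Fin.cases ?_ (fun b => ?_) b
      · constructor
        · intro h
          exact (SimpleGraph.irrefl _ h).elim
        · intro h
          simp at h
      · rw [c0, cs]
        refine (RT.adj_lr RT.one (pt n) () (e b)).trans ?_
        rw [hr b]
        constructor
        · rintro ⟨_, h⟩
          subst h
          left
          simp
        · intro h
          refine ⟨rfl, ?_⟩
          rcases h with h | h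
          · ext
            simp only [Fin.val_zero, Fin.val_succ] at h ⊢
            omega
          · simp at h
    · refine Fin.cases ?_ (fun b => ?_) b
      · rw [c0, cs]
        refine (RT.adj_rl RT.one (pt n) (e a) ()).trans ?_
        constructor
        · intro h
          have h1 : e a = (pt n).root := by tauto
          rw [hr a] at h1
          subst h1
          right
          simp
        · intro h
          have h1 : a = 0 := by
            rcases h with h | h
            · simp at h
            · ext
              simp only [Fin.val_zero, Fin.val_succ] at h ⊢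
              omega
          have h2 := (hr a).2 h1
          exact ⟨rfl, h2⟩
      · rw [cs, cs]
        refine (RT.adj_rr RT.one (pt n) (e a) (e b)).trans ?_
        rw [he a b, SimpleGraph.pathGraph_adj]
        simp only [Fin.val_succ]
        omega

theorem vec_pt (n : ℕ) : vec (pt n) = BB^[n] e1 := by
  induction n with
  | zero => rfl
  | succ n ih =>
    rw [Function.iterate_succ_apply', ← ih]
    have h1 : vec (pt (n + 1)) = vec RT.one * BB (vec (pt n)) := rfl
    rw [h1]
    funext i
    simp [vec, e1]

private theorem sz_pt (n : ℕ) : (pt n).sz = n + 1 := by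
  induction n with
  | zero => rfl
  | succ n ih =>
    have h3 : (pt (n + 1)).sz = 1 + (pt n).sz := rfl
    rw [h3, ih]
    ring

theorem hom_path (n : ℕ) : (hom (SimpleGraph.pathGraph (n + 1)) (HatAdj 400 3 800) : ℝ) =
    lam ^ n * ip e1 (BB^[n] e1) := by
  obtain ⟨e, he, _⟩ := pt_equiv n
  have h1 : hom (SimpleGraph.pathGraph (n + 1)) (HatAdj 400 3 800) =
      hom (pt n).G (HatAdj 400 3 800) := hom_congr _ e he
  have h2 := sz_pt n
  rw [h1, hom_rt' (pt n), vec_pt, h2, Nat.add_sub_cancel]

end Pool.Agent.Lib.MP_dbb03c_co
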