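import Pool.Agent.Lib.MP_dbb03c_co.RT

/-! # Functions of the level; the transfer operator; eigenvalues and eigenvectors -/

set_option autoImplicit false

namespace Pool.Agent.Lib.MP_dbb03c_co

/-- functions of the level (depth 0, 1, 2, 3) -/
abbrev V4 : Type := Fin 4 → ℝ

/-- the adjacency operator of `T̂(400,3,800)` on functions of the level -/
def AA (x : V4) : V4 := ![x 0 + 400 * x 1, x 0 + 3 * x 2, x 1 + 800 * x 3, x 2]

/-- the scalar product of two functions of the level -/
def ip (x y : V4) : ℝ :=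
  x 0 * y 0 + 400 * (x 1 * y 1) + 1200 * (x 2 * y 2) + 960000 * (x 3 * y 3)

/-- the constant function 1 -/
def e1 : V4 := fun _ => 1

/-- The spectral radius: a root of the characteristic polynomial (intermediate value theorem). -/
theorem exists_lam : ∃ l : ℝ, 28.3932461189 < l ∧ l < 28.393246119 ∧
    l ^ 4 - l ^ 3 - 1203 * l ^ 2 + 803 * l + 320000 = 0 := by
  have hc : ContinuousOn (fun l : ℝ => l ^ 4 - l ^ 3 - 1203 * l ^ 2 + 803 * l + 320000)
      (Set.Icc 28.3932461189 28.393246119) := by fun_prop
  obtain ⟨l, hl, h⟩ := intermediate_value_Ioo (by norm_num) hc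
    (show (0 : ℝ) ∈ Set.Ioo _ _ by constructor <;> norm_num)
  exact ⟨l, hl.1, hl.2, h⟩

/-- Minus the second eigenvalue (intermediate value theorem). -/
theorem exists_mu : ∃ m : ℝ, 28.38598283701 < m ∧ m < 28.38598283702 ∧
    m ^ 4 + m ^ 3 - 1203 * m ^ 2 - 803 * m + 320000 = 0 := by
  have hc : ContinuousOn (fun m : ℝ => m ^ 4 + m ^ 3 - 1203 * m ^ 2 - 803 * m + 320000)
      (Set.Icc 28.38598283701 28.38598283702) := by fun_prop
  obtain ⟨m, hm, h⟩ := intermediate_value_Ioo (by norm_num) hc
    (show (0 : ℝ) ∈ Set.Ioo _ _ by constructor <;> norm_num)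
  exact ⟨m, hm.1, hm.2, h⟩

/-- the spectral radius -/
noncomputable def lam : ℝ := exists_lam.choose

/-- minus the smallest eigenvalue -/
noncomputable def mu : ℝ := exists_mu.choose

theorem lam_lo : 28.3932461189 < lam := exists_lam.choose_spec.1

theorem lam_hi : lam < 28.393246119 := exists_lam.choose_spec.2.1

theorem lam_eq : lam ^ 4 - lam ^ 3 - 1203 * lam ^ 2 + 803 * lam + 320000 = 0 :=
  exists_lam.choose_spec.2.2

theorem mu_lo : 28.38598283701 < mu := exists_mu.choose_spec.1

theorem mu_hi : mu < 28.38598283702 := exists_mu.choose_spec.2.1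

theorem mu_eq : mu ^ 4 + mu ^ 3 - 1203 * mu ^ 2 - 803 * mu + 320000 = 0 :=
  exists_mu.choose_spec.2.2

/-- the normalised operator -/
noncomputable def BB (x : V4) : V4 := fun i => AA x i / lam

/-- the positive eigenvector -/
noncomputable def ph : V4 := ![lam ^ 3 - 803 * lam, lam ^ 2 - 800, lam, 1]

/-- the second eigenvector: `BB ps = -(mu/lam) ps` -/
noncomputable def ps : V4 := ![-(mu ^ 3 - 803 * mu), mu ^ 2 - 800, -mu, 1]

/-- the squared norm of `ph` -/
noncomputable def NN : ℝ := ip ph ph

/-- number of colourings with the root at a given level -/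
def hv : RT → V4
  | .one => e1
  | .gr s t => hv s * AA (hv t)

/-- `hv` divided by `lam ^ (sz - 1)` -/
noncomputable def vec : RT → V4
  | .one => e1
  | .gr s t => vec s * BB (vec t)

end Pool.Agent.Lib.MP_dbb03c_co
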