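import Pool.Agent.Lib.MP_dbb03c_co.Vec

/-! # Sums over the vertices of `T(400,3,800)` -/

set_option autoImplicit false

namespace Pool.Agent.Lib.MP_dbb03c_co

/-- the level of a vertex of `T(x,y,z)` -/
def TV.lev {x y z : ℕ} : TV x y z → Fin 4
  | .d0 => 0
  | .d1 _ => 1
  | .d2 _ _ => 2
  | .d3 _ _ _ => 3

/-- `T(x,y,z)` as a disjoint union -/
private def eqv (x y z : ℕ) :
    (Unit ⊕ (Fin x ⊕ ((Fin x × Fin y) ⊕ (Fin x × Fin y × Fin z)))) ≃ TV x y z where
  toFun := fun a => match a with
    | .inl _ => .d0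
    | .inr (.inl i) => .d1 i
    | .inr (.inr (.inl (i, j))) => .d2 i j
    | .inr (.inr (.inr (i, j, k))) => .d3 i j k
  invFun := fun a => match a with
    | .d0 => .inl ()
    | .d1 i => .inr (.inl i)
    | .d2 i j => .inr (.inr (.inl (i, j)))
    | .d3 i j k => .inr (.inr (.inr (i, j, k)))
  left_inv := by
    rintro (_ | _ | ⟨_, _⟩ | ⟨_, _, _⟩) <;> rfl
  right_inv := by
    rintro (_ | _ | _ | _) <;> rfl

instance TV.fin (x y z : ℕ) : Finite (TV x y z) :=
  Finite.of_equiv _ (eqv x y z)

private theorem sum_TV {x y z : ℕ} [Fintype (TV x y z)] (g : TV x y z → ℝ) :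
    (∑ d : TV x y z, g d) = g .d0 + (∑ i : Fin x, g (.d1 i)) +
      (∑ i : Fin x, ∑ j : Fin y, g (.d2 i j)) +
      (∑ i : Fin x, ∑ j : Fin y, ∑ k : Fin z, g (.d3 i j k)) := by
  rw [← Equiv.sum_comp (eqv x y z) g]
  rw [Fintype.sum_sum_type, Fintype.sum_sum_type, Fintype.sum_sum_type]
  rw [Fintype.sum_prod_type, Fintype.sum_prod_type]
  have h : ∀ i : Fin x, (∑ q : Fin y × Fin z, g (eqv x y z (.inr (.inr (.inr (i, q)))))) =
      ∑ j : Fin y, ∑ k : Fin z, g (.d3 i j k) := by
    intro i
    rw [Fintype.sum_prod_type]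
    rfl
  rw [Finset.sum_congr rfl (fun i _ => h i)]
  simp only [Finset.univ_unique, Finset.sum_singleton]
  simp only [eqv, Equiv.coe_fn_mk]
  ring

section adj

variable {x y z : ℕ}

private theorem adj00 : HatAdj x y z .d0 .d0 ↔ True := by
  simp [HatAdj]

private theorem adj01 (i : Fin x) : HatAdj x y z .d0 (.d1 i) ↔ True :=
  iff_true_intro (Or.inl (Child.c1 i))

private theorem adj02 (i : Fin x) (j : Fin y) : HatAdj x y z .d0 (.d2 i j) ↔ False := by
  constructor
  · rintro (h | h | ⟨_, h⟩)
    · cases h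
    · cases h
    · cases h
  · intro h; exact h.elim

private theorem adj03 (i : Fin x) (j : Fin y) (k : Fin z) :
    HatAdj x y z .d0 (.d3 i j k) ↔ False := by
  constructor
  · rintro (h | h | ⟨_, h⟩)
    · cases h
    · cases h
    · cases h
  · intro h; exact h.elim

private theorem adj10 (i : Fin x) : HatAdj x y z (.d1 i) .d0 ↔ True :=
  iff_true_intro (Or.inr (Or.inl (Child.c1 i)))

private theorem adj11 (i i' : Fin x) : HatAdj x y z (.d1 i) (.d1 i') ↔ False := by
  constructor
  · rintro (h | h | ⟨h, _⟩)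
    · cases h
    · cases h
    · cases h
  · intro h; exact h.elim

private theorem adj12 (i i' : Fin x) (j : Fin y) :
    HatAdj x y z (.d1 i) (.d2 i' j) ↔ i' = i := by
  constructor
  · rintro (h | h | ⟨h, _⟩)
    · cases h; rfl
    · cases h
    · cases h
  · rintro rfl; exact Or.inl (Child.c2 _ _)

private theorem adj13 (i i' : Fin x) (j : Fin y) (k : Fin z) :
    HatAdj x y z (.d1 i) (.d3 i' j k) ↔ False := by
  constructor
  · rintro (h | h | ⟨h, _⟩)
    · cases h
    · cases h
    · cases h
  · intro h; exact h.elim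

private theorem adj20 (i : Fin x) (j : Fin y) : HatAdj x y z (.d2 i j) .d0 ↔ False := by
  constructor
  · rintro (h | h | ⟨h, _⟩)
    · cases h
    · cases h
    · cases h
  · intro h; exact h.elim

private theorem adj21 (i i' : Fin x) (j : Fin y) :
    HatAdj x y z (.d2 i j) (.d1 i') ↔ i' = i := by
  constructor
  · rintro (h | h | ⟨h, _⟩)
    · cases h
    · cases h; rfl
    · cases h
  · rintro rfl; exact Or.inr (Or.inl (Child.c2 _ _))

private theorem adj22 (i i' : Fin x) (j j' : Fin y) :
    HatAdj x y z (.d2 i j) (.d2 i' j') ↔ False := by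
  constructor
  · rintro (h | h | ⟨h, _⟩)
    · cases h
    · cases h
    · cases h
  · intro h; exact h.elim

private theorem adj23 (i i' : Fin x) (j j' : Fin y) (k : Fin z) :
    HatAdj x y z (.d2 i j) (.d3 i' j' k) ↔ i' = i ∧ j' = j := by
  constructor
  · rintro (h | h | ⟨h, _⟩)
    · cases h; exact ⟨rfl, rfl⟩
    · cases h
    · cases h
  · rintro ⟨rfl, rfl⟩; exact Or.inl (Child.c3 _ _ _)

private theorem adj30 (i : Fin x) (j : Fin y) (k : Fin z) :
    HatAdj x y z (.d3 i j k) .d0 ↔ False := by
  constructor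
  · rintro (h | h | ⟨h, _⟩)
    · cases h
    · cases h
    · cases h
  · intro h; exact h.elim

private theorem adj31 (i i' : Fin x) (j : Fin y) (k : Fin z) :
    HatAdj x y z (.d3 i j k) (.d1 i') ↔ False := by
  constructor
  · rintro (h | h | ⟨h, _⟩)
    · cases h
    · cases h
    · cases h
  · intro h; exact h.elim

private theorem adj32 (i i' : Fin x) (j j' : Fin y) (k : Fin z) :
    HatAdj x y z (.d3 i j k) (.d2 i' j') ↔ i' = i ∧ j' = j := by
  constructor
  · rintro (h | h | ⟨h, _⟩)
    · cases h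
    · cases h; exact ⟨rfl, rfl⟩
    · cases h
  · rintro ⟨rfl, rfl⟩; exact Or.inr (Or.inl (Child.c3 _ _ _))

private theorem adj33 (i i' : Fin x) (j j' : Fin y) (k k' : Fin z) :
    HatAdj x y z (.d3 i j k) (.d3 i' j' k') ↔ False := by
  constructor
  · rintro (h | h | ⟨h, _⟩)
    · cases h
    · cases h
    · cases h
  · intro h; exact h.elim

end adj

open Classical in
/-- sums over the neighbours of a vertex of functions of the level -/
theorem sum_nbr [Fintype (TV 400 3 800)] (F : V4) (c : TV 400 3 800) :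
    (∑ d : TV 400 3 800, if HatAdj 400 3 800 c d then F d.lev else 0) = AA F c.lev := by
  rw [sum_TV]
  cases c with
  | d0 =>
    simp only [adj00, adj01, adj02, adj03, if_true, if_false, TV.lev, Finset.sum_const_zero,
      Finset.sum_const, Finset.card_univ, Fintype.card_fin, nsmul_eq_mul, AA]
    norm_num
  | d1 i =>
    simp only [adj10, adj11, adj12, adj13, if_true, if_false, TV.lev, Finset.sum_const_zero,
      Finset.sum_const, Finset.card_univ, Fintype.card_fin, nsmul_eq_mul, AA, mul_ite, mul_zero,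
      Finset.sum_ite_eq', Finset.mem_univ]
    norm_num
  | d2 i j =>
    simp only [adj20, adj21, adj22, adj23, if_true, if_false, TV.lev, Finset.sum_const_zero,
      Finset.sum_const, Finset.card_univ, Fintype.card_fin, nsmul_eq_mul, AA, mul_ite, mul_zero,
      Finset.sum_ite_eq', Finset.mem_univ, ite_and]
    have h : (∑ i' : Fin 400, ∑ j' : Fin 3, if i' = i then (if j' = j then
        ((800 : ℕ) : ℝ) * F 3 else 0) else 0) = 800 * F 3 := by
      rw [Finset.sum_eq_single i]
      · simp
      · intro b _ hb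
        simp [hb]
      · intro hh; exact absurd (Finset.mem_univ i) hh
    rw [h]
    simp
  | d3 i j k =>
    simp only [adj30, adj31, adj32, adj33, if_true, if_false, TV.lev, Finset.sum_const_zero,
      Finset.sum_const, Finset.card_univ, Fintype.card_fin, nsmul_eq_mul, AA, mul_ite, mul_zero,
      Finset.sum_ite_eq', Finset.mem_univ, ite_and]
    have h : (∑ i' : Fin 400, ∑ j' : Fin 3, if i' = i then (if j' = j then F 2 else 0) else 0)
        = F 2 := by
      rw [Finset.sum_eq_single i]
      · simp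
      · intro b _ hb
        simp [hb]
      · intro hh; exact absurd (Finset.mem_univ i) hh
    rw [h]
    simp

/-- sums over all vertices of functions of the level -/
theorem sum_all [Fintype (TV 400 3 800)] (F : V4) :
    (∑ d : TV 400 3 800, F d.lev) = ip e1 F := by
  rw [sum_TV]
  simp only [TV.lev, Finset.sum_const, Finset.card_univ, Fintype.card_fin, nsmul_eq_mul, ip, e1]
  push_cast
  ring

theorem hat_symm {x y z : ℕ} (a b : TV x y z) (h : HatAdj x y z a b) : HatAdj x y z b a := by
  rcases h with h | h | ⟨h1, h2⟩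
  · exact Or.inr (Or.inl h)
  · exact Or.inl h
  · exact Or.inr (Or.inr ⟨h2, h1⟩)

end Pool.Agent.Lib.MP_dbb03c_co
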