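import Pool.Agent.Lib.MP_dbb03c_co.RT

/-! # The graphs of rooted trees: basic facts -/

set_option autoImplicit false

namespace Pool.Agent.Lib.MP_dbb03c_co

namespace RT

noncomputable instance fintypeV : ∀ t : RT, Fintype t.V
  | one => inferInstanceAs (Fintype Unit)
  | gr s t => by
    haveI := fintypeV s
    haveI := fintypeV t
    exact inferInstanceAs (Fintype (s.V ⊕ t.V))

theorem card_V (t : RT) : Fintype.card t.V = t.sz := by
  induction t with
  | one => exact Fintype.card_unit
  | gr s t ihs iht =>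
    have h : Fintype.card (gr s t).V = Fintype.card (s.V ⊕ t.V) :=
      Fintype.card_congr (Equiv.refl _)
    rw [h, Fintype.card_sum, ihs, iht]
    rfl

theorem sz_pos (t : RT) : 0 < t.sz := by
  induction t with
  | one => exact Nat.one_pos
  | gr s t ihs iht => exact Nat.add_pos_left ihs _

theorem adj_ll (s t : RT) (a b : s.V) : (gr s t).G.Adj (Sum.inl a) (Sum.inl b) ↔ s.G.Adj a b :=
  Iff.rfl

theorem adj_rr (s t : RT) (a b : t.V) : (gr s t).G.Adj (Sum.inr a) (Sum.inr b) ↔ t.G.Adj a b :=
  Iff.rfl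

theorem adj_lr (s t : RT) (a : s.V) (b : t.V) :
    (gr s t).G.Adj (Sum.inl a) (Sum.inr b) ↔ a = s.root ∧ b = t.root :=
  Iff.rfl

theorem adj_rl (s t : RT) (a : t.V) (b : s.V) :
    (gr s t).G.Adj (Sum.inr a) (Sum.inl b) ↔ b = s.root ∧ a = t.root :=
  Iff.rfl

theorem connected (t : RT) : t.G.Connected := by
  induction t with
  | one =>
    refine (SimpleGraph.connected_iff _).mpr ⟨?_, ⟨(one : RT).root⟩⟩
    intro a b
    have : a = b := Subsingleton.elim (α := Unit) a b
    rw [this]
  | gr s t ihs iht =>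
    have h1 : ∀ a b : s.V, (gr s t).G.Reachable (Sum.inl a) (Sum.inl b) := by
      intro a b
      exact (ihs.preconnected a b).map
        (⟨Sum.inl, fun {a b} h => (adj_ll s t a b).mpr h⟩ : s.G →g (gr s t).G)
    have h2 : ∀ a b : t.V, (gr s t).G.Reachable (Sum.inr a) (Sum.inr b) := by
      intro a b
      exact (iht.preconnected a b).map
        (⟨Sum.inr, fun {a b} h => (adj_rr s t a b).mpr h⟩ : t.G →g (gr s t).G)
    have h3 : (gr s t).G.Reachable (Sum.inl s.root) (Sum.inr t.root) :=
      ((adj_lr s t s.root t.root).mpr ⟨rfl, rfl⟩).reachable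
    have h4 : ∀ (a : s.V) (b : t.V), (gr s t).G.Reachable (Sum.inl a) (Sum.inr b) :=
      fun a b => ((h1 a s.root).trans h3).trans (h2 t.root b)
    refine (SimpleGraph.connected_iff _).mpr ⟨?_, ⟨(gr s t).root⟩⟩
    intro x y
    rcases x with a | a
    · rcases y with b | b
      · exact h1 a b
      · exact h4 a b
    · rcases y with b | b
      · exact (h4 b a).symm
      · exact h2 a b

end RT

end Pool.Agent.Lib.MP_dbb03c_co
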