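import Pool.Agent.Lib.MP_dbb03c_co.Gr1

/-! # Distances

Upper bounds: map walks of `s.G`, `t.G` into `(gr s t).G`. Lower bounds: `le_dist_of_lip` with the
functions `inl x ↦ -(dist a x)`, `inr y ↦ -(dist a root + 1 + dist root y)` (and similar ones). -/

set_option autoImplicit false

namespace Pool.Agent.Lib.MP_dbb03c_co

private theorem walk_lip {W : Type} {G : SimpleGraph W} (f : W → ℤ)
    (hf : ∀ a b, G.Adj a b → |f a - f b| ≤ 1) {a b : W} (p : G.Walk a b) :
    f a - f b ≤ p.length := by
  induction p with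
  | nil => simp
  | cons h q ih =>
    have h1 := (abs_le.mp (hf _ _ h)).2
    rw [SimpleGraph.Walk.length_cons]
    push_cast
    linarith

private theorem dist_lip {W : Type} {G : SimpleGraph W} (hG : G.Connected) (c x y : W)
    (h : G.Adj x y) : |(G.dist x c : ℤ) - (G.dist y c : ℤ)| ≤ 1 := by
  have h1 : G.dist x c ≤ G.dist x y + G.dist y c := hG.dist_triangle
  have h2 : G.dist y c ≤ G.dist y x + G.dist x c := hG.dist_triangle
  have h3 : G.dist x y = 1 := SimpleGraph.dist_eq_one_iff_adj.mpr h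
  have h4 : G.dist y x = 1 := SimpleGraph.dist_eq_one_iff_adj.mpr h.symm
  rw [h3] at h1
  rw [h4] at h2
  rw [abs_le]
  constructor <;> omega

/-- a 1-Lipschitz function bounds the distance from below -/
theorem le_dist_of_lip {W : Type} {G : SimpleGraph W} (hG : G.Connected) (f : W → ℤ)
    (hf : ∀ a b, G.Adj a b → |f a - f b| ≤ 1) (a b : W) : f a - f b ≤ G.dist a b := by
  obtain ⟨p, hp⟩ := hG.exists_walk_length_eq_dist a b
  have h := walk_lip f hf p
  rw [hp] at h
  exact h

namespace RT

private theorem dist_map_le {W U : Type} {G : SimpleGraph W} {H : SimpleGraph U}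
    (hG : G.Connected) (φ : G →g H) (a b : W) : H.dist (φ a) (φ b) ≤ G.dist a b := by
  obtain ⟨p, hp⟩ := hG.exists_walk_length_eq_dist a b
  rw [← hp, ← SimpleGraph.Walk.length_map φ p]
  exact SimpleGraph.dist_le _

private theorem le_l (s t : RT) (a b : s.V) :
    (gr s t).G.dist (Sum.inl a) (Sum.inl b) ≤ s.G.dist a b :=
  dist_map_le s.connected
    (⟨Sum.inl, fun {a b} h => (adj_ll s t a b).mpr h⟩ : s.G →g (gr s t).G) a b

private theorem le_r (s t : RT) (a b : t.V) :
    (gr s t).G.dist (Sum.inr a) (Sum.inr b) ≤ t.G.dist a b :=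
  dist_map_le t.connected
    (⟨Sum.inr, fun {a b} h => (adj_rr s t a b).mpr h⟩ : t.G →g (gr s t).G) a b

theorem dist_ll (s t : RT) (a b : s.V) :
    (gr s t).G.dist (Sum.inl a) (Sum.inl b) = s.G.dist a b := by
  refine le_antisymm (le_l s t a b) ?_
  have h := le_dist_of_lip (gr s t).connected
    (fun z : s.V ⊕ t.V => Sum.elim (fun x => (s.G.dist x b : ℤ))
      (fun _ => (s.G.dist s.root b : ℤ)) z) ?_ (Sum.inl a) (Sum.inl b)
  · have h1 : (s.G.dist a b : ℤ) - (s.G.dist b b : ℤ)
        ≤ ((gr s t).G.dist (Sum.inl a) (Sum.inl b) : ℤ) := h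
    rw [SimpleGraph.dist_self] at h1
    push_cast at h1
    rw [sub_zero] at h1
    exact_mod_cast h1
  · intro x y hxy
    rcases x with x | x
    · rcases y with y | y
      · exact dist_lip s.connected b x y ((adj_ll s t x y).mp hxy)
      · obtain ⟨h1, -⟩ := (adj_lr s t x y).mp hxy
        show |(s.G.dist x b : ℤ) - (s.G.dist s.root b : ℤ)| ≤ 1
        rw [h1, sub_self, abs_zero]
        norm_num
    · rcases y with y | y
      · obtain ⟨h1, -⟩ := (adj_rl s t x y).mp hxy
        show |(s.G.dist s.root b : ℤ) - (s.G.dist y b : ℤ)| ≤ 1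
        rw [h1, sub_self, abs_zero]
        norm_num
      · show |(s.G.dist s.root b : ℤ) - (s.G.dist s.root b : ℤ)| ≤ 1
        rw [sub_self, abs_zero]
        norm_num

theorem dist_rr (s t : RT) (a b : t.V) :
    (gr s t).G.dist (Sum.inr a) (Sum.inr b) = t.G.dist a b := by
  refine le_antisymm (le_r s t a b) ?_
  have h := le_dist_of_lip (gr s t).connected
    (fun z : s.V ⊕ t.V => Sum.elim (fun _ => (t.G.dist t.root b : ℤ))
      (fun y => (t.G.dist y b : ℤ)) z) ?_ (Sum.inr a) (Sum.inr b)
  · have h1 : (t.G.dist a b : ℤ) - (t.G.dist b b : ℤ)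
        ≤ ((gr s t).G.dist (Sum.inr a) (Sum.inr b) : ℤ) := h
    rw [SimpleGraph.dist_self] at h1
    push_cast at h1
    rw [sub_zero] at h1
    exact_mod_cast h1
  · intro x y hxy
    rcases x with x | x
    · rcases y with y | y
      · show |(t.G.dist t.root b : ℤ) - (t.G.dist t.root b : ℤ)| ≤ 1
        rw [sub_self, abs_zero]
        norm_num
      · obtain ⟨-, h1⟩ := (adj_lr s t x y).mp hxy
        show |(t.G.dist t.root b : ℤ) - (t.G.dist y b : ℤ)| ≤ 1
        rw [h1, sub_self, abs_zero]
        norm_num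
    · rcases y with y | y
      · obtain ⟨-, h1⟩ := (adj_rl s t x y).mp hxy
        show |(t.G.dist x b : ℤ) - (t.G.dist t.root b : ℤ)| ≤ 1
        rw [h1, sub_self, abs_zero]
        norm_num
      · exact dist_lip t.connected b x y ((adj_rr s t x y).mp hxy)

theorem dist_lr (s t : RT) (a : s.V) (b : t.V) :
    (gr s t).G.dist (Sum.inl a) (Sum.inr b) = s.G.dist a s.root + 1 + t.G.dist t.root b := by
  refine le_antisymm ?_ ?_
  · have h1 : (gr s t).G.dist (Sum.inl a) (Sum.inr b)
        ≤ (gr s t).G.dist (Sum.inl a) (Sum.inl s.root)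
          + (gr s t).G.dist (Sum.inl s.root) (Sum.inr b) :=
      (gr s t).connected.dist_triangle
    have h2 : (gr s t).G.dist (Sum.inl s.root) (Sum.inr b)
        ≤ (gr s t).G.dist (Sum.inl s.root) (Sum.inr t.root)
          + (gr s t).G.dist (Sum.inr t.root) (Sum.inr b) :=
      (gr s t).connected.dist_triangle
    have h3 : (gr s t).G.dist (Sum.inl s.root) (Sum.inr t.root) = 1 :=
      SimpleGraph.dist_eq_one_iff_adj.mpr ((adj_lr s t s.root t.root).mpr ⟨rfl, rfl⟩)
    have h4 := le_l s t a s.root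
    have h5 := le_r s t t.root b
    omega
  · have h := le_dist_of_lip (gr s t).connected
      (fun z : s.V ⊕ t.V => Sum.elim
        (fun x => (s.G.dist x s.root : ℤ) + 1 + (t.G.dist t.root b : ℤ))
        (fun y => (t.G.dist y b : ℤ)) z) ?_ (Sum.inl a) (Sum.inr b)
    · have h1 : (s.G.dist a s.root : ℤ) + 1 + (t.G.dist t.root b : ℤ) - (t.G.dist b b : ℤ)
          ≤ ((gr s t).G.dist (Sum.inl a) (Sum.inr b) : ℤ) := h
      rw [SimpleGraph.dist_self] at h1
      push_cast at h1
      rw [sub_zero] at h1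
      exact_mod_cast h1
    · intro x y hxy
      rcases x with x | x
      · rcases y with y | y
        · have h1 := dist_lip s.connected s.root x y ((adj_ll s t x y).mp hxy)
          show |(s.G.dist x s.root : ℤ) + 1 + (t.G.dist t.root b : ℤ)
            - ((s.G.dist y s.root : ℤ) + 1 + (t.G.dist t.root b : ℤ))| ≤ 1
          have h2 : (s.G.dist x s.root : ℤ) + 1 + (t.G.dist t.root b : ℤ)
            - ((s.G.dist y s.root : ℤ) + 1 + (t.G.dist t.root b : ℤ))
              = (s.G.dist x s.root : ℤ) - (s.G.dist y s.root : ℤ) := by ring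
          rw [h2]
          exact h1
        · obtain ⟨h1, h2⟩ := (adj_lr s t x y).mp hxy
          show |(s.G.dist x s.root : ℤ) + 1 + (t.G.dist t.root b : ℤ)
            - (t.G.dist y b : ℤ)| ≤ 1
          rw [h1, h2, SimpleGraph.dist_self]
          simp
      · rcases y with y | y
        · obtain ⟨h1, h2⟩ := (adj_rl s t x y).mp hxy
          show |(t.G.dist x b : ℤ)
            - ((s.G.dist y s.root : ℤ) + 1 + (t.G.dist t.root b : ℤ))| ≤ 1
          rw [h1, h2, SimpleGraph.dist_self]
          simp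
        · exact dist_lip t.connected b x y ((adj_rr s t x y).mp hxy)

end RT

end Pool.Agent.Lib.MP_dbb03c_co
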