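import Pool.Agent.Lib.MP_dbb03c_co.Vec

/-! # Basic algebra of the operator -/

set_option autoImplicit false

namespace Pool.Agent.Lib.MP_dbb03c_co

theorem lam_pos : 0 < lam := lt_trans (by norm_num) lam_lo

theorem mu_pos : 0 < mu := lt_trans (by norm_num) mu_lo

private theorem AA_add (x y : V4) : AA (x + y) = AA x + AA y := by
  funext i
  fin_cases i <;> simp [AA] <;> ring

private theorem AA_smul (c : ℝ) (x : V4) : AA (c • x) = c • AA x := by
  funext i
  fin_cases i <;> simp [AA] <;> ring

private theorem BB_def (x : V4) : BB x = (1 / lam) • AA x := by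
  funext i
  simp only [BB, Pi.smul_apply, smul_eq_mul]
  ring

private theorem AA_eq (x : V4) : AA x = lam • BB x := by
  funext i
  simp only [BB, Pi.smul_apply, smul_eq_mul]
  field_simp [lam_pos.ne']

theorem BB_add (x y : V4) : BB (x + y) = BB x + BB y := by
  rw [BB_def, BB_def, BB_def, AA_add, smul_add]

theorem BB_smul (c : ℝ) (x : V4) : BB (c • x) = c • BB x := by
  rw [BB_def, BB_def, AA_smul, smul_comm]

theorem BB_mono {x y : V4} (h : ∀ i, x i ≤ y i) (i : Fin 4) : BB x i ≤ BB y i := by
  have h0 := h 0
  have h1 := h 1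
  have h2 := h 2
  have h3 := h 3
  unfold BB
  apply div_le_div_of_nonneg_right _ lam_pos.le
  fin_cases i <;> simp [AA] <;> linarith

theorem BB_pos {x : V4} (h : ∀ i, 0 < x i) (i : Fin 4) : 0 < BB x i := by
  have h0 := h 0
  have h1 := h 1
  have h2 := h 2
  have h3 := h 3
  unfold BB
  apply div_pos _ lam_pos
  fin_cases i <;> simp [AA] <;> linarith

theorem it_add (j : ℕ) (x y : V4) : BB^[j] (x + y) = BB^[j] x + BB^[j] y := by
  induction j with
  | zero => rfl
  | succ j ih => rw [Function.iterate_succ_apply', Function.iterate_succ_apply',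
      Function.iterate_succ_apply', ih, BB_add]

theorem it_smul (j : ℕ) (c : ℝ) (x : V4) : BB^[j] (c • x) = c • BB^[j] x := by
  induction j with
  | zero => rfl
  | succ j ih => rw [Function.iterate_succ_apply', Function.iterate_succ_apply', ih, BB_smul]

theorem it_mono (j : ℕ) {x y : V4} (h : ∀ i, x i ≤ y i) (i : Fin 4) :
    BB^[j] x i ≤ BB^[j] y i := by
  induction j generalizing i with
  | zero => exact h i
  | succ j ih =>
    rw [Function.iterate_succ_apply', Function.iterate_succ_apply']
    exact BB_mono ih i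

theorem it_pos (j : ℕ) {x : V4} (h : ∀ i, 0 < x i) (i : Fin 4) : 0 < BB^[j] x i := by
  induction j generalizing i with
  | zero => exact h i
  | succ j ih =>
    rw [Function.iterate_succ_apply']
    exact BB_pos ih i

theorem ip_comm (x y : V4) : ip x y = ip y x := by
  unfold ip
  ring

theorem ip_add (x y z : V4) : ip x (y + z) = ip x y + ip x z := by
  unfold ip
  simp only [Pi.add_apply]
  ring

theorem ip_smul (c : ℝ) (x y : V4) : ip x (c • y) = c * ip x y := by
  unfold ip
  simp only [Pi.smul_apply, smul_eq_mul]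
  ring

theorem ip_mono {x y z : V4} (hx : ∀ i, 0 ≤ x i) (h : ∀ i, y i ≤ z i) : ip x y ≤ ip x z := by
  unfold ip
  have h0 := mul_le_mul_of_nonneg_left (h 0) (hx 0)
  have h1 := mul_le_mul_of_nonneg_left (h 1) (hx 1)
  have h2 := mul_le_mul_of_nonneg_left (h 2) (hx 2)
  have h3 := mul_le_mul_of_nonneg_left (h 3) (hx 3)
  linarith

/-- the operator is self-adjoint -/
theorem ip_BB (x y : V4) : ip x (BB y) = ip (BB x) y := by
  unfold ip BB
  simp [AA]
  ring

theorem ip_it (j : ℕ) (x y : V4) : ip x (BB^[j] y) = ip (BB^[j] x) y := by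
  induction j generalizing x y with
  | zero => rfl
  | succ j ih =>
    rw [Function.iterate_succ_apply, ih, ip_BB, ← Function.iterate_succ_apply' BB j x]

theorem BB_ph : BB ph = ph := by
  have h := lam_eq
  have hl := lam_pos.ne'
  funext i
  unfold BB
  rw [div_eq_iff hl]
  fin_cases i
  · simp [AA, ph]
    linear_combination -h
  · simp [AA, ph]
    ring
  · simp [AA, ph]
    ring
  · simp [AA, ph]

theorem BB_ps : BB ps = (-(mu / lam)) • ps := by
  have h := mu_eq
  have hl := lam_pos.ne'
  have e : (-(mu / lam)) • ps = fun i => (-mu * ps i) / lam := by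
    funext i
    simp only [Pi.smul_apply, smul_eq_mul]
    ring
  rw [e]
  unfold BB
  funext i
  congr 1
  fin_cases i
  · simp [AA, ps]
    linear_combination -h
  · simp [AA, ps]
    ring
  · simp [AA, ps]
    ring
  · simp [AA, ps]

theorem it_ph (j : ℕ) : BB^[j] ph = ph := by
  induction j with
  | zero => rfl
  | succ j ih => rw [Function.iterate_succ_apply', ih, BB_ph]

theorem it_ps (j : ℕ) : BB^[j] ps = ((-(mu / lam)) ^ j) • ps := by
  induction j with
  | zero => simp
  | succ j ih => rw [Function.iterate_succ_apply', ih, BB_smul, BB_ps, smul_smul, ← pow_succ]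

private theorem sz_pos : ∀ t : RT, 1 ≤ t.sz
  | .one => le_rfl
  | .gr s t => (sz_pos s).trans (Nat.le_add_right _ _)

/-- the relation between the two normalisations -/
theorem hv_eq : ∀ t : RT, hv t = lam ^ (t.sz - 1) • vec t := by
  intro t
  induction t with
  | one => simp [hv, vec, RT.sz]
  | gr s t ihs iht =>
    have h1 := sz_pos s
    have h2 := sz_pos t
    have e : (RT.gr s t).sz - 1 = (s.sz - 1) + ((t.sz - 1) + 1) := by
      simp only [RT.sz]
      omega
    rw [hv, vec, ihs, iht, AA_smul, AA_eq, e, pow_add, pow_succ]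
    funext i
    simp only [Pi.mul_apply, Pi.smul_apply, smul_eq_mul]
    ring

theorem vec_pos : ∀ (t : RT) (i : Fin 4), 0 < vec t i := by
  intro t
  induction t with
  | one => intro i; simp [vec, e1]
  | gr s t ihs iht =>
    intro i
    rw [vec, Pi.mul_apply]
    exact mul_pos (ihs i) (BB_pos iht i)

theorem vec_gr_one (t : RT) : vec (RT.gr RT.one t) = BB (vec t) := by
  rw [vec, vec]
  funext i
  simp [e1]

end Pool.Agent.Lib.MP_dbb03c_co
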