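import Pool.Agent.Lib.MP_dbb03c_co.Hom1
import Pool.Agent.Lib.MP_dbb03c_co.Hom2
import Pool.Agent.Lib.MP_dbb03c_co.Op

/-! # Numbers of colourings of rooted trees by `T̂(400,3,800)` -/

set_option autoImplicit false

namespace Pool.Agent.Lib.MP_dbb03c_co

/-- the number of colourings with the root at a given vertex (induction, `homR_gr`, `sum_nbr`) -/
theorem homR_hat (t : RT) (c : TV 400 3 800) :
    (Nat.card {f : t.V → TV 400 3 800 // (∀ a b, t.G.Adj a b → HatAdj 400 3 800 (f a) (f b)) ∧
      f t.root = c} : ℝ) = hv t c.lev := by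
  classical
  have : Fintype (TV 400 3 800) := Fintype.ofFinite _
  induction t generalizing c with
  | one =>
    rw [homR_one]
    simp [hv, e1]
  | gr s t ihs iht =>
    rw [homR_gr (HatAdj 400 3 800) hat_symm s t c]
    rw [Nat.cast_mul, Nat.cast_sum, ihs c]
    have h : ∀ d : TV 400 3 800, ((if HatAdj 400 3 800 c d then
        Nat.card {f : t.V → TV 400 3 800 //
          (∀ a b, t.G.Adj a b → HatAdj 400 3 800 (f a) (f b)) ∧ f t.root = d} else 0 : ℕ) : ℝ) =
        if HatAdj 400 3 800 c d then hv t d.lev else 0 := by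
      intro d
      split_ifs with hd
      · exact iht d
      · simp
    rw [Finset.sum_congr rfl (fun d _ => h d)]
    have h2 := sum_nbr (hv t) c
    have h3 : (∑ d : TV 400 3 800, if HatAdj 400 3 800 c d then hv t d.lev else 0) =
        AA (hv t) c.lev := by
      rw [← h2]
    rw [h3]
    rfl

theorem hom_rt (t : RT) : (hom t.G (HatAdj 400 3 800) : ℝ) = ip e1 (hv t) := by
  classical
  have : Fintype (TV 400 3 800) := Fintype.ofFinite _
  have e : {f : t.V → TV 400 3 800 // ∀ a b, t.G.Adj a b → HatAdj 400 3 800 (f a) (f b)} ≃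
      Σ c : TV 400 3 800, {f : t.V → TV 400 3 800 //
        (∀ a b, t.G.Adj a b → HatAdj 400 3 800 (f a) (f b)) ∧ f t.root = c} :=
    { toFun := fun f => ⟨f.1 t.root, f.1, f.2, rfl⟩
      invFun := fun x => ⟨x.2.1, x.2.2.1⟩
      left_inv := fun f => rfl
      right_inv := by
        rintro ⟨c, f, hf, rfl⟩
        rfl }
  have h1 : hom t.G (HatAdj 400 3 800) = ∑ c : TV 400 3 800,
      Nat.card {f : t.V → TV 400 3 800 //
        (∀ a b, t.G.Adj a b → HatAdj 400 3 800 (f a) (f b)) ∧ f t.root = c} := by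
    unfold hom
    rw [Nat.card_congr e, Nat.card_sigma]
  rw [h1, Nat.cast_sum, ← sum_all (hv t)]
  exact Finset.sum_congr rfl (fun c _ => homR_hat t c)

theorem hom_rt' (t : RT) : (hom t.G (HatAdj 400 3 800) : ℝ) =
    lam ^ (t.sz - 1) * ip e1 (vec t) := by
  rw [hom_rt, hv_eq t, ip_smul]

end Pool.Agent.Lib.MP_dbb03c_co
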