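import Pool.Agent.Lib.MP_dbb03c_co.Ki

/-! # The two log-linear functionals and Jensen's inequality -/

set_option autoImplicit false

namespace Pool.Agent.Lib.MP_dbb03c_co

open Real

/-- the functional of the phase of the levels 1 and 3 -/
noncomputable def LC (x : V4) : ℝ := 0.015 * log (x 1) + 0.985 * log (x 3)

/-- the functional of the phase of the levels 0 and 2 -/
noncomputable def LB (x : V4) : ℝ := 0.0075 * log (x 0) + 0.9925 * log (x 2)

/-- weighted AM-GM -/
theorem log_add_ge {p q a b : ℝ} (hp : 0 < p) (hq : 0 < q) (hpq : p + q = 1) (ha : 0 < a)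
    (hb : 0 < b) : p * log (a / p) + q * log (b / q) ≤ log (a + b) := by
  have h := strictConcaveOn_log_Ioi.concaveOn.2 (x := a / p) (y := b / q)
    (Set.mem_Ioi.2 (div_pos ha hp)) (Set.mem_Ioi.2 (div_pos hb hq)) hp.le hq.le hpq
  simp only [smul_eq_mul] at h
  rwa [mul_div_cancel₀ _ hp.ne', mul_div_cancel₀ _ hq.ne'] at h

theorem LC_mul {x y : V4} (hx : ∀ i, 0 < x i) (hy : ∀ i, 0 < y i) :
    LC (x * y) = LC x + LC y := by
  simp only [LC, Pi.mul_apply]
  rw [log_mul (hx 1).ne' (hy 1).ne', log_mul (hx 3).ne' (hy 3).ne']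
  ring

theorem LB_mul {x y : V4} (hx : ∀ i, 0 < x i) (hy : ∀ i, 0 < y i) :
    LB (x * y) = LB x + LB y := by
  simp only [LB, Pi.mul_apply]
  rw [log_mul (hx 0).ne' (hy 0).ne', log_mul (hx 2).ne' (hy 2).ne']
  ring

theorem LC_smul {c : ℝ} (hc : 0 < c) {x : V4} (hx : ∀ i, 0 < x i) :
    LC (c • x) = log c + LC x := by
  simp only [LC, Pi.smul_apply, smul_eq_mul]
  rw [log_mul hc.ne' (hx 1).ne', log_mul hc.ne' (hx 3).ne']
  ring

theorem LB_smul {c : ℝ} (hc : 0 < c) {x : V4} (hx : ∀ i, 0 < x i) :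
    LB (c • x) = log c + LB x := by
  simp only [LB, Pi.smul_apply, smul_eq_mul]
  rw [log_mul hc.ne' (hx 0).ne', log_mul hc.ne' (hx 2).ne']
  ring

theorem LC_mono {x y : V4} (hx : ∀ i, 0 < x i) (h : ∀ i, x i ≤ y i) : LC x ≤ LC y := by
  have h1 := log_le_log (hx 1) (h 1)
  have h3 := log_le_log (hx 3) (h 3)
  unfold LC
  linarith

theorem LB_mono {x y : V4} (hx : ∀ i, 0 < x i) (h : ∀ i, x i ≤ y i) : LB x ≤ LB y := by
  have h1 := log_le_log (hx 0) (h 0)
  have h3 := log_le_log (hx 2) (h 2)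
  unfold LB
  linarith

/-- `x 0 + 3 x 2 ≥ (2 x 0)^(1/2) (6 x 2)^(1/2)` -/
theorem LC_BB {x : V4} (hx : ∀ i, 0 < x i) :
    LB x + 0.0075 * log 12 - log lam ≤ LC (BB x) := by
  have h0 := hx 0
  have h2 := hx 2
  have hl : lam ≠ 0 := lam_pos.ne'
  have e1 : BB x 1 = (x 0 + 3 * x 2) / lam := rfl
  have e3 : BB x 3 = x 2 / lam := rfl
  have h3 : (0 : ℝ) < x 0 + 3 * x 2 := by linarith
  have key := log_add_ge (p := 1 / 2) (q := 1 / 2) (by norm_num) (by norm_num) (by norm_num)
    h0 (by linarith : 0 < 3 * x 2)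
  have k1 : log (x 0 / (1 / 2)) = log 2 + log (x 0) := by
    rw [← log_mul (by norm_num) h0.ne']
    congr 1
    ring
  have k2 : log (3 * x 2 / (1 / 2)) = log 6 + log (x 2) := by
    rw [← log_mul (by norm_num) h2.ne']
    congr 1
    ring
  have k3 : log 12 = log 2 + log 6 := by
    rw [← log_mul (by norm_num) (by norm_num)]
    norm_num
  rw [k1, k2] at key
  unfold LC LB
  rw [e1, e3, log_div h3.ne' hl, log_div h2.ne' hl, k3]
  linarith

/-- drop the loop: `(BB x) 0 ≥ 400 x 1 / lam`; weights `0.0075/0.9925`, `0.985/0.9925` for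
`(BB x) 2 = (x 1 + 800 x 3) / lam` -/
theorem LB_BB {x : V4} (hx : ∀ i, 0 < x i) :
    LC x + 0.0075 * log 400 + 0.0075 * log (0.9925 / 0.0075) +
      0.985 * log (800 * 0.9925 / 0.985) - log lam ≤ LB (BB x) := by
  have h0 := hx 0
  have h1 := hx 1
  have h3 := hx 3
  have hl : lam ≠ 0 := lam_pos.ne'
  have e0 : BB x 0 = (x 0 + 400 * x 1) / lam := rfl
  have e2 : BB x 2 = (x 1 + 800 * x 3) / lam := rfl
  have p0 : (0 : ℝ) < x 0 + 400 * x 1 := by linarith
  have p2 : (0 : ℝ) < x 1 + 800 * x 3 := by linarith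
  have key := log_add_ge (p := 0.0075 / 0.9925) (q := 0.985 / 0.9925) (by norm_num)
    (by norm_num) (by norm_num) h1 (by linarith : 0 < 800 * x 3)
  have k0 : log 400 + log (x 1) ≤ log (x 0 + 400 * x 1) := by
    rw [← log_mul (by norm_num) h1.ne']
    exact log_le_log (by linarith) (by linarith)
  have k1 : log (x 1 / (0.0075 / 0.9925)) = log (0.9925 / 0.0075) + log (x 1) := by
    rw [← log_mul (by norm_num) h1.ne']
    congr 1
    ring
  have k2 : log (800 * x 3 / (0.985 / 0.9925)) = log (800 * 0.9925 / 0.985) + log (x 3) := by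
    rw [← log_mul (by norm_num) h3.ne']
    congr 1
    ring
  rw [k1, k2] at key
  unfold LC LB
  rw [e0, e2, log_div p0.ne' hl, log_div p2.ne' hl]
  have key' : 0.0075 * (log (0.9925 / 0.0075) + log (x 1)) +
      0.985 * (log (800 * 0.9925 / 0.985) + log (x 3)) ≤ 0.9925 * log (x 1 + 800 * x 3) := by
    have := mul_le_mul_of_nonneg_left key (by norm_num : (0 : ℝ) ≤ 0.9925)
    calc _ = (0.9925 : ℝ) * (0.0075 / 0.9925 * (log (0.9925 / 0.0075) + log (x 1)) +
        0.985 / 0.9925 * (log (800 * 0.9925 / 0.985) + log (x 3))) := by ring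
      _ ≤ _ := this
  linarith

/-- scalar products with positive coefficients, phase of the levels 1, 3 -/
theorem ipC_ge {A B : ℝ} (hA : 0 < A) (hB : 0 < B) {x : V4} (hx : ∀ i, 0 < x i) :
    0.015 * log (400 * A / 0.015) + 0.985 * log (960000 * B / 0.985) + LC x ≤
      log (400 * (A * x 1) + 960000 * (B * x 3)) := by
  have h1 := hx 1
  have h3 := hx 3
  have key := log_add_ge (p := 0.015) (q := 0.985) (by norm_num)
    (by norm_num) (by norm_num) (by positivity : 0 < 400 * (A * x 1))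
    (by positivity : 0 < 960000 * (B * x 3))
  have k1 : log (400 * (A * x 1) / 0.015) = log (400 * A / 0.015) + log (x 1) := by
    rw [← log_mul (by positivity) h1.ne']
    congr 1
    ring
  have k2 : log (960000 * (B * x 3) / 0.985) = log (960000 * B / 0.985) + log (x 3) := by
    rw [← log_mul (by positivity) h3.ne']
    congr 1
    ring
  rw [k1, k2] at key
  unfold LC
  linarith

/-- scalar products with positive coefficients, phase of the levels 0, 2 -/
theorem ipB_ge {A B : ℝ} (hA : 0 < A) (hB : 0 < B) {x : V4} (hx : ∀ i, 0 < x i) :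
    0.0075 * log (A / 0.0075) + 0.9925 * log (1200 * B / 0.9925) + LB x ≤
      log (A * x 0 + 1200 * (B * x 2)) := by
  have h1 := hx 0
  have h3 := hx 2
  have key := log_add_ge (p := 0.0075) (q := 0.9925) (by norm_num)
    (by norm_num) (by norm_num) (by positivity : 0 < A * x 0)
    (by positivity : 0 < 1200 * (B * x 2))
  have k1 : log (A * x 0 / 0.0075) = log (A / 0.0075) + log (x 0) := by
    rw [← log_mul (by positivity) h1.ne']
    congr 1
    ring
  have k2 : log (1200 * (B * x 2) / 0.9925) = log (1200 * B / 0.9925) + log (x 2) := by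
    rw [← log_mul (by positivity) h3.ne']
    congr 1
    ring
  rw [k1, k2] at key
  unfold LB
  linarith

end Pool.Agent.Lib.MP_dbb03c_co
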