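import Pool.Agent.Lib.MP_dbb03c_co.Kz

/-! # Long iterates: a mixture of a cut and a phase cut -/

set_option autoImplicit false

namespace Pool.Agent.Lib.MP_dbb03c_co

/-- the weight of the phase cut -/
noncomputable def pj (j : ℕ) : ℝ := 0.9977 * (mu / lam) ^ j

private theorem Ki_ratio_nonneg : 0 ≤ mu / lam := (div_pos mu_pos lam_pos).le

private theorem Ki_ratio_le : mu / lam ≤ 1 - 0.0002558 := by
  rw [div_le_iff₀ lam_pos]
  have h1 := mu_hi
  have h2 := lam_lo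
  nlinarith

theorem pj_nonneg (j : ℕ) : 0 ≤ pj j := by
  unfold pj
  have := pow_nonneg Ki_ratio_nonneg j
  positivity

theorem pj_le (j : ℕ) : pj j ≤ 1 := by
  unfold pj
  have h1 : (mu / lam) ^ j ≤ 1 :=
    pow_le_one₀ Ki_ratio_nonneg (Ki_ratio_le.trans (by norm_num))
  linarith

/-- the phase cut, `s = 1` or `s = -1` -/
noncomputable def Dp (s : ℝ) (x : V4) : V4 := Phi x + s • Psi x

/-- Proof: apply `BB^[j]` (monotone, linear) to `Kz`; `BB^[j] (Phi x) = Phi x` and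
`BB^[j] (Psi x) = (-mu/lam)^j • Psi x`. -/
theorem Ki (x : V4) (hx : ∀ i, 0 ≤ x i) (j : ℕ) (i : Fin 4) :
    0.9989 * ((1 - pj j) * Phi x i + pj j * Dp ((-1) ^ j) x i) ≤ BB^[22 + j] x i := by
  have h0 : ∀ i, ((0.9989 : ℝ) • (Phi x + (0.9977 : ℝ) • Psi x)) i ≤ (BB^[22] x) i := by
    intro i
    have := Kz x hx i
    simpa [Pi.smul_apply, Pi.add_apply, smul_eq_mul] using this
  have h1 := it_mono j h0 i
  rw [← Function.iterate_add_apply, add_comm j 22] at h1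
  have h2 : BB^[j] (Phi x) = Phi x := by
    unfold Phi
    rw [it_smul, it_ph]
  have h3 : BB^[j] (Psi x) = ((-(mu / lam)) ^ j) • Psi x := by
    unfold Psi
    rw [it_smul, it_ps, smul_comm]
  rw [it_smul, it_add, it_smul, h2, h3] at h1
  refine le_trans (le_of_eq ?_) h1
  unfold pj Dp
  simp only [Pi.smul_apply, Pi.add_apply, smul_eq_mul]
  rw [neg_pow (mu / lam) j]
  ring

theorem Phi_add (x y : V4) : Phi (x + y) = Phi x + Phi y := by
  unfold Phi
  rw [ip_add, add_div, add_smul]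

theorem Phi_smul (c : ℝ) (x : V4) : Phi (c • x) = c • Phi x := by
  unfold Phi
  rw [ip_smul, mul_div_assoc, mul_smul]

private theorem Ki_NN_pos : 0 < NN := by
  unfold NN ip ph
  simp only [Matrix.cons_val]
  have h1 := mul_self_nonneg (lam ^ 3 - 803 * lam)
  have h2 := mul_self_nonneg (lam ^ 2 - 800)
  have h3 := mul_self_nonneg lam
  linarith

/-- `u = ph + ps`, `v = ph - ps`: `Dp 1 x = (⟨u,x⟩ u + ⟨v,x⟩ v) / (2 NN)`,
`Dp (-1) x = (⟨v,x⟩ u + ⟨u,x⟩ v) / (2 NN)`. -/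
theorem Dp_one (x : V4) (i : Fin 4) : Dp 1 x i =
    (ip (ph + ps) x * (ph + ps) i + ip (ph - ps) x * (ph - ps) i) / (2 * NN) := by
  have hN := Ki_NN_pos.ne'
  unfold Dp Phi Psi ip
  simp only [Pi.smul_apply, Pi.add_apply, Pi.sub_apply, smul_eq_mul]
  field_simp
  ring

theorem Dp_neg (x : V4) (i : Fin 4) : Dp (-1) x i =
    (ip (ph - ps) x * (ph + ps) i + ip (ph + ps) x * (ph - ps) i) / (2 * NN) := by
  have hN := Ki_NN_pos.ne'
  unfold Dp Phi Psi ip
  simp only [Pi.smul_apply, Pi.add_apply, Pi.sub_apply, smul_eq_mul]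
  field_simp
  ring

/-- `(mu/lam)^29978 ≤ 0.001` (`1 - t ≤ exp (-t)`) -/
theorem pj_small {j : ℕ} (hj : 29978 ≤ j) : pj j ≤ 0.001 := by
  have hj' : (29978 : ℝ) ≤ (j : ℝ) := by exact_mod_cast hj
  have h1 : mu / lam ≤ Real.exp (-0.0002558) := by
    refine Ki_ratio_le.trans ?_
    have := Real.add_one_le_exp (-0.0002558 : ℝ)
    linarith
  have h2 : (mu / lam) ^ j ≤ Real.exp (-7) := by
    calc (mu / lam) ^ j ≤ (Real.exp (-0.0002558)) ^ j := pow_le_pow_left₀ Ki_ratio_nonneg h1 j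
      _ = Real.exp ((j : ℝ) * (-0.0002558)) := by rw [Real.exp_nat_mul]
      _ ≤ Real.exp (-7) := Real.exp_le_exp.2 (by linarith)
  have h3 : Real.exp (-7) ≤ 0.001 := by
    rw [Real.exp_neg, inv_le_comm₀ (Real.exp_pos _) (by norm_num)]
    have h4 : Real.exp 7 = Real.exp 1 ^ 7 := by
      rw [← Real.exp_nat_mul]
      norm_num
    rw [h4]
    calc ((0.001 : ℝ))⁻¹ ≤ 2.7182818283 ^ 7 := by norm_num
      _ ≤ Real.exp 1 ^ 7 := pow_le_pow_left₀ (by norm_num) Real.exp_one_gt_d9.le 7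
  unfold pj
  linarith

end Pool.Agent.Lib.MP_dbb03c_co
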