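import Pool.Agent.Lib.MP_dbb03c_co.Pi1

/-! # The entropy constant -/

set_option autoImplicit false

namespace Pool.Agent.Lib.MP_dbb03c_co

open Real

private theorem p3_ph0 : log (ph 0) ≤ 4.5056 := by
  have h1 : (13 : ℕ) * log 2 = log ((2 : ℝ) ^ 13) := by rw [Real.log_pow]
  have h2 : (2 : ℕ) * log (ph 0) = log (ph 0 ^ 2) := by rw [Real.log_pow]
  have h3 : ph 0 ^ 2 ≤ 2 ^ 13 := by
    have := ph0_bd.1
    have := ph0_bd.2
    nlinarith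
  have h4 := Real.log_le_log (pow_pos (ph_pos 0) 2) h3
  rw [← h1, ← h2] at h4
  have h5 := Real.log_two_lt_d9
  push_cast at h4
  linarith

private theorem p3_ph1 : log (ph 1) ≤ 1.8275 := by
  have h1 : (29 : ℕ) * log 2 = log ((2 : ℝ) ^ 29) := by rw [Real.log_pow]
  have h2 : (11 : ℕ) * log (ph 1) = log (ph 1 ^ 11) := by rw [Real.log_pow]
  have h3 : ph 1 ^ 11 ≤ 2 ^ 29 := by
    calc ph 1 ^ 11 ≤ (6.1764252 : ℝ) ^ 11 :=
          pow_le_pow_left₀ (ph_pos 1).le ph1_bd.2.le 11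
      _ ≤ 2 ^ 29 := by norm_num
  have h4 := Real.log_le_log (pow_pos (ph_pos 1) 11) h3
  rw [← h1, ← h2] at h4
  have h5 := Real.log_two_lt_d9
  push_cast at h4
  linarith

private theorem p3_pi0 : ppi 0 ≤ 0.00417 := by
  show ph 0 ^ 2 / NN ≤ 0.00417
  rw [div_le_iff₀ NN_pos]
  have h1 := ph0_bd.1
  have h2 := ph0_bd.2
  have h3 := NN_bd.1
  nlinarith

private theorem p3_pi1 : ppi 1 ≤ 0.007823 := by
  show 400 * ph 1 ^ 2 / NN ≤ 0.007823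
  rw [div_le_iff₀ NN_pos]
  have h1 := ph1_bd.1
  have h2 := ph1_bd.2
  have h3 := NN_bd.1
  nlinarith

private theorem p3_pi2 : ppi 2 ≤ 0.4959039 := by
  show 1200 * ph 2 ^ 2 / NN ≤ 0.4959039
  rw [div_le_iff₀ NN_pos, ph2_eq]
  have h1 := lam_lo
  have h2 := lam_hi
  have h3 := NN_bd.1
  nlinarith

private theorem p3_nonneg :
    0 ≤ ppi 0 ∧ 0 ≤ ppi 1 ∧ 0 ≤ ppi 2 ∧ 0 ≤ ppi 3 := by
  have hN := NN_pos
  refine ⟨?_, ?_, ?_, ?_⟩
  · show 0 ≤ ph 0 ^ 2 / NN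
    positivity
  · show 0 ≤ 400 * ph 1 ^ 2 / NN
    positivity
  · show 0 ≤ 1200 * ph 2 ^ 2 / NN
    positivity
  · show 0 ≤ 960000 * ph 3 ^ 2 / NN
    positivity

private theorem p3_const : 11.0985 ≤
    log NN - 2 * (ppi 0 * log (ph 0) + ppi 1 * log (ph 1) + ppi 2 * log (ph 2)) := by
  obtain ⟨n0, n1, n2, -⟩ := p3_nonneg
  have a0 : ppi 0 * log (ph 0) ≤ 0.00417 * 4.5056 := by
    calc ppi 0 * log (ph 0) ≤ ppi 0 * 4.5056 := mul_le_mul_of_nonneg_left p3_ph0 n0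
      _ ≤ _ := mul_le_mul_of_nonneg_right p3_pi0 (by norm_num)
  have a1 : ppi 1 * log (ph 1) ≤ 0.007823 * 1.8275 := by
    calc ppi 1 * log (ph 1) ≤ ppi 1 * 1.8275 := mul_le_mul_of_nonneg_left p3_ph1 n1
      _ ≤ _ := mul_le_mul_of_nonneg_right p3_pi1 (by norm_num)
  have a2 : ppi 2 * log (ph 2) ≤ 0.4959039 * 3.346152 := by
    rw [ph2_eq]
    calc ppi 2 * log lam ≤ ppi 2 * 3.346152 := mul_le_mul_of_nonneg_left log_lam_bd.2.le n2
      _ ≤ _ := mul_le_mul_of_nonneg_right p3_pi2 (by norm_num)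
  have a3 := log_NN_bd.1
  norm_num at a0 a1 a2 a3 ⊢
  linarith

/-- `ip e1 x ≥ exp (LP x - ∑ ppi i * log (ph i ^ 2 / NN))` (Jensen) and
`- ∑ ppi i * log (ph i ^ 2 / NN) = 11.0989881...` -/
theorem LP_fin {x : V4} (hx : ∀ i, 0 < x i) : exp (11.0985 + LP x) ≤ ip e1 x := by
  obtain ⟨n0, n1, n2, n3⟩ := p3_nonneg
  have hN := NN_pos
  have hp0 := ph_pos 0
  have hp1 := ph_pos 1
  have hp2 := ph_pos 2
  have hp3 := ph_pos 3
  have q : ∀ i, 0 < x i * NN / ph i ^ 2 := fun i =>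
    div_pos (mul_pos (hx i) hN) (pow_pos (ph_pos i) 2)
  have key := Real.geom_mean_le_arith_mean4_weighted n0 n1 n2 n3 (q 0).le (q 1).le (q 2).le
    (q 3).le ppi_sum
  have lg : ∀ i, log (x i * NN / ph i ^ 2) = log (x i) + log NN - 2 * log (ph i) := by
    intro i
    rw [Real.log_div (mul_pos (hx i) hN).ne' (pow_pos (ph_pos i) 2).ne',
      Real.log_mul (hx i).ne' hN.ne', Real.log_pow]
    norm_num
  rw [Real.rpow_def_of_pos (q 0), Real.rpow_def_of_pos (q 1), Real.rpow_def_of_pos (q 2),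
    Real.rpow_def_of_pos (q 3), ← Real.exp_add, ← Real.exp_add, ← Real.exp_add,
    lg, lg, lg, lg] at key
  have l3 : log (ph 3) = 0 := by rw [ph3_eq, Real.log_one]
  have e : ppi 0 * (x 0 * NN / ph 0 ^ 2) + ppi 1 * (x 1 * NN / ph 1 ^ 2) +
      ppi 2 * (x 2 * NN / ph 2 ^ 2) + ppi 3 * (x 3 * NN / ph 3 ^ 2) = ip e1 x := by
    show ph 0 ^ 2 / NN * (x 0 * NN / ph 0 ^ 2) + 400 * ph 1 ^ 2 / NN * (x 1 * NN / ph 1 ^ 2) +
      1200 * ph 2 ^ 2 / NN * (x 2 * NN / ph 2 ^ 2) +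
      960000 * ph 3 ^ 2 / NN * (x 3 * NN / ph 3 ^ 2) =
      1 * x 0 + 400 * (1 * x 1) + 1200 * (1 * x 2) + 960000 * (1 * x 3)
    field_simp
  rw [e] at key
  refine le_trans (Real.exp_le_exp.2 ?_) key
  have hc := p3_const
  have hs := ppi_sum
  unfold LP
  rw [l3]
  have hNs : log NN = (ppi 0 + ppi 1 + ppi 2 + ppi 3) * log NN := by rw [hs, one_mul]
  nlinarith [hc, hNs]

end Pool.Agent.Lib.MP_dbb03c_co
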