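import Pool.Agent.Lib.MP_dbb03c_co.Pi2
import Pool.Agent.Lib.MP_dbb03c_co.Pi3

/-! # Many leaves -/

set_option autoImplicit false

namespace Pool.Agent.Lib.MP_dbb03c_co

open Real

/-- induction on the tree -/
theorem LP_vec (t : RT) : 0.0052 * (t.lv : ℕ) ≤ LP (vec t) := by
  induction t with
  | one => simp [RT.lv, vec, LP, e1]
  | gr s t hs ht =>
    have h1 : LP (vec (.gr s t)) = LP (vec s) + LP (BB (vec t)) :=
      LP_mul (vec_pos s) (BB_pos (vec_pos t))
    have h2 : 0.0052 * ((max 1 t.lv : ℕ) : ℝ) ≤ LP (BB (vec t)) := by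
      cases t with
      | one =>
        have := LP_leaf
        simpa [RT.lv, vec] using this
      | gr a b =>
        have h3 : max 1 (RT.gr a b).lv = (RT.gr a b).lv := by
          simp only [RT.lv]
          omega
        rw [h3]
        exact ht.trans (LP_BB (vec_pos _))
    rw [h1]
    simp only [RT.lv, Nat.cast_add]
    linarith

theorem many_leaves (t : RT) (h : 400 ≤ t.lv) : exp 13.15 ≤ ip e1 (vec t) := by
  refine le_trans (exp_le_exp.2 ?_) (LP_fin (vec_pos t))
  have h1 := LP_vec t
  have h2 : (400 : ℝ) ≤ (t.lv : ℕ) := by exact_mod_cast h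
  linarith

end Pool.Agent.Lib.MP_dbb03c_co
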