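import Pool.Agent.Lib.MP_dbb03c_co.Rec3
import Pool.Agent.Lib.MP_dbb03c_co.Comb
import Pool.Agent.Lib.MP_dbb03c_co.Pi4
import Pool.Agent.Lib.MP_dbb03c_co.Conv
import Pool.Agent.Lib.MP_dbb03c_co.Gr2
import Pool.Agent.Lib.MP_dbb03c_co.Gr4
import Pool.Agent.Lib.MP_dbb03c_co.Rep4
import Pool.Agent.Lib.MP_dbb03c_co.Hom5

/-! # Assembly: the lower bound -/

set_option autoImplicit false

namespace Pool.Agent.Lib.MP_dbb03c_co

open Filter Topology

theorem path_small : ∃ N : ℕ, ∀ n, N ≤ n → ip e1 (BB^[n] e1) ≤ Real.exp 13.15 := by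
  have h := (ip_tendsto e1 e1).eventually (gt_mem_nhds (show
    ip ph e1 * ip ph e1 / NN < Real.exp 13.15 from by rw [← pow_two]; exact num_S))
  obtain ⟨N, hN⟩ := eventually_atTop.1 h
  exact ⟨N, fun n hn => (hN n hn).le⟩

/-- trees whose diameter is smaller than `n` by a large constant -/
theorem tree_ge {n D : ℕ} (hn : 0 < n) (hp : ip e1 (BB^[n - 1] e1) ≤ Real.exp 13.15)
    (T : SimpleGraph (Fin n)) (hT : T.IsTree) (hD : ∀ a b, T.dist a b ≤ D)
    (h : D + 1 + MM * 399 < n) :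
    hom (SimpleGraph.pathGraph n) (HatAdj 400 3 800) ≤ hom T (HatAdj 400 3 800) := by
  haveI : Nonempty (Fin n) := ⟨⟨0, hn⟩⟩
  obtain ⟨⟨p, q⟩, hpq⟩ := Finite.exists_max (fun x : Fin n × Fin n => T.dist x.1 x.2)
  obtain ⟨t, e, he, her⟩ := exists_rt n T hT (Fintype.card_fin n) p
  have hsz : t.sz = n := by
    rw [← RT.card_V, ← Fintype.card_congr e, Fintype.card_fin]
  have hdist : ∀ a b, t.G.dist (e a) (e b) = T.dist a b := fun a b => dist_congr e he a b
  have hrd : t.rd ≤ 0 + t.dep := by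
    obtain ⟨u, v, huv⟩ := t.exists_dist_rd
    have h1 := hpq (e.symm u, e.symm v)
    have h2 := hdist (e.symm u) (e.symm v)
    rw [e.apply_symm_apply, e.apply_symm_apply] at h2
    have h3 := hdist p q
    rw [her] at h3
    have h4 := t.dist_root_le (e q)
    simp only at h1
    omega
  have hdep : t.dep ≤ D := by
    obtain ⟨v, hv⟩ := t.exists_dist_dep
    have h2 := hdist p (e.symm v)
    rw [e.apply_symm_apply, her] at h2
    have := hD p (e.symm v)
    omega
  have key : Real.exp 13.15 ≤ ip e1 (vec t) := by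
    rcases Nat.lt_or_ge t.lv 400 with hl | hl
    · rcases sz_or_good MM t 0 hrd with h5 | h5
      · exfalso
        have : MM * t.lv ≤ MM * 399 := Nat.mul_le_mul_left _ (by omega)
        omega
      · exact good_fin t (by omega) h5
    · exact many_leaves t hl
  have h6 : hom T (HatAdj 400 3 800) = hom t.G (HatAdj 400 3 800) := hom_congr _ e he
  have h7 := hom_rt' t
  have h8 := hom_path (n - 1)
  rw [Nat.sub_add_cancel hn] at h8
  rw [h6]
  have h9 : (hom (SimpleGraph.pathGraph n) (HatAdj 400 3 800) : ℝ) ≤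
      hom t.G (HatAdj 400 3 800) := by
    rw [h7, h8, hsz]
    exact mul_le_mul_of_nonneg_left (hp.trans key) (pow_nonneg lam_pos.le _)
  exact_mod_cast h9

theorem lower : ∃ C : ℕ, ∀ n, 3 ≤ n → n ≤ dH (HatAdj 400 3 800) n + C := by
  obtain ⟨N, hN⟩ := path_small
  refine ⟨MM * 399 + N + 4, fun n hn => ?_⟩
  rcases Nat.lt_or_ge n (MM * 399 + N + 4) with h | h
  · omega
  · have hmem : n - (MM * 399 + N + 2) ∈ {d | 2 ≤ d ∧ d ≤ n - 1 ∧
        ∀ T : SimpleGraph (Fin n), T.IsTree → (∀ a b, T.dist a b ≤ d) →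
          hom (SimpleGraph.pathGraph n) (HatAdj 400 3 800) ≤ hom T (HatAdj 400 3 800)} := by
      refine ⟨by omega, by omega, fun T hT hD => ?_⟩
      exact tree_ge (by omega) (hN _ (by omega)) T hT hD (by omega)
    have hb : BddAbove {d | 2 ≤ d ∧ d ≤ n - 1 ∧
        ∀ T : SimpleGraph (Fin n), T.IsTree → (∀ a b, T.dist a b ≤ d) →
          hom (SimpleGraph.pathGraph n) (HatAdj 400 3 800) ≤ hom T (HatAdj 400 3 800)} :=
      ⟨n - 1, fun d hd => hd.2.1⟩
    have := le_csSup hb hmem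
    unfold dH
    omega

end Pool.Agent.Lib.MP_dbb03c_co
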