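import Pool.Agent.Lib.MP_dbb03c_co.Jen

/-! # Numerical facts, part A (values in the comments are correct to the digits shown) -/

set_option autoImplicit false

namespace Pool.Agent.Lib.MP_dbb03c_co

open Real

private theorem lbA {a x : ℝ} (m n : ℕ) (h0 : 0 ≤ x) (h1 : x < 1)
    (ha : 2 ^ m * ((1 + x) / (1 - x)) ≤ a) :
    m * 0.6931471803 + 2 * ∑ i ∈ Finset.range n, x ^ (2 * i + 1) / (2 * i + 1) ≤ log a := by
  have hx : 0 < (1 + x) / (1 - x) := div_pos (by linarith) (by linarith)
  have hp : (0 : ℝ) < 2 ^ m := by positivity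
  have h2 := log_le_log (mul_pos hp hx) ha
  rw [log_mul hp.ne' hx.ne', log_pow] at h2
  have h3 := sum_range_le_log_div h0 h1 n
  have h4 : (m : ℝ) * 0.6931471803 ≤ m * log 2 :=
    mul_le_mul_of_nonneg_left log_two_gt_d9.le (Nat.cast_nonneg m)
  linarith

private theorem ubA {a x : ℝ} (m n : ℕ) (hpa : 0 < a) (h0 : 0 ≤ x) (h1 : x < 1)
    (ha : a ≤ 2 ^ m * ((1 + x) / (1 - x))) :
    log a ≤ m * 0.6931471808 +
      2 * (∑ i ∈ Finset.range n, x ^ (2 * i + 1) / (2 * i + 1) + x ^ (2 * n + 1) / (1 - x ^ 2)) := by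
  have hx : 0 < (1 + x) / (1 - x) := div_pos (by linarith) (by linarith)
  have hp : (0 : ℝ) < 2 ^ m := by positivity
  have h2 := log_le_log hpa ha
  rw [log_mul hp.ne' hx.ne', log_pow] at h2
  have h3 := log_div_le_sum_range_add h0 h1 n
  have h4 : (m : ℝ) * log 2 ≤ m * 0.6931471808 :=
    mul_le_mul_of_nonneg_left log_two_lt_d9.le (Nat.cast_nonneg m)
  linarith

private theorem lam_posA : 0 < lam := by linarith [lam_lo]

private theorem loglam_le : log lam ≤ 3.346152 := by
  have h := ubA (a := lam) (x := 0.279169632) 4 8 lam_posA (by norm_num) (by norm_num)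
    (lam_hi.le.trans (by norm_num))
  refine h.trans ?_
  norm_num [Finset.sum_range_succ]

private theorem log12_ge : 2.4849 ≤ log 12 := by
  have h := lbA (a := 12) (x := 0.2) 3 6 (by norm_num) (by norm_num) (by norm_num)
  refine le_trans ?_ h
  norm_num [Finset.sum_range_succ]

private theorem log400_ge : 5.99146 ≤ log 400 := by
  have h := lbA (a := 400) (x := 9 / 41) 8 6 (by norm_num) (by norm_num) (by norm_num)
  refine le_trans ?_ h
  norm_num [Finset.sum_range_succ]

private theorem log132_ge : 4.88532 ≤ log (0.9925 / 0.0075) := by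
  have h := lbA (a := 0.9925 / 0.0075) (x := 0.016645) 7 3 (by norm_num) (by norm_num) (by norm_num)
  refine le_trans ?_ h
  norm_num [Finset.sum_range_succ]

private theorem log806_ge : 6.692196 ≤ log (800 * 0.9925 / 0.985) := by
  have h := lbA (a := 800 * 0.9925 / 0.985) (x := 0.2231191) 9 7
    (by norm_num) (by norm_num) (by norm_num)
  refine le_trans ?_ h
  norm_num [Finset.sum_range_succ]

/-- left side + 3.327527 = 1.18e-5 -/
theorem num_N1 : -3.327377 - 0.00015 ≤ 0.0075 * log 12 - log lam := by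
  have h1 := loglam_le
  have h2 := log12_ge
  linarith

/-- right side = 3.3272387 -/
theorem num_N2 : 3.327377 - 0.00015 ≤ 0.0075 * log 400 + 0.0075 * log (0.9925 / 0.0075) +
    0.985 * log (800 * 0.9925 / 0.985) - log lam := by
  have h1 := loglam_le
  have h2 := log400_ge
  have h3 := log132_ge
  have h4 := log806_ge
  linarith

/-- right side = -3.3253568 -/
theorem num_leafC : -3.327377 + 0.0019 ≤ 0.015 * log (4 / lam) + 0.985 * log (1 / lam) := by
  have h1 := loglam_le
  have h2 : (4 : ℝ) = 2 ^ 2 := by norm_num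
  have h3 := log_two_gt_d9
  rw [log_div (by norm_num) lam_posA.ne', log_div (by norm_num) lam_posA.ne', h2, log_pow, log_one]
  push_cast
  linarith

/-- right side = 3.33452 -/
theorem num_leafB : 3.327377 + 0.0019 ≤ 0.0075 * log (401 / lam) + 0.9925 * log (801 / lam) := by
  have h1 := loglam_le
  have h2 := log400_ge
  have h3 : log 400 ≤ log 401 := log_le_log (by norm_num) (by norm_num)
  have h4 : 6.685 ≤ log 801 := by
    have h := lbA (a := 801) (x := 0.22) 9 6 (by norm_num) (by norm_num) (by norm_num)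
    refine le_trans ?_ h
    norm_num [Finset.sum_range_succ]
  rw [log_div (by norm_num) lam_posA.ne', log_div (by norm_num) lam_posA.ne']
  linarith

end Pool.Agent.Lib.MP_dbb03c_co
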