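import Pool.Agent.Lib.MP_dbb03c_co.Conv
import Pool.Agent.Lib.MP_dbb03c_co.NumD
import Pool.Agent.Lib.MP_dbb03c_co.Gr2
import Pool.Agent.Lib.MP_dbb03c_co.Gr4
import Pool.Agent.Lib.MP_dbb03c_co.Hom5

/-! # The upper bound -/

set_option autoImplicit false

namespace Pool.Agent.Lib.MP_dbb03c_co

open Filter Topology

/-- the end: a vertex with a leaf and a path with two vertices -/
def te : RT := .gr (.gr .one .one) (.gr .one .one)

/-- a path with `m` vertices above `te` -/
def up : ℕ → RT
  | 0 => te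
  | m + 1 => .gr .one (up m)

/-- the path with both ends modified -/
def de (m : ℕ) : RT := .gr te (up m)

private theorem sz_up (m : ℕ) : (up m).sz = m + 4 := by
  induction m with
  | zero => rfl
  | succ m ih =>
    show 1 + (up m).sz = _
    omega

private theorem dep_up (m : ℕ) : (up m).dep = m + 2 := by
  induction m with
  | zero => rfl
  | succ m ih =>
    show max 0 ((up m).dep + 1) = _
    omega

private theorem rd_up (m : ℕ) : (up m).rd ≤ m + 3 := by
  induction m with
  | zero => exact le_refl 3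
  | succ m ih =>
    show max 0 (max (up m).rd (0 + (up m).dep + 1)) ≤ _
    rw [dep_up]
    omega

theorem sz_de (m : ℕ) : (de m).sz = m + 8 := by
  show 4 + (up m).sz = _
  rw [sz_up]
  omega

theorem rd_de (m : ℕ) : (de m).rd = m + 5 := by
  show max 3 (max (up m).rd (2 + (up m).dep + 1)) = _
  have := rd_up m
  rw [dep_up]
  omega

private theorem vec_te : vec te = BB e1 * BB (BB e1) := by
  show vec (.gr .one .one) * BB (vec (.gr .one .one)) = _
  rw [vec_gr_one]
  rfl

private theorem vec_up (m : ℕ) : vec (up m) = BB^[m] (BB e1 * BB (BB e1)) := by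
  induction m with
  | zero => exact vec_te
  | succ m ih =>
    show vec (.gr .one (up m)) = _
    rw [vec_gr_one, ih, Function.iterate_succ_apply']

theorem vec_de (m : ℕ) : vec (de m) = (BB e1 * BB (BB e1)) * BB^[m + 1] (BB e1 * BB (BB e1)) := by
  show vec te * BB (vec (up m)) = _
  rw [vec_te, vec_up, Function.iterate_succ_apply']

/-- `ip_tendsto` for `e1, e1` and for `xE, xE`, `num_E` -/
theorem de_lt : ∃ N : ℕ, ∀ m, N ≤ m → ip e1 (vec (de m)) < ip e1 (BB^[m + 7] e1) := by
  have h0 : ∀ m, ip e1 (vec (de m)) =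
      ip (BB e1 * BB (BB e1)) (BB^[m + 1] (BB e1 * BB (BB e1))) := by
    intro m
    rw [vec_de]
    simp only [ip, e1, Pi.mul_apply]
    ring
  have h1 := (ip_tendsto (BB e1 * BB (BB e1)) (BB e1 * BB (BB e1))).comp (tendsto_add_atTop_nat 1)
  have h2 := (ip_tendsto e1 e1).comp (tendsto_add_atTop_nat 7)
  have hpos : 0 ≤ ip ph (BB e1 * BB (BB e1)) := by
    have hb : ∀ i, 0 < BB e1 i := BB_pos (fun i => one_pos)
    have hb2 : ∀ i, 0 < BB (BB e1) i := BB_pos hb
    have hp := ph_pos
    have := hp 0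
    have := hp 1
    have := hp 2
    have := hp 3
    have := hb 0
    have := hb 1
    have := hb 2
    have := hb 3
    have := hb2 0
    have := hb2 1
    have := hb2 2
    have := hb2 3
    simp only [ip, Pi.mul_apply]
    positivity
  have hlt : ip ph (BB e1 * BB (BB e1)) * ip ph (BB e1 * BB (BB e1)) / NN <
      ip ph e1 * ip ph e1 / NN := by
    apply div_lt_div_of_pos_right _ NN_pos
    exact mul_self_lt_mul_self hpos num_E
  obtain ⟨c, hc1, hc2⟩ := exists_between hlt
  obtain ⟨N1, hN1⟩ := eventually_atTop.1 (h1.eventually (gt_mem_nhds hc1))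
  obtain ⟨N2, hN2⟩ := eventually_atTop.1 (h2.eventually (lt_mem_nhds hc2))
  refine ⟨max N1 N2, fun m hm => ?_⟩
  rw [h0]
  have a := hN1 m ((le_max_left _ _).trans hm)
  have b := hN2 m ((le_max_right _ _).trans hm)
  exact lt_trans a b

/-- a tree with `n` vertices, diameter at most `n - 3` and fewer colourings than the path -/
theorem exists_bad : ∃ N : ℕ, ∀ n, N ≤ n → ∃ T : SimpleGraph (Fin n), T.IsTree ∧
    (∀ a b, T.dist a b ≤ n - 3) ∧
    hom T (HatAdj 400 3 800) < hom (SimpleGraph.pathGraph n) (HatAdj 400 3 800) := by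
  obtain ⟨N, hN⟩ := de_lt
  refine ⟨N + 8, fun n hn => ?_⟩
  obtain ⟨m, rfl⟩ : ∃ m, n = m + 8 := ⟨n - 8, by omega⟩
  have hcard : Fintype.card (de m).V = m + 8 := by rw [RT.card_V, sz_de]
  let e : Fin (m + 8) ≃ (de m).V := (Fintype.equivFinOfCardEq hcard).symm
  let T : SimpleGraph (Fin (m + 8)) := (de m).G.comap e
  have he : ∀ a b, (de m).G.Adj (e a) (e b) ↔ T.Adj a b := fun a b => Iff.rfl
  refine ⟨T, (isTree_congr e he).2 (de m).isTree, fun a b => ?_, ?_⟩
  · rw [← dist_congr e he a b]
    have := (de m).dist_le (e a) (e b)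
    rw [rd_de] at this
    omega
  · rw [hom_congr (HatAdj 400 3 800) e he]
    have h7 := hom_rt' (de m)
    have h8 := hom_path (m + 7)
    have h9 := hN m (by omega)
    rw [sz_de] at h7
    have h10 : (hom (de m).G (HatAdj 400 3 800) : ℝ) <
        hom (SimpleGraph.pathGraph (m + 7 + 1)) (HatAdj 400 3 800) := by
      rw [h7, h8]
      exact mul_lt_mul_of_pos_left h9 (pow_pos lam_pos _)
    exact_mod_cast h10

theorem upper : ∃ N : ℕ, ∀ n, N ≤ n → dH (HatAdj 400 3 800) n + 4 ≤ n := by
  obtain ⟨N, hN⟩ := exists_bad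
  refine ⟨N + 4, fun n hn => ?_⟩
  obtain ⟨T, hT, hd, hlt⟩ := hN n (by omega)
  have h : dH (HatAdj 400 3 800) n ≤ n - 4 := by
    unfold dH
    rcases Set.eq_empty_or_nonempty {d | 2 ≤ d ∧ d ≤ n - 1 ∧
        ∀ T : SimpleGraph (Fin n), T.IsTree → (∀ a b, T.dist a b ≤ d) →
          hom (SimpleGraph.pathGraph n) (HatAdj 400 3 800) ≤ hom T (HatAdj 400 3 800)} with h0 | h0
    · rw [h0, csSup_empty]
      exact Nat.zero_le _
    · refine csSup_le h0 fun d hd' => ?_
      by_contra hcon
      push Not at hcon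
      have := hd'.2.2 T hT (fun a b => (hd a b).trans (by omega))
      omega
  omega

end Pool.Agent.Lib.MP_dbb03c_co
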