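import Pool.Agent.Lib.MP_dbb03c_co.Bd

/-! # The stationary entropy bound: Jensen

`ppi i = w i * (ph i)^2 / NN` is a probability vector (`w = (1, 400, 1200, 960000)`):
`0.004169591`, `0.007822048`, `0.495903835`, `0.492104526`.  Jensen's inequality for
`(BB x) i / ph i = ∑ j, P i j * (x j / ph j)`, `P i j = M i j * ph j / (lam * ph i)`, whose rows have
sum 1 (`BB_ph`) and which preserves `ppi`. -/

set_option autoImplicit false

namespace Pool.Agent.Lib.MP_dbb03c_co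

open Real

noncomputable def ppi : V4 :=
  ![ph 0 ^ 2 / NN, 400 * ph 1 ^ 2 / NN, 1200 * ph 2 ^ 2 / NN, 960000 * ph 3 ^ 2 / NN]

private theorem ppi0 : ppi 0 = ph 0 ^ 2 / NN := rfl
private theorem ppi1 : ppi 1 = 400 * ph 1 ^ 2 / NN := rfl
private theorem ppi2 : ppi 2 = 1200 * ph 2 ^ 2 / NN := rfl
private theorem ppi3 : ppi 3 = 960000 * ph 3 ^ 2 / NN := rfl

theorem ppi_sum : ppi 0 + ppi 1 + ppi 2 + ppi 3 = 1 := by
  have hN := NN_pos.ne'
  rw [ppi0, ppi1, ppi2, ppi3]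
  have h : NN = ph 0 ^ 2 + 400 * ph 1 ^ 2 + 1200 * ph 2 ^ 2 + 960000 * ph 3 ^ 2 := by
    unfold NN ip; ring
  rw [← add_div, ← add_div, ← add_div, ← h, div_self hN]

noncomputable def LP (x : V4) : ℝ :=
  ppi 0 * log (x 0) + ppi 1 * log (x 1) + ppi 2 * log (x 2) + ppi 3 * log (x 3)

theorem LP_mul {x y : V4} (hx : ∀ i, 0 < x i) (hy : ∀ i, 0 < y i) :
    LP (x * y) = LP x + LP y := by
  unfold LP
  simp only [Pi.mul_apply]
  rw [Real.log_mul (hx 0).ne' (hy 0).ne', Real.log_mul (hx 1).ne' (hy 1).ne',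
    Real.log_mul (hx 2).ne' (hy 2).ne', Real.log_mul (hx 3).ne' (hy 3).ne']
  ring

/-- two-point Jensen for weights `p, q > 0`, not normalised:
`p log a + q log b ≤ (p + q) log ((p a + q b)/(p + q))` -/
private theorem jens {p q a b s t : ℝ} (hp : 0 < p) (hq : 0 < q) (ha : 0 < a) (hb : 0 < b)
    (hs : s = p + q) (ht : t * s = p * a + q * b) :
    p * log a + q * log b ≤ s * log t := by
  have hs0 : 0 < s := by rw [hs]; positivity
  have ht0 : 0 < t := by
    have : 0 < t * s := by rw [ht]; positivity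
    exact (pos_iff_pos_of_mul_pos this).2 hs0
  have h1 : log (a / t) ≤ a / t - 1 := Real.log_le_sub_one_of_pos (by positivity)
  have h2 : log (b / t) ≤ b / t - 1 := Real.log_le_sub_one_of_pos (by positivity)
  rw [Real.log_div ha.ne' ht0.ne'] at h1
  rw [Real.log_div hb.ne' ht0.ne'] at h2
  have h3 : p * (a / t) + q * (b / t) = s := by
    field_simp
    linarith
  have h4 := mul_le_mul_of_nonneg_left h1 hp.le
  have h5 := mul_le_mul_of_nonneg_left h2 hq.le
  have : p * log a + q * log b ≤ (p + q) * log t := by nlinarith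
  rw [hs]; exact this

/-- Jensen -/
theorem LP_BB {x : V4} (hx : ∀ i, 0 < x i) : LP x ≤ LP (BB x) := by
  have hl : 0 < lam := lt_trans (by norm_num) lam_lo
  have p0 := ph_pos 0
  have p1 := ph_pos 1
  have p2 := ph_pos 2
  have p3 := ph_pos 3
  have x0 := hx 0
  have x1 := hx 1
  have x2 := hx 2
  have x3 := hx 3
  have b0 : BB x 0 = (x 0 + 400 * x 1) / lam := rfl
  have b1 : BB x 1 = (x 0 + 3 * x 2) / lam := rfl
  have b2 : BB x 2 = (x 1 + 800 * x 3) / lam := rfl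
  have b3 : BB x 3 = x 2 / lam := rfl
  have e0 : ph 0 + 400 * ph 1 = lam * ph 0 := by
    have h := congrFun BB_ph 0
    have h' : (ph 0 + 400 * ph 1) / lam = ph 0 := h
    rw [div_eq_iff hl.ne'] at h'
    linarith
  have e1 : ph 0 + 3 * ph 2 = lam * ph 1 := by
    have h := congrFun BB_ph 1
    have h' : (ph 0 + 3 * ph 2) / lam = ph 1 := h
    rw [div_eq_iff hl.ne'] at h'
    linarith
  have e2 : ph 1 + 800 * ph 3 = lam * ph 2 := by
    have h := congrFun BB_ph 2
    have h' : (ph 1 + 800 * ph 3) / lam = ph 2 := h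
    rw [div_eq_iff hl.ne'] at h'
    linarith
  have e3 : ph 2 = lam * ph 3 := by
    have h := congrFun BB_ph 3
    have h' : ph 2 / lam = ph 3 := h
    rw [div_eq_iff hl.ne'] at h'
    linarith
  have c0 : 0 < BB x 0 := by rw [b0]; positivity
  have c1 : 0 < BB x 1 := by rw [b1]; positivity
  have c2 : 0 < BB x 2 := by rw [b2]; positivity
  have c3 : 0 < BB x 3 := by rw [b3]; positivity
  have r0 := jens (p := ph 0) (q := 400 * ph 1) (a := x 0 / ph 0) (b := x 1 / ph 1)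
    (s := lam * ph 0) (t := BB x 0 / ph 0) p0 (by positivity) (by positivity) (by positivity)
    e0.symm (by rw [b0]; field_simp)
  have r1 := jens (p := ph 0) (q := 3 * ph 2) (a := x 0 / ph 0) (b := x 2 / ph 2)
    (s := lam * ph 1) (t := BB x 1 / ph 1) p0 (by positivity) (by positivity) (by positivity)
    e1.symm (by rw [b1]; field_simp)
  have r2 := jens (p := ph 1) (q := 800 * ph 3) (a := x 1 / ph 1) (b := x 3 / ph 3)
    (s := lam * ph 2) (t := BB x 2 / ph 2) p1 (by positivity) (by positivity) (by positivity)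
    e2.symm (by rw [b2]; field_simp)
  have r3 : log (BB x 3 / ph 3) = log (x 2 / ph 2) := by
    congr 1
    rw [b3, e3]
    field_simp
  rw [Real.log_div x0.ne' p0.ne', Real.log_div x1.ne' p1.ne', Real.log_div c0.ne' p0.ne'] at r0
  rw [Real.log_div x0.ne' p0.ne', Real.log_div x2.ne' p2.ne', Real.log_div c1.ne' p1.ne'] at r1
  rw [Real.log_div x1.ne' p1.ne', Real.log_div x3.ne' p3.ne', Real.log_div c2.ne' p2.ne'] at r2
  rw [Real.log_div x2.ne' p2.ne', Real.log_div c3.ne' p3.ne'] at r3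
  have hN := NN_pos
  unfold LP
  rw [ppi0, ppi1, ppi2, ppi3]
  generalize log (x 0) = X0 at *
  generalize log (x 1) = X1 at *
  generalize log (x 2) = X2 at *
  generalize log (x 3) = X3 at *
  generalize log (BB x 0) = Y0 at *
  generalize log (BB x 1) = Y1 at *
  generalize log (BB x 2) = Y2 at *
  generalize log (BB x 3) = Y3 at *
  generalize log (ph 0) = L0 at *
  generalize log (ph 1) = L1 at *
  generalize log (ph 2) = L2 at *
  generalize log (ph 3) = L3 at *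
  clear c0 c1 c2 c3 b0 b1 b2 b3 x0 x1 x2 x3 hx
  generalize ph 0 = a0 at *
  generalize ph 1 = a1 at *
  generalize ph 2 = a2 at *
  generalize ph 3 = a3 at *
  have s0 := mul_le_mul_of_nonneg_left r0 p0.le
  have s1 := mul_le_mul_of_nonneg_left r1 (show (0 : ℝ) ≤ 400 * a1 by positivity)
  have s2 := mul_le_mul_of_nonneg_left r2 (show (0 : ℝ) ≤ 1200 * a2 by positivity)
  have s3 : 960000 * a3 * (lam * a3) * (Y3 - L3) = 960000 * a3 * a2 * (X2 - L2) := by
    rw [r3, e3]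
  have key : lam * (a0 ^ 2 * (X0 - L0) + 400 * a1 ^ 2 * (X1 - L1) + 1200 * a2 ^ 2 * (X2 - L2) +
      960000 * a3 ^ 2 * (X3 - L3)) ≤
      lam * (a0 ^ 2 * (Y0 - L0) + 400 * a1 ^ 2 * (Y1 - L1) + 1200 * a2 ^ 2 * (Y2 - L2) +
      960000 * a3 ^ 2 * (Y3 - L3)) := by
    have t : lam * (a0 ^ 2 * (X0 - L0) + 400 * a1 ^ 2 * (X1 - L1) + 1200 * a2 ^ 2 * (X2 - L2) +
      960000 * a3 ^ 2 * (X3 - L3)) =
      a0 * (lam * a0) * (X0 - L0) + 400 * a1 * (lam * a1) * (X1 - L1) +
        1200 * a2 * (lam * a2) * (X2 - L2) + 960000 * a3 * (lam * a3) * (X3 - L3) := by ring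
    rw [t, ← e0, ← e1, ← e2, ← e3]
    linarith [s0, s1, s2, s3]
  have key2 := le_of_mul_le_mul_left key hl
  have g1 : a0 ^ 2 / NN * X0 + 400 * a1 ^ 2 / NN * X1 + 1200 * a2 ^ 2 / NN * X2 +
      960000 * a3 ^ 2 / NN * X3 =
      (a0 ^ 2 * X0 + 400 * a1 ^ 2 * X1 + 1200 * a2 ^ 2 * X2 + 960000 * a3 ^ 2 * X3) / NN := by
    ring
  have g2 : a0 ^ 2 / NN * Y0 + 400 * a1 ^ 2 / NN * Y1 + 1200 * a2 ^ 2 / NN * Y2 +
      960000 * a3 ^ 2 / NN * Y3 =
      (a0 ^ 2 * Y0 + 400 * a1 ^ 2 * Y1 + 1200 * a2 ^ 2 * Y2 + 960000 * a3 ^ 2 * Y3) / NN := by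
    ring
  rw [g1, g2]
  apply div_le_div_of_nonneg_right _ hN.le
  linarith

end Pool.Agent.Lib.MP_dbb03c_co
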