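import Pool.Agent.Lib.MP_dbb03c_co.Pi1

/-! # The gain of a leaf -/

set_option autoImplicit false

namespace Pool.Agent.Lib.MP_dbb03c_co

open Real

private theorem p2_log801 : 1987 / 206 * 0.6931471803 ≤ log 801 := by
  have h0 : ((2 : ℕ) ^ 1987 : ℕ) ≤ 801 ^ 206 := by decide +kernel
  have h1 : ((2 : ℝ) ^ 1987) ≤ 801 ^ 206 := by exact_mod_cast h0
  have h2 : log ((2 : ℝ) ^ 1987) ≤ log (801 ^ 206) := log_le_log (by positivity) h1
  rw [log_pow, log_pow] at h2
  have h3 := Real.log_two_gt_d9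
  push_cast at h2
  linarith

private theorem p2_log401 : 147 / 17 * 0.6931471803 ≤ log 401 := by
  have h0 : ((2 : ℕ) ^ 147 : ℕ) ≤ 401 ^ 17 := by decide +kernel
  have h1 : ((2 : ℝ) ^ 147) ≤ 401 ^ 17 := by exact_mod_cast h0
  have h2 : log ((2 : ℝ) ^ 147) ≤ log (401 ^ 17) := log_le_log (by positivity) h1
  rw [log_pow, log_pow] at h2
  have h3 := Real.log_two_gt_d9
  push_cast at h2
  linarith

private theorem p2_log4 : 2 * 0.6931471803 ≤ log 4 := by
  have h2 : log ((4 : ℝ)) = 2 * log 2 := by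
    rw [show (4 : ℝ) = 2 ^ 2 by norm_num, log_pow]
    push_cast
    ring
  have h3 := Real.log_two_gt_d9
  linarith

/-- `LP (BB e1) = ∑ ppi i * log deg i - log lam = 0.0052288...` with `deg = (401, 4, 801, 1)` -/
theorem LP_leaf : 0.0052 ≤ LP (BB e1) := by
  have hl := lam_pos
  have e0 : BB e1 0 = 401 / lam := by simp [BB, AA, e1]; norm_num
  have e1' : BB e1 1 = 4 / lam := by simp [BB, AA, e1]; norm_num
  have e2 : BB e1 2 = 801 / lam := by simp [BB, AA, e1]; norm_num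
  have e3 : BB e1 3 = 1 / lam := by simp [BB, AA, e1]
  have hs := ppi_sum
  have hN := NN_pos
  obtain ⟨hN1, hN2⟩ := NN_bd
  obtain ⟨h01, h02⟩ := ph0_bd
  obtain ⟨h11, h12⟩ := ph1_bd
  have q0 : 0.0041695 ≤ ppi 0 := by
    show 0.0041695 ≤ ph 0 ^ 2 / NN
    rw [le_div_iff₀ hN]
    nlinarith
  have q1 : 0.007822 ≤ ppi 1 := by
    show 0.007822 ≤ 400 * ph 1 ^ 2 / NN
    rw [le_div_iff₀ hN]
    nlinarith
  have q2 : 0.4959038 ≤ ppi 2 := by
    show 0.4959038 ≤ 1200 * ph 2 ^ 2 / NN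
    rw [le_div_iff₀ hN, ph2_eq]
    nlinarith [lam_lo, lam_hi]
  have hlp : LP (BB e1) = ppi 0 * log 401 + ppi 1 * log 4 + ppi 2 * log 801 - log lam := by
    unfold LP
    rw [e0, e1', e2, e3, log_div (by norm_num) hl.ne', log_div (by norm_num) hl.ne',
      log_div (by norm_num) hl.ne', log_div (by norm_num) hl.ne', log_one]
    have : ppi 3 = 1 - ppi 0 - ppi 1 - ppi 2 := by linarith
    rw [this]
    ring
  rw [hlp]
  have l1 := p2_log801
  have l2 := p2_log401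
  have l3 := p2_log4
  have l4 := log_lam_bd.2
  have m0 : 0.0041695 * (147 / 17 * 0.6931471803) ≤ ppi 0 * log 401 :=
    mul_le_mul q0 l2 (by norm_num) (by linarith)
  have m1 : 0.007822 * (2 * 0.6931471803) ≤ ppi 1 * log 4 :=
    mul_le_mul q1 l3 (by norm_num) (by linarith)
  have m2 : 0.4959038 * (1987 / 206 * 0.6931471803) ≤ ppi 2 * log 801 :=
    mul_le_mul q2 l1 (by norm_num) (by linarith)
  norm_num at m0 m1 m2 ⊢
  linarith

end Pool.Agent.Lib.MP_dbb03c_co
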