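import Pool.Agent.Lib.MP_dbb03c_co.Stmt

/-! # Rooted trees as an inductive type

`one` is a single vertex, `gr s t` is `s` with the tree `t` hung to the root of `s` (a new child). -/

set_option autoImplicit false

namespace Pool.Agent.Lib.MP_dbb03c_co

/-- rooted trees -/
inductive RT : Type
  | one : RT
  | gr (s t : RT) : RT

namespace RT

/-- number of vertices -/
def sz : RT → ℕ
  | one => 1
  | gr s t => s.sz + t.sz

/-- depth -/
def dep : RT → ℕ
  | one => 0
  | gr s t => max s.dep (t.dep + 1)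

/-- diameter -/
def rd : RT → ℕ
  | one => 0
  | gr s t => max s.rd (max t.rd (s.dep + t.dep + 1))

/-- number of leaves different from the root -/
def lv : RT → ℕ
  | one => 0
  | gr s t => s.lv + max 1 t.lv

/-- the vertex type -/
def V : RT → Type
  | one => Unit
  | gr s t => s.V ⊕ t.V

/-- the root -/
def root : (t : RT) → t.V
  | one => ()
  | gr s _ => Sum.inl s.root

/-- adjacency -/
def Ad : (t : RT) → t.V → t.V → Prop
  | one => fun _ _ => False
  | gr s t => fun a b =>
    match a, b with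
    | Sum.inl a, Sum.inl b => s.Ad a b
    | Sum.inr a, Sum.inr b => t.Ad a b
    | Sum.inl a, Sum.inr b => a = s.root ∧ b = t.root
    | Sum.inr a, Sum.inl b => b = s.root ∧ a = t.root

theorem Ad_symm : ∀ (t : RT) (a b : t.V), t.Ad a b → t.Ad b a
  | one, _, _, h => h
  | gr s _, Sum.inl a, Sum.inl b, h => Ad_symm s a b h
  | gr _ t, Sum.inr a, Sum.inr b, h => Ad_symm t a b h
  | gr _ _, Sum.inl _, Sum.inr _, h => h
  | gr _ _, Sum.inr _, Sum.inl _, h => h

theorem Ad_irrefl : ∀ (t : RT) (a : t.V), ¬ t.Ad a a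
  | one, _, h => h
  | gr s _, Sum.inl a, h => Ad_irrefl s a h
  | gr _ t, Sum.inr a, h => Ad_irrefl t a h

/-- the graph -/
def G (t : RT) : SimpleGraph t.V where
  Adj := t.Ad
  symm := ⟨fun a b h => t.Ad_symm a b h⟩
  loopless := ⟨fun a h => t.Ad_irrefl a h⟩

end RT

end Pool.Agent.Lib.MP_dbb03c_co
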