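import Pool.Agent.Lib.MP_dbb03c_co.Ct2

/-! # Certificates of rooted trees

Each maximal chain costs `0.0032`, each planted leaf gains `0.0019`; `0.0045 = 2 * 0.0032 - 0.0019`.
`max 1 t.lv` is the number of leaves of the planted tree. -/

set_option autoImplicit false

namespace Pool.Agent.Lib.MP_dbb03c_co

open Real

private theorem ct_both (t : RT) :
    (∀ j, 1 ≤ j → Ct 0 (0.0045 * (max 1 t.lv : ℕ) - 0.0032) (BB^[j] (vec t))) ∧
    (t ≠ RT.one → Ct 0 (0.0045 * (t.lv : ℕ) - 0.0032) (vec t)) ∧
    (∀ a b, t = RT.gr a b → a ≠ RT.one → Ct 0 (0.0045 * (t.lv : ℕ) - 0.0064) (vec t)) := by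
  induction t with
  | one =>
    refine ⟨fun j hj => ?_, fun h => absurd rfl h, fun a b h => by cases h⟩
    obtain ⟨i, rfl⟩ : ∃ i, j = i + 1 := ⟨j - 1, by omega⟩
    have h1 := (Ct.base Bs_leaf).chain i
    rw [← Function.iterate_succ_apply] at h1
    refine h1.weak le_rfl ?_
    norm_num [RT.lv]
  | gr s t hs ht =>
    by_cases h1 : s = RT.one
    · subst h1
      have hlv : (RT.gr RT.one t).lv = max 1 t.lv := by simp [RT.lv]
      refine ⟨fun j hj => ?_, fun _ => ?_, fun a b h h' => ?_⟩
      · rw [vec_gr_one, ← Function.iterate_succ_apply]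
        have h2 := ht.1 (j + 1) (by omega)
        rw [hlv]
        have h3 : max 1 (max 1 t.lv) = max 1 t.lv := by omega
        rw [h3]
        exact h2
      · rw [vec_gr_one, hlv]
        exact ht.1 1 le_rfl
      · cases h
        exact absurd rfl h'
    · have key : Ct 0 (0.0045 * ((RT.gr s t).lv : ℕ) - 0.0064) (vec (RT.gr s t)) := by
        have h2 := (hs.2.1 h1).mul (ht.1 1 le_rfl)
        refine h2.weak le_rfl ?_
        simp only [RT.lv, Nat.cast_add]
        linarith
      have hl : 1 ≤ (RT.gr s t).lv := by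
        simp only [RT.lv]
        omega
      refine ⟨fun j _ => ?_, fun _ => key.weak le_rfl (by linarith), fun _ _ _ _ => key⟩
      have h3 : max 1 (RT.gr s t).lv = (RT.gr s t).lv := by omega
      rw [h3]
      exact (key.chain j).weak le_rfl (by linarith)

/-- Proof: induction on `t` for all `j` at once. `one`: `BB^[j] e1 = BB^[j-1] (BB e1)`, `Bs_leaf`,
`Ct.chain`. `gr one t`: `vec (gr one t) = BB (vec t)`, use the induction hypothesis for `t` with `j + 1`.
`gr s t` with `s ≠ one`: `s = gr s1 s2`; the certificate of `vec s` is the one stated in `ct_root` below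
(prove the two statements together), that of `BB (vec t)` the induction hypothesis with `j = 1`;
`Ct.mul`, `Ct.chain`. -/
theorem ct_plant (t : RT) (j : ℕ) (hj : 1 ≤ j) :
    Ct 0 (0.0045 * (max 1 t.lv : ℕ) - 0.0032) (BB^[j] (vec t)) :=
  (ct_both t).1 j hj

theorem ct_root (t : RT) (ht : t ≠ RT.one) : Ct 0 (0.0045 * (t.lv : ℕ) - 0.0032) (vec t) :=
  (ct_both t).2.1 ht

/-- the certificate of the vector of a branching root -/
theorem ct_gr (s t : RT) (hs : s ≠ RT.one) :
    Ct 0 (0.0045 * ((RT.gr s t).lv : ℕ) - 0.0064) (vec (RT.gr s t)) :=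
  (ct_both (RT.gr s t)).2.2 s t rfl hs

end Pool.Agent.Lib.MP_dbb03c_co
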