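import Pool.Agent.Lib.MP_dbb03c_co.Rec1

/-! # Deep rooted trees -/

set_option autoImplicit false

namespace Pool.Agent.Lib.MP_dbb03c_co

open Real

private theorem deep_one (j : ℕ) (h : 30001 ≤ j) :
    Ct 1 (0.0045 * ((1 : ℕ) : ℝ) - 0.0032) (BB^[j] (vec RT.one)) := by
  obtain ⟨k, rfl⟩ : ∃ k, j = k + 1 := ⟨j - 1, by omega⟩
  have h0 : Ct 0 (-0.0019) (BB e1) := Ct.base Bs_leaf
  have h1 := Ct.forced (m := 0) (by simp) h0 (j := k) (by omega)
  have h2 : BB^[k + 1] (vec RT.one) = BB^[k] (BB e1) := by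
    rw [Function.iterate_succ_apply]
    rfl
  rw [h2]
  exact h1.weak le_rfl (by norm_num)

private theorem lv_pos : ∀ (t : RT), t ≠ RT.one → 1 ≤ t.lv
  | .one, h => absurd rfl h
  | .gr s t, _ => by
    simp only [RT.lv]
    have := le_max_left 1 t.lv
    omega

/-- the branching vertex, once both statements are known for the two parts -/
private theorem deep_br (s t : RT) (hs : s ≠ RT.one)
    (ihs : 30001 * s.lv ≤ s.dep → Ct 1 (0.0045 * (s.lv : ℕ) - 0.0032) (vec s))
    (iht : 30001 * max 1 t.lv ≤ t.dep + 1 →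
      Ct 1 (0.0045 * (max 1 t.lv : ℕ) - 0.0032) (BB^[1] (vec t)))
    (h : 30001 * ((RT.gr s t).lv - 1) ≤ (RT.gr s t).dep) :
    Ct 1 (0.0045 * ((RT.gr s t).lv : ℕ) - 0.0064) (vec (RT.gr s t)) := by
  have h1 : 1 ≤ s.lv := lv_pos s hs
  have h2 : 1 ≤ max 1 t.lv := le_max_left _ _
  have hv : vec (RT.gr s t) = vec s * BB^[1] (vec t) := rfl
  have hl : (RT.gr s t).lv = s.lv + max 1 t.lv := rfl
  have hd : (RT.gr s t).dep = max s.dep (t.dep + 1) := rfl
  rw [hd, hl] at h
  rw [hv, hl]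
  rcases le_total (t.dep + 1) s.dep with hle | hle
  · rw [max_eq_left hle] at h
    have a1 := ihs (by omega)
    have a2 := ct_plant t 1 le_rfl
    refine (a1.mul a2).weak (by norm_num) ?_
    push_cast
    linarith
  · rw [max_eq_right hle] at h
    have a1 := ct_root s hs
    have a2 := iht (by omega)
    refine (a1.mul a2).weak (by norm_num) ?_
    push_cast
    linarith

private theorem deep_aux : ∀ (t : RT),
    (∀ j : ℕ, 1 ≤ j → 30001 * max 1 t.lv ≤ t.dep + j →
      Ct 1 (0.0045 * (max 1 t.lv : ℕ) - 0.0032) (BB^[j] (vec t))) ∧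
    (t ≠ RT.one → 30001 * t.lv ≤ t.dep → Ct 1 (0.0045 * (t.lv : ℕ) - 0.0032) (vec t))
  | .one => by
    refine ⟨fun j _ h => ?_, fun h => absurd rfl h⟩
    have hl : max 1 (RT.one).lv = 1 := rfl
    have hd : (RT.one).dep = 0 := rfl
    rw [hl, hd] at h
    rw [hl]
    exact deep_one j (by omega)
  | .gr s t => by
    obtain ⟨t1, -⟩ := deep_aux t
    obtain ⟨-, s2⟩ := deep_aux s
    have h2 : 1 ≤ max 1 t.lv := le_max_left _ _
    have hl : (RT.gr s t).lv = s.lv + max 1 t.lv := rfl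
    have hd : (RT.gr s t).dep = max s.dep (t.dep + 1) := rfl
    by_cases hs : s = RT.one
    · subst hs
      have hl1 : (RT.gr RT.one t).lv = max 1 t.lv := by rw [hl]; simp [RT.lv]
      have hd1 : (RT.gr RT.one t).dep = t.dep + 1 := by rw [hd]; simp [RT.dep]
      have hm : max 1 (max 1 t.lv) = max 1 t.lv := max_eq_right h2
      refine ⟨fun j _ h => ?_, fun _ h => ?_⟩
      · rw [hl1, hd1, hm] at h
        rw [hl1, hm, vec_gr_one, ← Function.iterate_succ_apply]
        exact t1 (j + 1) (by omega) (by omega)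
      · rw [hl1, hd1] at h
        rw [hl1, vec_gr_one]
        exact t1 1 le_rfl h
    · have h1 : 1 ≤ s.lv := lv_pos s hs
      have hm : max 1 (RT.gr s t).lv = (RT.gr s t).lv := max_eq_right (by rw [hl]; omega)
      refine ⟨fun j _ h => ?_, fun _ h => ?_⟩
      · rw [hm] at h ⊢
        rcases le_or_gt 30001 j with hj | hj
        · have a := Ct.forced (m := 0) (by simp) (ct_gr s t hs) (j := j) (by omega)
          exact a.weak le_rfl (by linarith)
        · have a := deep_br s t hs (s2 hs) (t1 1 le_rfl) (by omega)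
          exact (a.chain j).weak le_rfl (by linarith)
      · have a := deep_br s t hs (s2 hs) (t1 1 le_rfl) (by omega)
        exact a.weak le_rfl (by linarith)

/-- deep trees have a long chain: joint induction of this statement and the next one.
For `t = gr s t'`, `s ≠ one`: if `30001 ≤ j` use `Ct.forced` and `ct_gr`; otherwise
`t.dep > 30001 * (t.lv - 1)`, so `s.dep ≥ 30001 * s.lv` or `t'.dep + 1 ≥ 30001 * max 1 t'.lv`.
(for `one` the chain has `j - 1 ≥ 30000` plantings of `BB e1`) -/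
theorem deep_plant (t : RT) (j : ℕ) (hj : 1 ≤ j) (h : 30001 * max 1 t.lv ≤ t.dep + j) :
    Ct 1 (0.0045 * (max 1 t.lv : ℕ) - 0.0032) (BB^[j] (vec t)) :=
  (deep_aux t).1 j hj h

theorem deep_root (t : RT) (ht : t ≠ RT.one) (h : 30001 * t.lv ≤ t.dep) :
    Ct 1 (0.0045 * (t.lv : ℕ) - 0.0032) (vec t) :=
  (deep_aux t).2 ht h

end Pool.Agent.Lib.MP_dbb03c_co
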