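import Pool.Agent.Lib.MP_dbb03c_co.Rec2
import Pool.Agent.Lib.MP_dbb03c_co.Gd

/-! # Rooted trees with a good vertex -/

set_option autoImplicit false

namespace Pool.Agent.Lib.MP_dbb03c_co

open Real

private theorem lv_pos_aux {s : RT} (hs : s ≠ RT.one) : 1 ≤ s.lv := by
  cases s with
  | one => exact absurd rfl hs
  | gr a b =>
    simp only [RT.lv]
    omega

private theorem gd_aux : ∀ (t : RT) (u : ℕ), t.lv ≤ 399 → Gd MM t u →
    (∀ j : ℕ, 1 ≤ j → (Ct 3 (0.0045 * (max 1 t.lv : ℕ) - 0.0032) (BB^[j] (vec t)) ∨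
      (Ct 2 (0.0045 * (max 1 t.lv : ℕ) - 0.0032) (BB^[j] (vec t)) ∧
        MM + j ≤ u + 30001 * max 1 t.lv))) ∧
    (Ct 3 (0.0045 * (t.lv : ℕ) - 0.0032) (vec t) ∨
      (Ct 2 (0.0045 * (t.lv : ℕ) - 0.0032) (vec t) ∧ MM ≤ u + 30001 * t.lv)) := by
  intro t
  induction t with
  | one =>
    intro u _ h
    exact absurd h id
  | gr s t' ihs iht =>
    intro u hl h
    by_cases hs : s = RT.one
    · subst hs
      have hlv : (RT.gr RT.one t').lv = max 1 t'.lv := by simp [RT.lv]
      have hG : Gd MM t' (u + 1) := by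
        rcases h with h | h | h
        · have := h.2.1
          simp [RT.dep, MM] at this
        · exact absurd h id
        · exact h
      have hl' : t'.lv ≤ 399 := by rw [hlv] at hl; omega
      have ih := (iht (u + 1) hl' hG).1
      have hmax : max 1 (max 1 t'.lv) = max 1 t'.lv := by omega
      rw [hlv, hmax, vec_gr_one]
      constructor
      · intro j hj
        have e : BB^[j] (BB (vec t')) = BB^[j + 1] (vec t') := by
          rw [Function.iterate_succ_apply]
        rw [e]
        rcases ih (j + 1) (by omega) with h3 | ⟨h2, h4⟩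
        · exact Or.inl h3
        · exact Or.inr ⟨h2, by simp only [MM] at h4 ⊢; omega⟩
      · rcases ih 1 le_rfl with h3 | ⟨h2, h4⟩
        · exact Or.inl h3
        · exact Or.inr ⟨h2, by simp only [MM] at h4 ⊢; omega⟩
    · have hlv : (RT.gr s t').lv = s.lv + max 1 t'.lv := rfl
      have hs1 : 1 ≤ s.lv := lv_pos_aux hs
      have ht1 : 1 ≤ max 1 t'.lv := le_max_left _ _
      rw [hlv] at hl
      have hls : s.lv ≤ 399 := by omega
      have hlt : t'.lv ≤ 399 := by omega
      have key : Ct 3 (0.0045 * (s.lv : ℕ) - 0.0032 + (0.0045 * (max 1 t'.lv : ℕ) - 0.0032))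
            (vec (RT.gr s t')) ∨
          (Ct 2 (0.0045 * (s.lv : ℕ) - 0.0032 + (0.0045 * (max 1 t'.lv : ℕ) - 0.0032))
            (vec (RT.gr s t')) ∧ MM + 30001 ≤ u + 30001 * (s.lv + max 1 t'.lv)) := by
        have hv : vec (RT.gr s t') = vec s * BB^[1] (vec t') := rfl
        rw [hv]
        rcases h with h | h | h
        · obtain ⟨h1, h2, h3⟩ := h
          simp only [MM] at h1 h2 h3
          refine Or.inr ⟨?_, by simp only [MM]; omega⟩
          exact (deep_root s hs (by omega)).mul (deep_plant t' 1 le_rfl (by omega))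
        · rcases (ihs u hls h).2 with h3 | ⟨h2, h4⟩
          · exact Or.inl (h3.mul (ct_plant t' 1 le_rfl))
          · exact Or.inr ⟨h2.mul (ct_plant t' 1 le_rfl), by simp only [MM] at h4 ⊢; omega⟩
        · rcases (iht (u + 1) hlt h).1 1 le_rfl with h3 | ⟨h2, h4⟩
          · exact Or.inl (by simpa only [zero_add] using (ct_root s hs).mul h3)
          · exact Or.inr ⟨by simpa only [zero_add] using (ct_root s hs).mul h2, by simp only [MM] at h4 ⊢; omega⟩
      rw [hlv]
      have hmax : max 1 (s.lv + max 1 t'.lv) = s.lv + max 1 t'.lv := by omega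
      rw [hmax]
      constructor
      · intro j hj
        rcases key with h3 | ⟨h2, h4⟩
        · exact Or.inl ((h3.chain j).weak le_rfl (by push_cast; linarith))
        · rcases Nat.lt_or_ge j 30000 with hj' | hj'
          · exact Or.inr ⟨(h2.chain j).weak le_rfl (by push_cast; linarith), by simp only [MM] at h4 ⊢; omega⟩
          · exact Or.inl ((Ct.forced (by decide) h2 hj').weak le_rfl (by push_cast; linarith))
      · rcases key with h3 | ⟨h2, h4⟩
        · exact Or.inl (h3.weak le_rfl (by push_cast; linarith))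
        · exact Or.inr ⟨h2.weak le_rfl (by push_cast; linarith), by simp only [MM] at h4 ⊢; omega⟩

/-- joint induction of this statement and the next one; `Ct 1` for both branches at the vertex
(`deep_root`, `deep_plant`), so `Ct 2`; a chain of at least 30001 plantings above makes it `Ct 3`
(`Ct.forced` with `m = 2`), otherwise we pay 30001 of the `30001 * lv` for each branching. -/
theorem good_plant (t : RT) (u j : ℕ) (hj : 1 ≤ j) (hl : t.lv ≤ 399) (h : Gd MM t u) :
    Ct 3 (0.0045 * (max 1 t.lv : ℕ) - 0.0032) (BB^[j] (vec t)) ∨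
    (Ct 2 (0.0045 * (max 1 t.lv : ℕ) - 0.0032) (BB^[j] (vec t)) ∧
      MM + j ≤ u + 30001 * max 1 t.lv) :=
  (gd_aux t u hl h).1 j hj

theorem good_root (t : RT) (ht : t ≠ RT.one) (u : ℕ) (hl : t.lv ≤ 399) (h : Gd MM t u) :
    Ct 3 (0.0045 * (t.lv : ℕ) - 0.0032) (vec t) ∨
    (Ct 2 (0.0045 * (t.lv : ℕ) - 0.0032) (vec t) ∧ MM ≤ u + 30001 * t.lv) :=
  (gd_aux t u hl h).2

/-- the main estimate: few leaves and three deep branches -/
theorem good_fin (t : RT) (hl : t.lv ≤ 399) (h : Gd MM t 0) : exp 13.15 ≤ ip e1 (vec t) := by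
  rcases (gd_aux t 0 hl h).2 with h3 | ⟨_, h4⟩
  · refine le_trans (exp_le_exp.2 ?_) h3.fin
    have : (t.lv : ℝ) ≤ 399 := by exact_mod_cast hl
    linarith
  · simp only [MM] at h4
    omega

end Pool.Agent.Lib.MP_dbb03c_co
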