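import Pool.Agent.Lib.MP_dbb03c_co.Gr1

/-! # Adding a leaf -/

set_option autoImplicit false

namespace Pool.Agent.Lib.MP_dbb03c_co

namespace RT

/-- add a leaf at the vertex `w` -/
def add : (t : RT) → t.V → RT
  | one, _ => gr one one
  | gr s t, Sum.inl w => gr (s.add w) t
  | gr s t, Sum.inr w => gr s (t.add w)

private def eqL {A B A' : Type} (e : Option A ≃ A') : Option (A ⊕ B) ≃ A' ⊕ B where
  toFun
    | none => Sum.inl (e none)
    | some (Sum.inl a) => Sum.inl (e (some a))
    | some (Sum.inr b) => Sum.inr b
  invFun
    | Sum.inl a => (e.symm a).map Sum.inl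
    | Sum.inr b => some (Sum.inr b)
  left_inv := by
    rintro (_ | a | b) <;> simp
  right_inv := by
    rintro (a | b)
    · obtain ⟨c, rfl⟩ := e.surjective a
      rcases c with _ | c <;> simp
    · rfl

private def eqR {A B B' : Type} (e : Option B ≃ B') : Option (A ⊕ B) ≃ A ⊕ B' where
  toFun
    | none => Sum.inr (e none)
    | some (Sum.inl a) => Sum.inl a
    | some (Sum.inr b) => Sum.inr (e (some b))
  invFun
    | Sum.inl a => some (Sum.inl a)
    | Sum.inr b => (e.symm b).map Sum.inr
  left_inv := by
    rintro (_ | a | b) <;> simp
  right_inv := by
    rintro (a | b)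
    · rfl
    · obtain ⟨c, rfl⟩ := e.surjective b
      rcases c with _ | c <;> simp

/-- the graph of `t.add w` is the graph of `t` with a pendant vertex `none` at `w` (induction on `t`) -/
theorem add_equiv : ∀ (t : RT) (w : t.V), ∃ e : Option t.V ≃ (t.add w).V,
    e (some t.root) = (t.add w).root ∧
    (∀ a b, (t.add w).G.Adj (e (some a)) (e (some b)) ↔ t.G.Adj a b) ∧
    (∀ a, (t.add w).G.Adj (e (some a)) (e none) ↔ a = w) := by
  intro t
  induction t with
  | one =>
    intro w
    let e : Option Unit ≃ Unit ⊕ Unit :=
      { toFun := fun o => match o with
          | none => Sum.inr ()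
          | some _ => Sum.inl ()
        invFun := fun o => match o with
          | Sum.inr _ => none
          | Sum.inl _ => some ()
        left_inv := by rintro (_ | _) <;> rfl
        right_inv := by rintro (_ | _) <;> rfl }
    exact ⟨e, rfl, fun _ _ => Iff.rfl, fun a =>
      ⟨fun _ => rfl, fun _ => (adj_lr one one _ _).2 ⟨rfl, rfl⟩⟩⟩
  | gr s t ihs iht =>
    intro w
    rcases w with w | w
    · obtain ⟨e, h0, h1, h2⟩ := ihs w
      have hroot : ∀ a : s.V, e (some a) = (s.add w).root ↔ a = s.root := by
        intro a
        rw [← h0]
        constructor
        · intro h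
          exact Option.some.inj (e.injective h)
        · rintro rfl
          rfl
      have hnone : e none ≠ (s.add w).root := by
        rw [← h0]
        intro h
        exact absurd (e.injective h) (by simp)
      refine ⟨eqL e, ?_, ?_, ?_⟩
      · exact congrArg Sum.inl h0
      · rintro (a | a) (b | b)
        · exact h1 a b
        · exact (adj_lr (s.add w) t (e (some a)) b).trans
            ((and_congr_left fun _ => hroot a).trans (adj_lr s t a b).symm)
        · exact (adj_rl (s.add w) t a (e (some b))).trans
            ((and_congr_left fun _ => hroot b).trans (adj_rl s t a b).symm)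
        · exact Iff.rfl
      · rintro (a | a)
        · exact (h2 a).trans ⟨fun h => congrArg Sum.inl h, fun h => Sum.inl.inj h⟩
        · constructor
          · intro h
            exact absurd ((adj_rl (s.add w) t a (e none)).1 h).1 hnone
          · intro h
            exact absurd h Sum.inr_ne_inl
    · obtain ⟨e, h0, h1, h2⟩ := iht w
      have hroot : ∀ a : t.V, e (some a) = (t.add w).root ↔ a = t.root := by
        intro a
        rw [← h0]
        constructor
        · intro h
          exact Option.some.inj (e.injective h)
        · rintro rfl
          rfl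
      have hnone : e none ≠ (t.add w).root := by
        rw [← h0]
        intro h
        exact absurd (e.injective h) (by simp)
      refine ⟨eqR e, ?_, ?_, ?_⟩
      · rfl
      · rintro (a | a) (b | b)
        · exact Iff.rfl
        · exact (adj_lr s (t.add w) a (e (some b))).trans
            ((and_congr_right fun _ => hroot b).trans (adj_lr s t a b).symm)
        · exact (adj_rl s (t.add w) (e (some a)) b).trans
            ((and_congr_right fun _ => hroot a).trans (adj_rl s t a b).symm)
        · exact h1 a b
      · rintro (a | a)
        · constructor
          · intro h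
            exact absurd ((adj_lr s (t.add w) a (e none)).1 h).2 hnone
          · intro h
            exact absurd h Sum.inl_ne_inr
        · exact (h2 a).trans ⟨fun h => congrArg Sum.inr h, fun h => Sum.inr.inj h⟩

end RT

end Pool.Agent.Lib.MP_dbb03c_co
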