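import Mathlib

/-! # Statement level definitions -/

set_option autoImplicit false

namespace Pool.Agent.Lib.MP_dbb03c_co

/-- The vertices of the rooted tree `T(x,y,z)` of depth 3: the vertices of depth 0, 1, 2, 3. -/
inductive TV (x y z : ℕ) : Type
  | d0 : TV x y z
  | d1 (i : Fin x) : TV x y z
  | d2 (i : Fin x) (j : Fin y) : TV x y z
  | d3 (i : Fin x) (j : Fin y) (k : Fin z) : TV x y z
  deriving DecidableEq

/-- `Child u v`: the vertex `v` is a child of `u` in `T(x,y,z)`. -/
inductive Child {x y z : ℕ} : TV x y z → TV x y z → Prop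
  | c1 (i : Fin x) : Child .d0 (.d1 i)
  | c2 (i : Fin x) (j : Fin y) : Child (.d1 i) (.d2 i j)
  | c3 (i : Fin x) (j : Fin y) (k : Fin z) : Child (.d2 i j) (.d3 i j k)

/-- Adjacency of `T̂(x,y,z)`: the tree `T(x,y,z)` with a loop added at the root. -/
def HatAdj (x y z : ℕ) (u v : TV x y z) : Prop :=
  Child u v ∨ Child v u ∨ (u = .d0 ∧ v = .d0)

/-- The number of `H`-colourings of `G`, for the target `H` with adjacency relation `A`. -/
noncomputable def hom {W V : Type} (G : SimpleGraph W) (A : V → V → Prop) : ℕ :=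
  Nat.card {f : W → V // ∀ a b, G.Adj a b → A (f a) (f b)}

/-- `d_H(n)` for the target `H` with adjacency relation `A`. -/
noncomputable def dH {V : Type} (A : V → V → Prop) (n : ℕ) : ℕ :=
  sSup {d | 2 ≤ d ∧ d ≤ n - 1 ∧ ∀ T : SimpleGraph (Fin n), T.IsTree →
    (∀ a b, T.dist a b ≤ d) → hom (SimpleGraph.pathGraph n) A ≤ hom T A}

end Pool.Agent.Lib.MP_dbb03c_co
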